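import Pool.Agent.P.MP_860a31_lc.Basic

/-!
Upper bounds of directed families of ambient objects and extensions of ambient objects.
-/

open Cardinal hiding univ
open Set SetRel

namespace Pool.Agent.P.MP_860a31_lc

namespace AmbP

variable {κ lam : Cardinal.{0}} {C : Ctx κ lam} {Ω : Type}

/-- the relation of having the same image in `Ω` -/
def rel (a b : Amb C Ω) : SetRel (C.U a.M) (C.U b.M) := {p | a.j p.1 = b.j p.2}

theorem mem_rel {a b : Amb C Ω} {x : C.U a.M} {y : C.U b.M} :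
    (x, y) ∈ rel a b ↔ a.j x = b.j y := Iff.rfl

theorem pi_rel {a b c : Amb C Ω} (ha : a.le c) (hb : b.le c) : C.PI (rel a b) := by
  have e : rel a b = rel a c ○ (rel b c).inv := by
    ext ⟨x, y⟩
    constructor
    · intro h
      obtain ⟨z, hz⟩ := ha.2 ⟨x, rfl⟩
      exact ⟨z, hz.symm, (mem_rel.1 h).symm.trans hz.symm⟩
    · rintro ⟨z, h1, h2⟩
      exact (mem_rel.1 h1).trans (mem_rel.1 h2).symm
  rw [e]
  exact C.pi_comp ha.1 (C.pi_inv hb.1)

theorem le_trans' {a b c : Amb C Ω} (h1 : a.le b) (h2 : b.le c) : a.le c := by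
  refine ⟨?_, h1.2.trans h2.2⟩
  have e : rel a c = rel a b ○ rel b c := by
    ext ⟨x, y⟩
    constructor
    · intro h
      obtain ⟨z, hz⟩ := h1.2 ⟨x, rfl⟩
      exact ⟨z, hz.symm, hz.trans (mem_rel.1 h)⟩
    · rintro ⟨z, h1, h2⟩
      exact (mem_rel.1 h1).trans (mem_rel.1 h2)
  change C.PI (rel a c)
  rw [e]
  exact C.pi_comp h1.1 h2.1

theorem rel_eq_graph {a b : Amb C Ω} {f : C.U a.M → C.U b.M} (hf : ∀ x, b.j (f x) = a.j x) :
    rel a b = f.graph := by
  ext ⟨x, y⟩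
  constructor
  · intro h
    exact b.inj ((hf x).trans (mem_rel.1 h))
  · intro h
    have h' : f x = y := h
    rw [mem_rel, ← h', hf]

theorem upper (c : Set (Amb C Ω)) (hne : c.Nonempty) (hd : DirectedOn Amb.le c) :
    ∃ b : Amb C Ω, (∀ a ∈ c, a.le b) ∧ range b.j = ⋃ a ∈ c, range a.j := by
  classical
  have hpi : ∀ a ∈ c, ∀ b ∈ c, C.PI (rel a b) := fun a ha b hb => by
    obtain ⟨d, -, h1, h2⟩ := hd a ha b hb
    exact pi_rel h1 h2
  let ι : Type := {R : Set Ω // ∃ a ∈ c, range a.j = R}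
  have hA : ∀ R : ι, ∃ a ∈ c, range a.j = R.1 := fun R => R.2
  choose A hAc hAr using hA
  have : Nonempty ι := by
    obtain ⟨a, ha⟩ := hne
    exact ⟨⟨range a.j, a, ha, rfl⟩⟩
  have hdir : IsDirected ι (· ≤ ·) := ⟨fun R R' => by
    obtain ⟨d, hdc, h1, h2⟩ := hd _ (hAc R) _ (hAc R')
    refine ⟨⟨range d.j, d, hdc, rfl⟩, ?_, ?_⟩
    · change R.1 ⊆ range d.j
      rw [← hAr]; exact h1.2
    · change R'.1 ⊆ range d.j
      rw [← hAr]; exact h2.2⟩
  have hf : ∀ (R R' : ι), R ≤ R' → ∀ x : C.U (A R).M, ∃ y : C.U (A R').M,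
      (A R').j y = (A R).j x := fun R R' h x => by
    have h1 : (A R).j x ∈ R.1 := hAr R ▸ mem_range_self x
    have h2 : (A R).j x ∈ range (A R').j := by
      rw [hAr]; exact h h1
    exact h2
  choose f hf using hf
  obtain ⟨P, g, hg, hgf, hsurj⟩ := C.colim ι (fun R => (A R).M) f
    (fun R R' h => by
      rw [← rel_eq_graph (hf R R' h)]
      exact hpi _ (hAc R) _ (hAc R'))
    (fun R x => (A R).inj (hf R R le_rfl x))
    (fun R R' R'' h h' x => (A R'').inj (by rw [hf, hf, hf]))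
  have key : ∀ (R R' : ι) (x : C.U (A R).M) (x' : C.U (A R').M),
      g R x = g R' x' ↔ (A R).j x = (A R').j x' := fun R R' x x' => by
    obtain ⟨T, h, h'⟩ := hdir.directed R R'
    rw [← hgf R T h x, ← hgf R' T h' x', ← hf R T h x, ← hf R' T h' x',
      (Ctx.emb_inj (hg T)).eq_iff, (A T).inj.eq_iff]
  choose i x hix using hsurj
  have hinj : Function.Injective fun y => (A (i y)).j (x y) := fun y y' h => by
    rw [← hix y, ← hix y']
    exact (key _ _ _ _).2 h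
  let b : Amb C Ω := ⟨P, fun y => (A (i y)).j (x y), hinj⟩
  have hb : ∀ (R : ι) (z : C.U (A R).M), b.j (g R z) = (A R).j z := fun R z =>
    (key _ _ _ _).1 (hix _)
  have hAb : ∀ R : ι, (A R).le b := fun R => by
    refine ⟨?_, ?_⟩
    · change C.PI (rel (A R) b)
      rw [rel_eq_graph (b := b) (hb R)]
      exact hg R
    · rintro _ ⟨z, rfl⟩
      exact ⟨g R z, hb R z⟩
  have hle : ∀ a ∈ c, a.le b := fun a ha => by
    let R : ι := ⟨range a.j, a, ha, rfl⟩
    refine le_trans' (b := A R) ⟨hpi _ ha _ (hAc R), ?_⟩ (hAb R)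
    rw [hAr]
  refine ⟨b, hle, Subset.antisymm ?_ ?_⟩
  · rintro _ ⟨y, rfl⟩
    exact mem_biUnion (hAc (i y)) ⟨x y, rfl⟩
  · exact iUnion₂_subset fun a ha => (hle a ha).2

theorem extend (a : Amb C Ω) (N : C.Obj) (f : C.U a.M → C.U N) (hf : C.PI f.graph)
    (hΩ : ℵ₀ ≤ #Ω) (hN : #(C.U N) < #Ω) :
    ∃ (j : C.U N → Ω) (hj : Function.Injective j),
      (∀ x, j (f x) = a.j x) ∧ a.le ⟨N, j, hj⟩ := by
  classical
  have : Infinite Ω := infinite_iff.2 hΩ
  have h1 : #(range a.j) < #Ω :=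
    (mk_range_le.trans (Ctx.card_le_of_emb hf)).trans_lt hN
  have h2 : #(C.U N) ≤ #((range a.j)ᶜ : Set Ω) := by
    rw [mk_compl_of_infinite _ h1]; exact hN.le
  obtain ⟨e⟩ := (le_def _ _).1 h2
  have finj := Ctx.emb_inj hf
  let j : C.U N → Ω := fun y => if h : ∃ x, f x = y then a.j h.choose else (e y).1
  have hj1 : ∀ x, j (f x) = a.j x := fun x => by
    have h : ∃ x', f x' = f x := ⟨x, rfl⟩
    simp only [j, dif_pos h]
    rw [finj h.choose_spec]
  have hj2 : ∀ y, ¬ (∃ x, f x = y) → j y = (e y).1 := fun y h => by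
    simp only [j, dif_neg h]
  have hj : Function.Injective j := fun y y' h => by
    by_cases hy : ∃ x, f x = y
    · obtain ⟨x, rfl⟩ := hy
      by_cases hy' : ∃ x, f x = y'
      · obtain ⟨x', rfl⟩ := hy'
        rw [hj1, hj1] at h
        rw [a.inj h]
      · rw [hj1, hj2 _ hy'] at h
        exact absurd ⟨x, h⟩ (e y').2
    · by_cases hy' : ∃ x, f x = y'
      · obtain ⟨x', rfl⟩ := hy'
        rw [hj1, hj2 _ hy] at h
        exact absurd ⟨x', h.symm⟩ (e y).2
      · rw [hj2 _ hy, hj2 _ hy'] at h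
        exact e.injective (Subtype.ext h)
  refine ⟨j, hj, hj1, ?_, ?_⟩
  · change C.PI (rel a ⟨N, j, hj⟩)
    rw [rel_eq_graph (b := ⟨N, j, hj⟩) hj1]
    exact hf
  · rintro _ ⟨x, rfl⟩
    exact ⟨f x, hj1 x⟩

end AmbP

theorem amb : S_Amb := fun _ _ _ _ => ⟨AmbP.upper, AmbP.extend⟩

end Pool.Agent.P.MP_860a31_lc
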