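import Pool.Agent.P.MP_860a31_lc.Ctx

/-!
Basic consequences of the axioms of `Ctx` and `EM`.
-/

open Cardinal hiding univ
open Set SetRel

namespace Pool.Agent.P.MP_860a31_lc

/-- recursion along a well-order with choices -/
theorem chain_rec.{u} {Λ : Type} [LinearOrder Λ] [WellFoundedLT Λ] {A : Type u}
    (P : Λ → A → Prop) (R : A → A → Prop)
    (step : ∀ (i : Λ) (a : Iio i → A), (∀ k : Iio i, P k (a k)) →
      (∀ k l : Iio i, k < l → R (a k) (a l)) →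
      ∃ x, P i x ∧ ∀ k, R (a k) x) :
    ∃ a : Λ → A, (∀ i, P i (a i)) ∧ ∀ k l, k < l → R (a k) (a l) := by
  classical
  rcases isEmpty_or_nonempty Λ with hΛ | hΛ
  · exact ⟨fun i => isEmptyElim i, fun i => isEmptyElim i, fun i => isEmptyElim i⟩
  obtain ⟨i0, -, hi0⟩ := (wellFounded_lt (α := Λ)).has_min univ univ_nonempty
  have hA : Nonempty A := by
    have hE : IsEmpty (Iio i0) := ⟨fun k => hi0 k.1 (mem_univ _) k.2⟩
    obtain ⟨x, -⟩ := step i0 (fun k => hE.elim k) (fun k => hE.elim k) (fun k => hE.elim k)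
    exact ⟨x⟩
  let F : ∀ i : Λ, (∀ k : Λ, k < i → A) → A := fun i a =>
    Classical.epsilon fun x => P i x ∧ ∀ k : Iio i, R (a k.1 k.2) x
  let a : Λ → A := (wellFounded_lt (α := Λ)).fix F
  have ha : ∀ i, a i = F i (fun k _ => a k) := fun i => WellFounded.fix_eq _ _ _
  have key : ∀ i, P i (a i) ∧ ∀ k, k < i → R (a k) (a i) := by
    intro i
    induction i using WellFoundedLT.induction with
    | ind i ih =>
      have h := step i (fun k => a k.1) (fun k => (ih k.1 k.2).1)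
        (fun k l hkl => (ih l.1 l.2).2 k.1 hkl)
      have h2 := Classical.epsilon_spec h
      rw [ha i]
      exact ⟨h2.1, fun k hk => h2.2 ⟨k, hk⟩⟩
  exact ⟨a, fun i => (key i).1, fun k l h => (key l).2 k h⟩

namespace Ctx

variable {κ lam : Cardinal.{0}} (C : Ctx κ lam) {M N Q : C.Obj}

theorem pi_empty : C.PI (∅ : SetRel (C.U M) (C.U N)) := by
  have := C.pi_union (M := M) (N := N) ∅ (by simp) (by simp [DirectedOn])
  simpa using this

theorem cl_empty : C.cl (∅ : Set (C.U M)) = ∅ := by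
  have := C.pi_dom (C.pi_empty (M := M) (N := M))
  simpa using this

theorem cl_univ : C.cl (univ : Set (C.U M)) = univ := eq_univ_of_univ_subset (C.sub_cl _)

theorem cl_subset {A D : Set (C.U M)} (h : A ⊆ D) (hD : C.cl D = D) : C.cl A ⊆ D :=
  hD ▸ C.cl_mono h

theorem cl_subset_cl {A B : Set (C.U M)} (h : A ⊆ C.cl B) : C.cl A ⊆ C.cl B :=
  C.cl_subset h (C.cl_cl B)

theorem cl_inter {A B : Set (C.U M)} (hA : C.cl A = A) (hB : C.cl B = B) :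
    C.cl (A ∩ B) = A ∩ B :=
  Subset.antisymm (subset_inter (C.cl_subset inter_subset_left hA)
    (C.cl_subset inter_subset_right hB)) (C.sub_cl _)

variable {C}

theorem pi_inj {Γ : SetRel (C.U M) (C.U N)} (h : C.PI Γ) {x x' : C.U M} {y : C.U N}
    (h1 : (x, y) ∈ Γ) (h2 : (x', y) ∈ Γ) : x = x' :=
  C.pi_fun (C.pi_inv h) (x := y) h1 h2

theorem pi_cod {Γ : SetRel (C.U M) (C.U N)} (h : C.PI Γ) : C.cl Γ.cod = Γ.cod :=
  C.pi_dom (C.pi_inv h)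

theorem pi_idOn_cl (A : Set (C.U M)) : C.PI (idOn (C.cl A)) := C.pi_id (C.cl_cl A)

theorem pi_idOn_univ : C.PI (idOn (univ : Set (C.U M))) := C.pi_id C.cl_univ

theorem pi_graph_id : C.PI (Function.graph (id : C.U M → C.U M)) := by
  have : Function.graph (id : C.U M → C.U M) = idOn univ := by
    ext ⟨x, y⟩; simp
  rw [this]; exact pi_idOn_univ

theorem pi_graph_comp {f : C.U M → C.U N} {g : C.U N → C.U Q} (hf : C.PI f.graph)
    (hg : C.PI g.graph) : C.PI (g ∘ f).graph := by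
  rw [Function.graph_comp]; exact C.pi_comp hf hg

theorem pi_iUnion {ι : Sort*} (Γ : ι → SetRel (C.U M) (C.U N)) (h : ∀ i, C.PI (Γ i))
    (hd : Directed (· ⊆ ·) Γ) : C.PI (⋃ i, Γ i) := by
  rw [← sUnion_range]
  refine C.pi_union _ ?_ (directedOn_range.2 hd)
  rintro _ ⟨i, rfl⟩; exact h i

theorem emb_inj {f : C.U M → C.U N} (h : C.PI f.graph) : Function.Injective f :=
  fun _ x' e => pi_inj h (y := f x') e rfl

theorem cl_range {f : C.U M → C.U N} (h : C.PI f.graph) : C.cl (range f) = range f := by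
  have h1 : f.graph.cod = range f := by ext y; simp
  rw [← h1]; exact pi_cod h

theorem cl_subset_dom {Γ : SetRel (C.U M) (C.U N)} (h : C.PI Γ) {A : Set (C.U M)}
    (hA : A ⊆ Γ.dom) : C.cl A ⊆ Γ.dom := C.cl_subset hA (C.pi_dom h)

theorem cl_subset_cod {Γ : SetRel (C.U M) (C.U N)} (h : C.PI Γ) {B : Set (C.U N)}
    (hB : B ⊆ Γ.cod) : C.cl B ⊆ Γ.cod := C.cl_subset hB (pi_cod h)

/-- a `PI` relation sending `A` into `B` is defined on `cl A` and sends it into `cl B` -/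
theorem exists_cl {Γ : SetRel (C.U M) (C.U N)} (h : C.PI Γ) {A : Set (C.U M)} {B : Set (C.U N)}
    (hAB : ∀ a ∈ A, ∃ b ∈ B, (a, b) ∈ Γ) {x : C.U M} (hx : x ∈ C.cl A) :
    ∃ y ∈ C.cl B, (x, y) ∈ Γ := by
  have h1 : C.PI (Γ ○ idOn (C.cl B)) := C.pi_comp h (pi_idOn_cl B)
  have h2 : A ⊆ (Γ ○ idOn (C.cl B)).dom := fun a ha => by
    obtain ⟨b, hb, hab⟩ := hAB a ha
    exact ⟨b, b, hab, rfl, C.sub_cl _ hb⟩
  obtain ⟨y, z, hz, -, hy⟩ := cl_subset_dom h1 h2 hx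
  exact ⟨_, hy, hz⟩

theorem mem_cl_of {Γ : SetRel (C.U M) (C.U N)} (h : C.PI Γ) {A : Set (C.U M)} {B : Set (C.U N)}
    (hAB : ∀ a ∈ A, ∃ b ∈ B, (a, b) ∈ Γ) {x : C.U M} (hx : x ∈ C.cl A) {y : C.U N}
    (hxy : (x, y) ∈ Γ) : y ∈ C.cl B := by
  obtain ⟨y', hy', h'⟩ := exists_cl h hAB hx
  rwa [C.pi_fun h hxy h']

theorem image_cl {f : C.U M → C.U N} (h : C.PI f.graph) (A : Set (C.U M)) :
    f '' C.cl A = C.cl (f '' A) := by
  apply Subset.antisymm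
  · rintro _ ⟨x, hx, rfl⟩
    exact mem_cl_of h (fun a ha => ⟨f a, mem_image_of_mem f ha, rfl⟩) hx rfl
  · intro y hy
    obtain ⟨x, hx, e⟩ := exists_cl (C.pi_inv h) (A := f '' A) (B := A)
      (by rintro _ ⟨a, ha, rfl⟩; exact ⟨a, ha, rfl⟩) hy
    exact ⟨x, hx, e⟩

theorem eq_of_subset {Γ Δ : SetRel (C.U M) (C.U N)} (h : C.PI Δ) (hs : Γ ⊆ Δ)
    (hd : Δ.dom ⊆ Γ.dom) : Γ = Δ := by
  refine Subset.antisymm hs ?_
  rintro ⟨x, y⟩ hxy
  obtain ⟨y', hy'⟩ := hd ⟨y, hxy⟩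
  rwa [C.pi_fun h hxy (hs hy')]

/-- a total `PI` relation is the graph of a function -/
theorem exists_fun {Γ : SetRel (C.U M) (C.U N)} (h : C.PI Γ) (hd : Γ.dom = univ) :
    ∃ f : C.U M → C.U N, f.graph = Γ := by
  have : ∀ x, ∃ y, (x, y) ∈ Γ := fun x => (hd ▸ mem_univ x : x ∈ Γ.dom)
  choose f hf using this
  refine ⟨f, eq_of_subset h ?_ ?_⟩
  · rintro ⟨x, y⟩ (e : f x = y); exact e ▸ hf x
  · intro x _; exact ⟨f x, rfl⟩

theorem mem_cl_iUnion {ι : Type*} [Nonempty ι] {S : ι → Set (C.U M)} (hd : Directed (· ⊆ ·) S)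
    {x : C.U M} (hx : x ∈ C.cl (⋃ i, S i)) : ∃ i, x ∈ C.cl (S i) := by
  obtain ⟨t, ht, hxt⟩ := C.cl_fin hx
  obtain ⟨i, hi⟩ := hd.exists_mem_subset_of_finset_subset_biUnion ht
  exact ⟨i, C.cl_mono hi hxt⟩

theorem card_le_of_emb {f : C.U M → C.U N} (h : C.PI f.graph) : #(C.U M) ≤ #(C.U N) :=
  mk_le_of_injective (emb_inj h)

theorem card_cl_le {θ : Cardinal.{0}} (hθ : κ ≤ θ) {A : Set (C.U M)} (hA : #A ≤ θ) :
    #(C.cl A) ≤ θ :=
  (C.cl_card A).trans (add_le_of_le (C.inf.trans hθ) hA hθ)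

/-- every object of size `lam` is universal for sets of size `≤ lam` -/
theorem universal (hκ : κ ≤ lam) (D : Set (C.U M)) (hD : #D ≤ lam) (hN : #(C.U N) = lam) :
    ∃ Γ : SetRel (C.U M) (C.U N), C.PI Γ ∧ D ⊆ Γ.dom := by
  obtain ⟨P, f, g, hf, hg, -⟩ := C.ap (C.pi_empty (M := M) (N := N))
  have hinf : ℵ₀ ≤ lam := C.inf.trans hκ
  have hne : Nonempty (C.U N) := by
    rw [← mk_ne_zero_iff, hN]; exact (aleph0_pos.trans_le hinf).ne'
  have hr : #(range g) = lam := by rw [mk_range_eq _ (emb_inj hg), hN]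
  obtain ⟨R, h, hh, hrange⟩ := C.sub (C.cl_cl (f '' D ∪ range g))
    ⟨g hne.some, C.sub_cl _ (Or.inr ⟨_, rfl⟩)⟩
  have hR : #(C.U R) = lam := by
    rw [← mk_range_eq _ (emb_inj hh), hrange]
    apply le_antisymm
    · refine card_cl_le hκ ((mk_union_le _ _).trans (add_le_of_le hinf ?_ hr.le))
      exact mk_image_le.trans hD
    · exact hr.ge.trans (mk_le_mk_of_subset (subset_union_right.trans (C.sub_cl _)))
  obtain ⟨Δ, hΔ, hdom, -⟩ := C.cat R N hR hN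
  refine ⟨f.graph ○ (h.graph.inv ○ Δ), C.pi_comp hf (C.pi_comp (C.pi_inv hh) hΔ), fun x hx => ?_⟩
  obtain ⟨r, hr⟩ : f x ∈ range h := hrange ▸ C.sub_cl _ (Or.inl (mem_image_of_mem f hx))
  obtain ⟨y, hy⟩ : r ∈ Δ.dom := hdom ▸ mem_univ r
  exact ⟨y, f x, rfl, r, hr, hy⟩

end Ctx

namespace EM

variable {κ lam : Cardinal.{0}} {C : Ctx κ lam} (E : EM C) {I J : Type} [LinearOrder I]
  [LinearOrder J]

theorem sp_mono {Z Z' : Set I} (h : Z ⊆ Z') : E.sp Z ⊆ E.sp Z' := C.cl_mono (image_mono h)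

theorem cl_sp (Z : Set I) : C.cl (E.sp Z) = E.sp Z := C.cl_cl _

theorem atm_mem_sp {Z : Set I} {z : I} (h : z ∈ Z) : E.atm I z ∈ E.sp Z :=
  C.sub_cl _ (mem_image_of_mem _ h)

theorem sp_univ [h : Nonempty I] : E.sp (univ : Set I) = univ := by
  rw [sp, image_univ]; exact E.gen I h

theorem sp_fin {Z : Set I} {x : C.U (E.obj I)} (hx : x ∈ E.sp Z) :
    ∃ t : Finset I, (t : Set I) ⊆ Z ∧ x ∈ E.sp (t : Set I) := by
  classical
  obtain ⟨t, ht, hxt⟩ := C.cl_fin hx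
  obtain ⟨t', ht', rfl⟩ := Finset.subset_set_image_iff.1 ht
  exact ⟨t', ht', by simpa [sp] using hxt⟩

theorem mem_sp_iUnion {ι : Type*} [Nonempty ι] {S : ι → Set I} (hd : Directed (· ⊆ ·) S)
    {x : C.U (E.obj I)} (hx : x ∈ E.sp (⋃ i, S i)) : ∃ i, x ∈ E.sp (S i) := by
  obtain ⟨t, ht, hxt⟩ := E.sp_fin hx
  obtain ⟨i, hi⟩ := hd.exists_mem_subset_of_finset_subset_biUnion ht
  exact ⟨i, E.sp_mono hi hxt⟩

theorem card_sp (Z : Set I) : #(E.sp Z) ≤ #Z + κ :=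
  (C.cl_card _).trans (by gcongr; exact mk_image_le)

theorem card_sp_le {θ : Cardinal.{0}} (hθ : κ ≤ θ) {Z : Set I} (hZ : #Z ≤ θ) : #(E.sp Z) ≤ θ :=
  Ctx.card_cl_le hθ (mk_image_le.trans hZ)

theorem card_obj_le [Nonempty I] : #(C.U (E.obj I)) ≤ #I + κ := by
  have := E.card_sp (univ : Set I)
  rwa [sp_univ, mk_univ, mk_univ] at this

theorem le_card_obj : #I ≤ #(C.U (E.obj I)) := mk_le_of_injective (E.atm_inj I)

theorem card_obj (h : κ ≤ #I) : #(C.U (E.obj I)) = #I := by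
  have hinf : ℵ₀ ≤ #I := C.inf.trans h
  have : Nonempty I := by rw [← mk_ne_zero_iff]; exact (aleph0_pos.trans_le hinf).ne'
  exact le_antisymm (E.card_obj_le.trans (add_le_of_le hinf le_rfl h)) E.le_card_obj

theorem tr_dom' {Z : Set I} {u : I → J} (hu : StrictMonoOn u Z) : (E.Tr Z u).dom = E.sp Z :=
  E.tr_dom hu

theorem tr_map {Z Z0 : Set I} {u : I → J} (hu : StrictMonoOn u Z) (h : Z0 ⊆ Z)
    {x : C.U (E.obj I)} (hx : x ∈ E.sp Z0) : ∃ y ∈ E.sp (u '' Z0), (x, y) ∈ E.Tr Z u :=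
  Ctx.exists_cl (E.tr_pi hu) (by
    rintro _ ⟨z, hz, rfl⟩
    exact ⟨_, ⟨u z, mem_image_of_mem u hz, rfl⟩, E.tr_atm hu z (h hz)⟩) hx

theorem tr_map' {Z Z0 : Set I} {u : I → J} (hu : StrictMonoOn u Z) (h : Z0 ⊆ Z)
    {x : C.U (E.obj I)} (hx : x ∈ E.sp Z0) {y : C.U (E.obj J)} (hxy : (x, y) ∈ E.Tr Z u) :
    y ∈ E.sp (u '' Z0) := by
  obtain ⟨y', hy', h'⟩ := E.tr_map hu h hx
  rwa [C.pi_fun (E.tr_pi hu) hxy h']

theorem tr_back {Z Z0 : Set I} {u : I → J} (hu : StrictMonoOn u Z) (h : Z0 ⊆ Z)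
    {y : C.U (E.obj J)} (hy : y ∈ E.sp (u '' Z0)) : ∃ x ∈ E.sp Z0, (x, y) ∈ E.Tr Z u :=
  Ctx.exists_cl (C.pi_inv (E.tr_pi hu)) (by
    rintro _ ⟨_, ⟨z, hz, rfl⟩, rfl⟩
    exact ⟨_, ⟨z, hz, rfl⟩, E.tr_atm hu z (h hz)⟩) hy

theorem tr_back' {Z Z0 : Set I} {u : I → J} (hu : StrictMonoOn u Z) (h : Z0 ⊆ Z)
    {y : C.U (E.obj J)} (hy : y ∈ E.sp (u '' Z0)) {x : C.U (E.obj I)} (hxy : (x, y) ∈ E.Tr Z u) :
    x ∈ E.sp Z0 := by
  obtain ⟨x', hx', h'⟩ := E.tr_back hu h hy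
  rwa [Ctx.pi_inj (E.tr_pi hu) hxy h']

theorem tr_cod {Z : Set I} {u : I → J} (hu : StrictMonoOn u Z) :
    (E.Tr Z u).cod = E.sp (u '' Z) := by
  apply Subset.antisymm
  · rintro y ⟨x, hxy⟩
    exact E.tr_map' hu Subset.rfl (E.tr_dom' hu ▸ ⟨y, hxy⟩) hxy
  · intro y hy
    obtain ⟨x, -, h⟩ := E.tr_back hu Subset.rfl hy
    exact ⟨x, h⟩

/-- `Tr Z u` fixes the span of a set on which `u` is the identity -/
theorem tr_fix {Z Z0 : Set I} {u : I → I} (h : Z0 ⊆ Z) (hu : EqOn u id Z0)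
    {x : C.U (E.obj I)} (hx : x ∈ E.sp Z0) : (x, x) ∈ E.Tr Z u := by
  obtain ⟨y, -, hy⟩ := E.tr_map (u := id) (strictMono_id.strictMonoOn Z0) Subset.rfl hx
  have e := E.tr_id hy
  subst e
  exact E.tr_mono h (E.tr_congr hu ▸ hy)

/-- two transports that agree on `Z0` agree on its span -/
theorem tr_agree {Z Z' Z0 : Set I} {u v : I → J} (hu : StrictMonoOn u Z) (h : Z0 ⊆ Z)
    (h' : Z0 ⊆ Z') (huv : EqOn u v Z0) {x : C.U (E.obj I)} (hx : x ∈ E.sp Z0)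
    {y : C.U (E.obj J)} (hxy : (x, y) ∈ E.Tr Z u) : (x, y) ∈ E.Tr Z' v := by
  obtain ⟨y', -, hy'⟩ := E.tr_map (hu.mono h) Subset.rfl hx
  have e := C.pi_fun (E.tr_pi hu) hxy (E.tr_mono h hy')
  subst e
  exact E.tr_mono h' (E.tr_congr huv ▸ hy')

end EM

section LoHi

variable {I J K : Type}

theorem lo_strictMono [LinearOrder I] : StrictMono (lo I) := fun _ _ h => Sum.Lex.inl_lt_inl_iff.2 h

theorem hi_strictMono [LinearOrder I] : StrictMono (hi I) := fun _ _ h => Sum.Lex.inr_lt_inr_iff.2 h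

theorem lo_lt_hi [LinearOrder I] (i : I) (n : ℕ) : lo I i < hi I n := Sum.Lex.inl_lt_inr _ _

theorem lo_inj : Function.Injective (lo I) := fun _ _ h => Sum.inl_injective (toLex.injective h)

theorem hi_inj : Function.Injective (hi I) := fun _ _ h => Sum.inr_injective (toLex.injective h)

theorem lo_ne_hi (i : I) (n : ℕ) : lo I i ≠ hi I n := fun h => Sum.inl_ne_inr (toLex.injective h)

theorem lo_or_hi (p : I ⊕ₗ ℕ) : (∃ i, p = lo I i) ∨ ∃ n, p = hi I n := by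
  rcases h : ofLex p with i | n
  · exact Or.inl ⟨i, congrArg toLex h⟩
  · exact Or.inr ⟨n, congrArg toLex h⟩

@[simp] theorem up_lo (u : I → J) (i : I) : up u (lo I i) = lo J (u i) := rfl

@[simp] theorem up_hi (u : I → J) (n : ℕ) : up u (hi I n) = hi J n := rfl

theorem up_id : up (id : I → I) = id := by
  funext p; rcases lo_or_hi p with ⟨i, rfl⟩ | ⟨n, rfl⟩ <;> rfl

theorem up_comp (u : I → J) (v : J → K) : up (v ∘ u) = up v ∘ up u := by
  funext p; rcases lo_or_hi p with ⟨i, rfl⟩ | ⟨n, rfl⟩ <;> rfl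

theorem up_strictMonoOn [LinearOrder I] [LinearOrder J] {u : I → J} {S : Set I}
    (hu : StrictMonoOn u S) : StrictMonoOn (up u) (lo I '' S ∪ range (hi I)) := by
  rintro _ (⟨i, hi', rfl⟩ | ⟨n, rfl⟩) _ (⟨j, hj, rfl⟩ | ⟨m, rfl⟩) h
  · exact lo_strictMono (hu hi' hj (lo_strictMono.lt_iff_lt.1 h))
  · exact lo_lt_hi _ _
  · exact absurd h (lo_lt_hi _ _).not_gt
  · exact hi_strictMono (hi_strictMono.lt_iff_lt.1 h)

theorem card_lo_hi {S : Set I} {θ : Cardinal.{0}} (hθ : ℵ₀ ≤ θ) (hS : #S ≤ θ) :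
    #(lo I '' S ∪ range (hi I) : Set (I ⊕ₗ ℕ)) ≤ θ :=
  (mk_union_le _ _).trans (add_le_of_le hθ (mk_image_le.trans hS)
    (mk_range_le.trans (by simpa using hθ)))

end LoHi

section Box

variable {Λ B : Type}

@[simp] theorem mem_box {V : Set Λ} {T : Set B} {v : Λ} {x : B} :
    toLex (v, x) ∈ box V T ↔ v ∈ V ∧ x ∈ T := Iff.rfl

theorem box_mono {V V' : Set Λ} {T T' : Set B} (h : V ⊆ V') (h' : T ⊆ T') : box V T ⊆ box V' T' :=
  fun _ hp => ⟨h hp.1, h' hp.2⟩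

theorem box_univ : box (univ : Set Λ) (univ : Set B) = univ :=
  eq_univ_of_forall fun _ => ⟨trivial, trivial⟩

theorem card_box (V : Set Λ) (T : Set B) : #(box V T) ≤ #V * #T := by
  have h : #(V × T) = #V * #T := by simp
  rw [← h]
  refine mk_le_of_injective (f := fun p : box V T => ((⟨_, p.2.1⟩, ⟨_, p.2.2⟩) : V × T)) ?_
  rintro ⟨p, hp⟩ ⟨q, hq⟩ e
  simp only [Prod.mk.injEq, Subtype.mk.injEq] at e
  exact Subtype.ext (ofLex.injective (Prod.ext e.1 e.2))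

end Box

end Pool.Agent.P.MP_860a31_lc
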