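import Pool.Agent.P.MP_860a31_lc.Basic

/-!
The Hanf number, embeddings of well-orders and the block order.
-/

open Cardinal hiding univ
open Set SetRel

namespace Pool.Agent.P.MP_860a31_lc

theorem hanfSpec : S_HanfSpec := by
  intro ν hν
  have h1 : ℵ₀ ≤ 2 ^ ν := hν.trans (cantor ν).le
  have hreg := isRegular_succ h1
  have hlim : Order.IsSuccLimit (Order.succ ((2 : Cardinal.{0}) ^ ν)).ord :=
    isSuccLimit_ord hreg.aleph0_le
  refine ⟨h1, (Order.lt_succ _).trans_le (le_beth_ord _),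
    fun θ hθ => (isStrongLimit_beth.mpr hlim.isSuccPrelimit).isStrongPrelimit hθ,
    fun ι f hι hf => ?_⟩
  choose a ha hfa using fun i => (isNormal_beth.lt_iff_exists_lt hlim).mp (hf i)
  refine ⟨beth (⨆ i, a i), beth_strictMono (Ordinal.iSup_lt_of_lt_cof ?_ ha),
    fun i => (hfa i).le.trans (beth_mono (Ordinal.le_iSup a i))⟩
  rw [hreg.cof_ord]
  exact hι.trans_lt (Order.lt_succ _)

theorem wo : S_WO := by
  intro S Y _ _ _ _ h
  have h1 : Ordinal.type (α := S) (· < ·) ≤ Ordinal.type (α := Y) (· < ·) := by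
    by_contra h2
    exact h.not_ge (Ordinal.card_le_card (not_le.mp h2).le)
  obtain ⟨e⟩ := Ordinal.type_le_iff'.mp h1
  exact ⟨e, fun a b hab => e.map_rel_iff.mpr hab⟩

theorem blk : S_Blk := by
  intro κ hκ
  have : Countable (ℕ ×ₗ ℚ) := inferInstanceAs (Countable (ℕ × ℚ))
  obtain ⟨ψ⟩ := Order.embedding_from_countable_to_dense (ℕ ×ₗ ℚ) ℚ
  have hs : ∀ k : ℕ, StrictMono fun p : ℕ ×ₗ ℚ => (toLex (k, ψ p) : ℕ ×ₗ ℚ) := fun k p q h =>
    Prod.Lex.lt_iff.2 (Or.inr ⟨rfl, ψ.strictMono h⟩)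
  have hl : ∀ k : ℕ, IsLowerSet {p : ℕ ×ₗ ℚ | (ofLex p).1 < k} := fun k p q h hp =>
    (Prod.Lex.monotone_fst_ofLex h).trans_lt hp
  refine ⟨ℕ ×ₗ ℚ, inferInstance, fun k => {p | (ofLex p).1 < k}, mk_le_aleph0.trans hκ, hl,
    fun j k h p hp => lt_of_lt_of_le hp h, fun p => ⟨_, Nat.lt_succ_self _⟩, inferInstance,
    fun k => ⟨fun p => if (ofLex p).1 < k then p else toLex (k, ψ p), fun p q h => ?_,
      fun p => ?_, fun p hp => if_pos hp⟩,
    fun k => ⟨_, (hs k).strictMonoOn _, fun p _ => lt_irrefl k⟩,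
    fun n => toLex (n, 0), fun m n h => Prod.Lex.lt_iff.2 (Or.inl h)⟩
  · by_cases h2 : (ofLex q).1 < k
    · simp only [if_pos h2, if_pos (show (ofLex p).1 < k from hl k h.le h2), h]
    · by_cases h1 : (ofLex p).1 < k
      · simp only [if_pos h1, if_neg h2]
        exact Prod.Lex.lt_iff.2 (Or.inl h1)
      · simp only [if_neg h1, if_neg h2]
        exact hs k h
  · by_cases h1 : (ofLex p).1 < k
    · simp only [if_pos h1]
      exact h1.trans (Nat.lt_succ_self k)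
    · simp only [if_neg h1]
      exact Nat.lt_succ_self k

end Pool.Agent.P.MP_860a31_lc
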