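import Pool.Agent.P.MP_860a31_lc.Inst1

open FirstOrder FirstOrder.Language
open Cardinal hiding univ
open Set SetRel

namespace Pool.Agent.P.MP_860a31_lc

theorem colimK (h : S_DirU) : S_Colim := by
  intro L K ι _ _ _ A _ f hf h1 h2
  have : DirectedSystem A fun i j h => f i j h :=
    ⟨fun i x => h1 i x, fun k j i hij hjk x => h2 i j k hij hjk x⟩
  let g : ∀ i, A i ↪[L] Language.DirectLimit A f := fun i => Language.DirectLimit.of L ι A f i
  have hg : ∀ i j h x, g j (f i j h x) = g i x := fun i j h x => Language.DirectLimit.of_f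
  have hsurj : ∀ y, ∃ i x, g i x = y := fun y => Language.DirectLimit.exists_of y
  have hmono : Monotone fun i => (g i).toHom.range := by
    rintro i j hij _ ⟨x, rfl⟩
    exact ⟨f i j hij x, hg i j hij x⟩
  refine ⟨Language.DirectLimit A f, inferInstance, g, ?_, hg, hsurj⟩
  refine h L K _ ι (fun i => (g i).toHom.range) hmono (fun i j hij => ?_) ?_
  · have h3 := K.strong_iso (g j).equivRange _ (hf i j hij)
    have e : (f i j hij).toHom.range.map (g j).equivRange.toHom =
        (g i).toHom.range.comap (g j).toHom.range.subtype.toHom := by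
      ext y
      constructor
      · rintro ⟨_, ⟨x, rfl⟩, rfl⟩
        exact ⟨x, (hg i j hij x).symm⟩
      · rintro ⟨x, hx⟩
        exact ⟨f i j hij x, ⟨x, rfl⟩, Subtype.ext ((hg i j hij x).trans hx)⟩
    rwa [e] at h3
  · rw [eq_top_iff]
    intro y _
    obtain ⟨i, x, rfl⟩ := hsurj y
    exact le_iSup (fun i => (g i).toHom.range) i ⟨x, rfl⟩

theorem codeK : S_Code := by
  intro L κ hκ hL ι
  let D : Type := (ι × ι) ⊕ ((Σ n, L.Functions n × (Fin n → ι) × ι) ⊕
    (Σ n, L.Relations n × (Fin n → ι)))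
  have hinf : ℵ₀ ≤ #ι + κ := hκ.trans (self_le_add_left _ _)
  have hι : #ι ≤ #ι + κ := self_le_add_right _ _
  have hκ' : κ ≤ #ι + κ := self_le_add_left _ _
  have hfin : ∀ n, #(Fin n → ι) ≤ #ι + κ := fun n => by
    have : #(Fin n → ι) = #ι ^ n := by simp
    rw [this]
    exact (pow_le_pow_left' hι n).trans (power_nat_le hinf)
  have hF : ∀ n, #(L.Functions n) ≤ #ι + κ := fun n => by
    refine le_trans ?_ (hL.trans hκ')
    exact mk_le_of_injective (f := fun F : L.Functions n => (Sum.inl ⟨n, F⟩ : L.Symbols))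
      fun a b e => by simpa using e
  have hR : ∀ n, #(L.Relations n) ≤ #ι + κ := fun n => by
    refine le_trans ?_ (hL.trans hκ')
    exact mk_le_of_injective (f := fun F : L.Relations n => (Sum.inr ⟨n, F⟩ : L.Symbols))
      fun a b e => by simpa using e
  have hs : ∀ (X : ℕ → Type), (∀ n, #(X n) ≤ #ι + κ) → #(Σ n, X n) ≤ #ι + κ := fun X hX => by
    rw [mk_sigma]
    refine (sum_le_sum _ (fun _ => #ι + κ) hX).trans ?_
    rw [sum_const']
    exact mul_le_of_le hinf (by simpa using hinf) le_rfl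
  have hp : ∀ X Y : Type, #X ≤ #ι + κ → #Y ≤ #ι + κ → #(X × Y) ≤ #ι + κ := fun X Y hX hY => by
    have : #(X × Y) = #X * #Y := by simp
    rw [this]; exact mul_le_of_le hinf hX hY
  have hsum : ∀ X Y : Type, #X ≤ #ι + κ → #Y ≤ #ι + κ → #(X ⊕ Y) ≤ #ι + κ := fun X Y hX hY => by
    have : #(X ⊕ Y) = #X + #Y := by simp
    rw [this]; exact add_le_of_le hinf hX hY
  have hD : #D ≤ #ι + κ := hsum _ _ (hp _ _ hι hι) (hsum _ _
    (hs _ fun n => hp _ _ (hF n) (hp _ _ (hfin n) hι)) (hs _ fun n => hp _ _ (hR n) (hfin n)))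
  refine ⟨D → Prop, fun M _ e d => Sum.elim (fun p => e p.1 = e p.2) (Sum.elim
    (fun p => Structure.funMap p.2.1 (e ∘ p.2.2.1) = e p.2.2.2)
    (fun p => Structure.RelMap p.2.1 (e ∘ p.2.2))) d, ?_, ?_⟩
  · have : #(D → Prop) = 2 ^ #D := by simp
    rw [this]; exact power_le_power_left two_ne_zero hD
  · intro M N _ _ e e' he
    exact ⟨fun i j => iff_of_eq (congrFun he (Sum.inl (i, j))),
      fun n F x j => iff_of_eq (congrFun he (Sum.inr (Sum.inl ⟨n, F, x, j⟩))),
      fun n R x => iff_of_eq (congrFun he (Sum.inr (Sum.inr ⟨n, R, x⟩)))⟩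

end Pool.Agent.P.MP_860a31_lc
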