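import Pool.Agent.P.MP_860a31_lc.Defs

/-!
Abstract interface: closure systems with isomorphisms between closed sets, Ehrenfeucht–Mostowski
data, presheaves of groups, and the statements of the packages.
-/

open Cardinal hiding univ
open Set SetRel

namespace Pool.Agent.P.MP_860a31_lc

/-- the identity relation on `D` -/
def idOn {α : Type} (D : Set α) : SetRel α α := {p | p.1 = p.2 ∧ p.1 ∈ D}

@[simp] theorem mem_idOn {α : Type} {D : Set α} {x y : α} : (x, y) ∈ idOn D ↔ x = y ∧ x ∈ D :=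
  Iff.rfl

/-- Objects with a finitary closure operator and a class `PI` of graphs of isomorphisms between
closed sets; joint embedding and amalgamation, directed colimits, categoricity in `lam`. -/
structure Ctx (κ lam : Cardinal.{0}) where
  Obj : Type 1
  U : Obj → Type
  cl : ∀ {M : Obj}, Set (U M) → Set (U M)
  PI : ∀ {M N : Obj}, SetRel (U M) (U N) → Prop
  inf : ℵ₀ ≤ κ
  sub_cl : ∀ {M : Obj} (A : Set (U M)), A ⊆ cl A
  cl_mono : ∀ {M : Obj} {A B : Set (U M)}, A ⊆ B → cl A ⊆ cl B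
  cl_cl : ∀ {M : Obj} (A : Set (U M)), cl (cl A) = cl A
  cl_fin : ∀ {M : Obj} {A : Set (U M)} {x : U M}, x ∈ cl A →
    ∃ t : Finset (U M), (t : Set (U M)) ⊆ A ∧ x ∈ cl (t : Set (U M))
  cl_card : ∀ {M : Obj} (A : Set (U M)), #(cl A) ≤ #A + κ
  pi_fun : ∀ {M N : Obj} {Γ : SetRel (U M) (U N)}, PI Γ →
    ∀ {x : U M} {y y' : U N}, (x, y) ∈ Γ → (x, y') ∈ Γ → y = y'
  pi_dom : ∀ {M N : Obj} {Γ : SetRel (U M) (U N)}, PI Γ → cl Γ.dom = Γ.dom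
  pi_inv : ∀ {M N : Obj} {Γ : SetRel (U M) (U N)}, PI Γ → PI Γ.inv
  pi_id : ∀ {M : Obj} {D : Set (U M)}, cl D = D → PI (idOn D)
  pi_comp : ∀ {M N P : Obj} {Γ : SetRel (U M) (U N)} {Δ : SetRel (U N) (U P)},
    PI Γ → PI Δ → PI (Γ ○ Δ)
  pi_union : ∀ {M N : Obj} (𝒮 : Set (SetRel (U M) (U N))), (∀ Γ ∈ 𝒮, PI Γ) →
    DirectedOn (· ⊆ ·) 𝒮 → PI (⋃₀ 𝒮)
  code : ∀ ι : Type, ∃ (Cd : Type) (cd : ∀ M : Obj, (ι → U M) → Cd), #Cd ≤ 2 ^ (#ι + κ) ∧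
    ∀ (M N : Obj) (e : ι → U M) (e' : ι → U N), cd M e = cd N e' →
      cl (range e) = range e → cl (range e') = range e' → PI (range fun i => (e i, e' i))
  ap : ∀ {M N : Obj} {Γ : SetRel (U M) (U N)}, PI Γ →
    ∃ (P : Obj) (f : U M → U P) (g : U N → U P), PI f.graph ∧ PI g.graph ∧
      ∀ x y, (x, y) ∈ Γ → f x = g y
  sub : ∀ {M : Obj} {D : Set (U M)}, cl D = D → D.Nonempty →
    ∃ (N : Obj) (f : U N → U M), PI f.graph ∧ range f = D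
  colim : ∀ (ι : Type) [Preorder ι] [IsDirected ι (· ≤ ·)] [Nonempty ι] (A : ι → Obj)
    (f : ∀ i j, i ≤ j → U (A i) → U (A j)), (∀ i j h, PI (f i j h).graph) →
    (∀ i x, f i i le_rfl x = x) →
    (∀ i j k (hij : i ≤ j) (hjk : j ≤ k) x, f j k hjk (f i j hij x) = f i k (hij.trans hjk) x) →
    ∃ (P : Obj) (g : ∀ i, U (A i) → U P), (∀ i, PI (g i).graph) ∧
      (∀ i j h x, g j (f i j h x) = g i x) ∧ ∀ y, ∃ i x, g i x = y
  cat_ex : ∃ M : Obj, #(U M) = lam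
  cat : ∀ M N : Obj, #(U M) = lam → #(U N) = lam →
    ∃ Γ : SetRel (U M) (U N), PI Γ ∧ Γ.dom = univ ∧ Γ.cod = univ

/-- Ehrenfeucht–Mostowski data: an object `obj I` generated by atoms `atm I i` for every linear
order `I`, and for `u` strictly monotone on `Z` the isomorphism `Tr Z u` from the closure of the
atoms of `Z` onto the closure of the atoms of `u '' Z`. -/
structure EM {κ lam : Cardinal.{0}} (C : Ctx κ lam) where
  obj : ∀ (I : Type) [LinearOrder I], C.Obj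
  atm : ∀ (I : Type) [LinearOrder I], I → C.U (obj I)
  atm_inj : ∀ (I : Type) [LinearOrder I], Function.Injective (atm I)
  gen : ∀ (I : Type) [LinearOrder I], Nonempty I → C.cl (range (atm I)) = univ
  Tr : ∀ {I J : Type} [LinearOrder I] [LinearOrder J], Set I → (I → J) →
    SetRel (C.U (obj I)) (C.U (obj J))
  tr_pi : ∀ {I J : Type} [LinearOrder I] [LinearOrder J] {Z : Set I} {u : I → J},
    StrictMonoOn u Z → C.PI (Tr Z u)
  tr_dom : ∀ {I J : Type} [LinearOrder I] [LinearOrder J] {Z : Set I} {u : I → J},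
    StrictMonoOn u Z → (Tr Z u).dom = C.cl (atm I '' Z)
  tr_atm : ∀ {I J : Type} [LinearOrder I] [LinearOrder J] {Z : Set I} {u : I → J},
    StrictMonoOn u Z → ∀ z ∈ Z, (atm I z, atm J (u z)) ∈ Tr Z u
  tr_mono : ∀ {I J : Type} [LinearOrder I] [LinearOrder J] {Z Z' : Set I} {u : I → J},
    Z ⊆ Z' → Tr Z u ⊆ Tr Z' u
  tr_congr : ∀ {I J : Type} [LinearOrder I] [LinearOrder J] {Z : Set I} {u v : I → J},
    EqOn u v Z → Tr Z u = Tr Z v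
  tr_id : ∀ {I : Type} [LinearOrder I] {Z : Set I} {x y : C.U (obj I)},
    (x, y) ∈ Tr Z (id : I → I) → x = y
  tr_comp : ∀ {I J K : Type} [LinearOrder I] [LinearOrder J] [LinearOrder K] {Z : Set I}
    {Z' : Set J} {u : I → J} {v : J → K}, StrictMonoOn u Z → StrictMonoOn v Z' → MapsTo u Z Z' →
    Tr Z u ○ Tr Z' v ⊆ Tr Z (v ∘ u)

/-- the closure of the atoms of `Z` -/
def EM.sp {κ lam : Cardinal.{0}} {C : Ctx κ lam} (E : EM C) {I : Type} [LinearOrder I]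
    (Z : Set I) : Set (C.U (E.obj I)) := C.cl (E.atm I '' Z)

/-- the lower part of `I ⊕ₗ ℕ` -/
def lo (I : Type) (i : I) : I ⊕ₗ ℕ := toLex (Sum.inl i)

/-- the top part of `I ⊕ₗ ℕ` -/
def hi (I : Type) (n : ℕ) : I ⊕ₗ ℕ := toLex (Sum.inr n)

/-- `u` on the lower part, the identity on the top part -/
def up {I J : Type} (u : I → J) (p : I ⊕ₗ ℕ) : J ⊕ₗ ℕ := toLex (Sum.map u id (ofLex p))

/-- `h` is a strong limit cardinal of cofinality above `χ ≥ ℵ₀`. -/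
def Hanf (h χ : Cardinal.{0}) : Prop :=
  ℵ₀ ≤ χ ∧ χ < h ∧ (∀ θ < h, 2 ^ θ < h) ∧
    ∀ (ι : Type) (f : ι → Cardinal.{0}), #ι ≤ χ → (∀ i, f i < h) → ∃ θ < h, ∀ i, f i ≤ θ

/-- The block order. -/
structure IsBlk (κ μ : Cardinal.{0}) (B : Type) [LinearOrder B] (C : ℕ → Set B) : Prop where
  card : #B ≤ μ
  lower : ∀ k, IsLowerSet (C k)
  mono : Monotone C
  cover : ∀ x, ∃ k, x ∈ C k
  cnt : Countable B
  emb : ∀ k, ∃ φ : B → B, StrictMono φ ∧ (∀ x, φ x ∈ C (k + 1)) ∧ EqOn φ id (C k)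
  sh : ∀ k, ∃ s : B → B, StrictMonoOn s (C k) ∧ ∀ x ∈ C k, s x ∉ C k
  nat : ∃ e : ℕ → B, StrictMono e

/-- admissible maps `S → S'` fixing `s0` -/
structure Mor {I : Type} [LinearOrder I] (s0 S S' : Set I) (u : I → I) : Prop where
  base : s0 ⊆ S
  mono : StrictMonoOn u S
  maps : MapsTo u S S'
  fix : EqOn u id s0

theorem Mor.incl {I : Type} [LinearOrder I] {s0 S S' : Set I} (h0 : s0 ⊆ S) (h : S ⊆ S') :
    Mor s0 S S' id :=
  ⟨h0, strictMono_id.strictMonoOn _, h, fun _ _ => rfl⟩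

theorem Mor.base' {I : Type} [LinearOrder I] {s0 S S' : Set I} {u : I → I} (h : Mor s0 S S' u) :
    s0 ⊆ S' := fun x hx => by
  have := h.maps (h.base hx)
  rwa [h.fix hx] at this

theorem Mor.comp {I : Type} [LinearOrder I] {s0 S S' S'' : Set I} {u v : I → I}
    (h : Mor s0 S S' u) (h' : Mor s0 S' S'' v) : Mor s0 S S'' (v ∘ u) :=
  ⟨h.base, h'.mono.comp h.mono h.maps, h'.maps.comp h.maps, fun x hx => by
    simp only [Function.comp, h.fix hx, id]; exact h'.fix hx⟩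

/-- A presheaf of groups `G` on the subsets of a linear order (with restriction along all
admissible maps) and a presheaf `X` of sets (restriction along inclusions) on which `G` acts
freely and transitively; both satisfy gluing along directed unions. -/
structure Psh (I : Type) [LinearOrder I] (s0 : Set I) (κ : Cardinal.{0}) where
  G : Set I → Type
  grp : ∀ S, Group (G S)
  res : ∀ {S S' : Set I} (u : I → I), Mor s0 S S' u → G S' →* G S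
  res_id : ∀ {S : Set I} (h : Mor s0 S S id) (g : G S), res id h g = g
  res_comp : ∀ {S S' S'' : Set I} {u v : I → I} (h : Mor s0 S S' u) (h' : Mor s0 S' S'' v)
    (g : G S''), res u h (res v h' g) = res (v ∘ u) (h.comp h') g
  res_congr : ∀ {S S' : Set I} {u v : I → I} (h : Mor s0 S S' u) (h' : Mor s0 S S' v),
    EqOn u v S → ∀ g : G S', res u h g = res v h' g
  glue : ∀ (J : Type) [Preorder J] [IsDirected J (· ≤ ·)] [Nonempty J] (S : J → Set I)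
    (T : Set I), Monotone S → (∀ j, s0 ⊆ S j) → T = ⋃ j, S j → ∀ g : ∀ j, G (S j),
    (∀ j k, j ≤ k → ∀ h : Mor s0 (S j) (S k) id, res id h (g k) = g j) →
    ∃ g' : G T, ∀ j (h : Mor s0 (S j) T id), res id h g' = g j
  sep : ∀ (J : Type) [Preorder J] [IsDirected J (· ≤ ·)] [Nonempty J] (S : J → Set I)
    (T : Set I), Monotone S → (∀ j, s0 ⊆ S j) → T = ⋃ j, S j → ∀ g g' : G T,
    (∀ j (h : Mor s0 (S j) T id), res id h g = res id h g') → g = g'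
  card : ∀ S : Set I, #(G S) ≤ 2 ^ (#S + κ)
  X : Set I → Type
  act : ∀ {S : Set I}, G S → X S → X S
  act_tr : ∀ {S : Set I} (x y : X S), ∃ g : G S, act g x = y
  act_free : ∀ {S : Set I} (g g' : G S) (x : X S), act g x = act g' x → g = g'
  rx : ∀ {S S' : Set I}, S ⊆ S' → X S' → X S
  rx_comp : ∀ {S S' S'' : Set I} (h : S ⊆ S') (h' : S' ⊆ S'') (x : X S''),
    rx h (rx h' x) = rx (h.trans h') x
  rx_id : ∀ {S : Set I} (x : X S), rx Subset.rfl x = x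
  rx_act : ∀ {S S' : Set I} (h : Mor s0 S S' id) (g : G S') (x : X S'),
    rx h.maps (act g x) = act (res id h g) (rx h.maps x)
  glueX : ∀ (J : Type) [Preorder J] [IsDirected J (· ≤ ·)] [Nonempty J] (S : J → Set I)
    (T : Set I), Monotone S → T = ⋃ j, S j → ∀ x : ∀ j, X (S j),
    (∀ j k, j ≤ k → ∀ h : S j ⊆ S k, rx h (x k) = x j) → Nonempty (X T)

attribute [instance] Psh.grp

/-- `g` and `g'` have the same restriction to `T` -/
def Psh.Agree {I : Type} [LinearOrder I] {s0 : Set I} {κ : Cardinal.{0}} (P : Psh I s0 κ)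
    {S S' : Set I} (g : P.G S) (g' : P.G S') (T : Set I) : Prop :=
  ∀ (h : Mor s0 T S id) (h' : Mor s0 T S' id), P.res id h g = P.res id h' g'

/-- `g` has trivial restriction to `T` -/
def Psh.Triv {I : Type} [LinearOrder I] {s0 : Set I} {κ : Cardinal.{0}} (P : Psh I s0 κ)
    {S : Set I} (g : P.G S) (T : Set I) : Prop :=
  ∀ h : Mor s0 T S id, P.res id h g = 1

/-- `V × T` inside the lexicographic product -/
def box {Λ B : Type} (V : Set Λ) (T : Set B) : Set (Λ ×ₗ B) :=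
  {p | (ofLex p).1 ∈ V ∧ (ofLex p).2 ∈ T}

/-- ambient objects: an object with an injection of its underlying set into `Ω` -/
structure Amb {κ lam : Cardinal.{0}} (C : Ctx κ lam) (Ω : Type) where
  M : C.Obj
  j : C.U M → Ω
  inj : Function.Injective j

/-- the order on ambient objects -/
def Amb.le {κ lam : Cardinal.{0}} {C : Ctx κ lam} {Ω : Type} (a b : Amb C Ω) : Prop :=
  C.PI {p : C.U a.M × C.U b.M | a.j p.1 = b.j p.2} ∧ range a.j ⊆ range b.j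

/-! ## Statements of the packages -/

def S_HanfSpec : Prop := ∀ ν : Cardinal.{0}, ℵ₀ ≤ ν → Hanf (hanf ν) (2 ^ ν)

/-- end-homogeneous sequences -/
def S_EndHom : Prop :=
  ∀ (θ : Cardinal.{0}) (X Γ : Type), ℵ₀ ≤ θ → #Γ ≤ θ → 2 ^ θ < #X → ∀ [DecidableEq X]
    (c : Finset X → Γ), ∃ (T : Type) (_ : LinearOrder T) (y : T → X) (x : X), #T = θ ∧
      Function.Injective y ∧ (∀ i, y i ≠ x) ∧ ∀ (i : T) (s : Finset T), (∀ k ∈ s, k < i) →
        c (insert (y i) (s.image y)) = c (insert x (s.image y))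

/-- Morley's method -/
def S_Morley : Prop :=
  ∀ (h χ : Cardinal.{0}), Hanf h χ → ∀ (X Γ : Type), h ≤ #X → #Γ ≤ χ → ∀ c : Finset X → Γ,
    ∃ γ : ℕ → Γ, ∀ n, ∃ t : Finset X, t.card = n ∧ ∀ s ⊆ t, c s = γ s.card

/-- a smaller well-order embeds -/
def S_WO : Prop :=
  ∀ (S Y : Type) [LinearOrder S] [WellFoundedLT S] [LinearOrder Y] [WellFoundedLT Y],
    #S < #Y → ∃ e : S → Y, StrictMono e

def S_Blk : Prop :=
  ∀ κ : Cardinal.{0}, ℵ₀ ≤ κ → ∃ (B : Type) (_ : LinearOrder B) (C : ℕ → Set B), IsBlk κ κ B C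

/-- a linear order of size `> μ` with a dense subset of size `≤ μ` -/
def S_Ded : Prop :=
  ∀ μ : Cardinal.{0}, ℵ₀ ≤ μ → ∃ (Y : Type) (_ : LinearOrder Y) (Y0 : Set Y), #Y0 ≤ μ ∧ μ < #Y ∧
    ∀ f f' : Y, f < f' → ∃ η ∈ Y0, f < η ∧ η ≤ f'

def S_EM : Prop :=
  ∀ (κ lam : Cardinal.{0}) (C : Ctx κ lam) (h : Cardinal.{0}), Hanf h (2 ^ κ) →
    (∃ M : C.Obj, h ≤ #(C.U M)) → Nonempty (EM C)

/-- there is an order of size `lam` such that every subset of `I` of size `≤ θ` embeds in one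
member of any chain covering it -/
def Part (I : Type) [LinearOrder I] (θ lam : Cardinal.{0}) : Prop :=
  ∃ (Λ : Type) (_ : LinearOrder Λ), #Λ = lam ∧ ∀ S : Set I, #S ≤ θ →
    ∀ (J : Type) [LinearOrder J] (Y : J → Set Λ), Monotone Y → (∀ y, ∃ i, y ∈ Y i) →
      ∃ (i : J) (e : S → Λ), StrictMono e ∧ ∀ s, e s ∈ Y i

def S_Part : Prop :=
  ∀ θ lam : Cardinal.{0}, ℵ₀ ≤ θ → θ < lam → ∀ (Λ B : Type) [LinearOrder Λ] [WellFoundedLT Λ]
    [LinearOrder B], Countable B → Part (Λ ×ₗ B) θ lam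

/-- stabilisation of the images of the face-trivial elements -/
def S_Stab : Prop :=
  ∀ (κ μ : Cardinal.{0}), ℵ₀ ≤ κ → ∀ (Λ B : Type) [LinearOrder Λ] [LinearOrder B]
    (C : ℕ → Set B), IsBlk κ μ B C → ∀ (s0 : Set (Λ ×ₗ B)) (P : Psh (Λ ×ₗ B) s0 κ) (V : Set Λ),
    V.Finite → ∀ k : ℕ, s0 ⊆ box V (C k) → ∀ g : P.G (box V (C (k + 1))),
    ∃ g' : P.G (box V univ), P.Agree g g' (box V (C k)) ∧
      ∀ W ⊆ V, s0 ⊆ box W (C k) → P.Triv g (box W (C (k + 1))) → P.Triv g' (box W univ)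

/-- extension to one new block -/
def S_Fill1 : Prop :=
  ∀ (κ μ : Cardinal.{0}), ℵ₀ ≤ κ → ∀ (Λ B : Type) [LinearOrder Λ] [LinearOrder B]
    (C : ℕ → Set B), IsBlk κ μ B C → ∀ (s0 : Set (Λ ×ₗ B)), s0.Finite →
    ∀ (P : Psh (Λ ×ₗ B) s0 κ) (V : Set Λ), V.Finite → s0 ⊆ box V univ →
    ∀ d β : Λ, d ∉ V → β ∈ V → β < d → (∀ v ∈ V, v < d → v ≤ β) → ∀ g : P.G (box V univ),
    ∃ g' : P.G (box (insert d V) univ), P.Agree g' g (box V univ) ∧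
      ∀ W ⊆ V, β ∈ W → s0 ⊆ box W univ → P.Triv g (box W univ) →
        P.Triv g' (box (insert d W) univ)

/-- filling of cubes -/
def S_Fill : Prop :=
  ∀ (κ μ : Cardinal.{0}), ℵ₀ ≤ κ → ∀ (Λ B : Type) [LinearOrder Λ] [OrderBot Λ] [LinearOrder B]
    (C : ℕ → Set B), IsBlk κ μ B C → ∀ (s0 : Set (Λ ×ₗ B)), s0.Finite →
    ∀ (P : Psh (Λ ×ₗ B) s0 κ) (V0 V : Set Λ), V.Finite → V0 ⊆ V → ⊥ ∈ V0 → s0 ⊆ box V0 univ →
    ∀ g : ∀ W : Set Λ, P.G (box W univ),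
    (∀ W W', V0 ⊆ W → W ⊆ W' → W' ⊂ V → P.Agree (g W') (g W) (box W univ)) →
    ∃ g' : P.G (box V univ), ∀ W, V0 ⊆ W → W ⊂ V → P.Agree g' (g W) (box W univ)

/-- locally trivial torsors are trivial -/
def S_Tors : Prop :=
  ∀ (κ μ : Cardinal.{0}), ℵ₀ ≤ κ → ∀ (Λ B : Type) [LinearOrder Λ] [OrderBot Λ] [LinearOrder B]
    (C : ℕ → Set B), IsBlk κ μ B C → ∀ (s0 : Set (Λ ×ₗ B)), s0.Finite →
    ∀ (P : Psh (Λ ×ₗ B) s0 κ), (∀ V : Set Λ, V.Finite → Nonempty (P.X (box V univ))) →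
    Nonempty (P.X univ)

/-- stability below `lam` -/
def S_Stb : Prop :=
  ∀ (κ lam : Cardinal.{0}) (C : Ctx κ lam) (_ : EM C) (θ : Cardinal.{0}), κ ≤ θ → θ < lam →
    ∀ (M : C.Obj) (A : Set (C.U M)), #A ≤ θ → ∀ (W : Type) (a : W → C.U M), θ < #W →
    ∃ w w' : W, w ≠ w' ∧ ∃ Δ : SetRel (C.U M) (C.U M), C.PI Δ ∧ (∀ x ∈ A, (x, x) ∈ Δ) ∧
      (a w, a w') ∈ Δ

/-- two atoms outside a small set have the same type over it -/
def S_Swap : Prop :=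
  ∀ (κ lam : Cardinal.{0}) (C : Ctx κ lam) (E : EM C) (θ : Cardinal.{0}), κ ≤ θ → θ < lam →
    ∀ (I : Type) [LinearOrder I] (Z : Set I), #Z ≤ θ → ∀ p q : I, p ∉ Z → q ∉ Z →
    ∃ Δ : SetRel (C.U (E.obj I)) (C.U (E.obj I)), C.PI Δ ∧ (∀ x ∈ E.sp Z, (x, x) ∈ Δ) ∧
      (E.atm I p, E.atm I q) ∈ Δ

/-- every element has the type over a small set of an element supported on the set and the top -/
def S_Top : Prop :=
  ∀ (κ lam : Cardinal.{0}) (C : Ctx κ lam) (E : EM C) (θ : Cardinal.{0}), κ ≤ θ → θ < lam →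
    ∀ (I : Type) [LinearOrder I] (Z : Set I), #Z ≤ θ →
    ∀ x ∈ E.sp (range (lo I)),
    ∃ y ∈ E.sp (lo I '' Z ∪ range (hi I)),
      ∃ Δ : SetRel (C.U (E.obj (I ⊕ₗ ℕ))) (C.U (E.obj (I ⊕ₗ ℕ))), C.PI Δ ∧
        (∀ z ∈ E.sp (lo I '' Z), (z, z) ∈ Δ) ∧ (x, y) ∈ Δ

/-- upper bounds and extensions of ambient objects -/
def S_Amb : Prop :=
  ∀ (κ lam : Cardinal.{0}) (C : Ctx κ lam) (Ω : Type),
    (∀ c : Set (Amb C Ω), c.Nonempty → DirectedOn Amb.le c →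
      ∃ b : Amb C Ω, (∀ a ∈ c, a.le b) ∧ range b.j = ⋃ a ∈ c, range a.j) ∧
    (∀ (a : Amb C Ω) (N : C.Obj) (f : C.U a.M → C.U N), C.PI f.graph → ℵ₀ ≤ #Ω →
      #(C.U N) < #Ω → ∃ (j : C.U N → Ω) (hj : Function.Injective j),
        (∀ x, j (f x) = a.j x) ∧ a.le ⟨N, j, hj⟩)

/-- an extension of the same size realising all types -/
def S_Ext : Prop :=
  ∀ (κ lam : Cardinal.{0}) (C : Ctx κ lam) (_ : EM C) (θ : Cardinal.{0}), κ ≤ θ → θ < lam →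
    ∀ M : C.Obj, #(C.U M) ≤ θ → ∃ (N : C.Obj) (f : C.U M → C.U N), C.PI f.graph ∧
      #(C.U N) ≤ θ ∧ ∀ (Q : C.Obj) (Γ : SetRel (C.U M) (C.U Q)), C.PI Γ → ∀ a : C.U Q,
        ∃ (b : C.U N) (Γ' : SetRel (C.U N) (C.U Q)), C.PI Γ' ∧ (b, a) ∈ Γ' ∧
          ∀ x y, (x, y) ∈ Γ → (f x, y) ∈ Γ'

/-- the object of size `lam` is the union of a chain of sets over which it realises all types -/
def S_Sat : Prop :=
  ∀ (κ lam : Cardinal.{0}) (C : Ctx κ lam) (_ : EM C), κ < lam → ∀ N : C.Obj, #(C.U N) = lam →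
    ∃ (J : Type) (_ : LinearOrder J) (D : J → Set (C.U N)), Monotone D ∧
      (∀ i, C.cl (D i) = D i) ∧ (∀ x, ∃ i, x ∈ D i) ∧
      ∀ (i : J) (Q : C.Obj) (Γ : SetRel (C.U N) (C.U Q)), C.PI Γ → Γ.dom ⊆ D i → ∀ a : C.U Q,
        ∃ (b : C.U N) (Γ' : SetRel (C.U N) (C.U Q)), C.PI Γ' ∧ Γ ⊆ Γ' ∧ (b, a) ∈ Γ'

/-- types over small sets of atoms are realised over the set and the top -/
def S_TopAbs : Prop :=
  ∀ (κ lam : Cardinal.{0}) (C : Ctx κ lam) (E : EM C) (θ : Cardinal.{0}), κ ≤ θ → θ < lam →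
    ∀ (I : Type) [LinearOrder I], Part I θ lam → ∀ S : Set I, #S ≤ θ →
    ∀ (N : C.Obj) (F : C.U (E.obj (I ⊕ₗ ℕ)) → C.U N), C.PI F.graph → ∀ a : C.U N,
    ∃ b ∈ E.sp (lo I '' S ∪ range (hi I)),
      ∃ Γ : SetRel (C.U (E.obj (I ⊕ₗ ℕ))) (C.U N), C.PI Γ ∧ (b, a) ∈ Γ ∧
        ∀ x ∈ E.sp (lo I '' S), (x, F x) ∈ Γ

/-- one element works for all small sets -/
def S_OneB : Prop :=
  ∀ (κ lam : Cardinal.{0}) (C : Ctx κ lam) (E : EM C) (θ : Cardinal.{0}), κ ≤ θ → θ < lam →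
    ∀ (I : Type) [LinearOrder I], Part I θ lam →
    ∀ (N : C.Obj) (F : C.U (E.obj (I ⊕ₗ ℕ)) → C.U N), C.PI F.graph → ∀ a : C.U N,
    ∃ s0 : Set I, s0.Finite ∧
    ∃ b ∈ E.sp (lo I '' s0 ∪ range (hi I)), ∀ S : Set I, #S ≤ θ →
      ∃ Γ : SetRel (C.U (E.obj (I ⊕ₗ ℕ))) (C.U N), C.PI Γ ∧ (b, a) ∈ Γ ∧
        ∀ x ∈ E.sp (lo I '' S), (x, F x) ∈ Γ

/-- the presheaf of automorphism groups and the torsor of isomorphisms -/
def S_Psh : Prop :=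
  ∀ (κ lam : Cardinal.{0}) (C : Ctx κ lam) (E : EM C) (I : Type) [LinearOrder I]
    (N : C.Obj) (F : C.U (E.obj (I ⊕ₗ ℕ)) → C.U N), C.PI F.graph → ∀ (a : C.U N) (s0 : Set I),
    ∀ b ∈ E.sp (lo I '' s0 ∪ range (hi I)),
    ∃ P : Psh I s0 κ, ∀ S : Set I, Nonempty (P.X S) ↔
      ∃ Γ : SetRel (C.U (E.obj (I ⊕ₗ ℕ))) (C.U N), C.PI Γ ∧ (b, a) ∈ Γ ∧
        ∀ x ∈ E.sp (lo I '' S), (x, F x) ∈ Γ

/-- all types over `obj (Λ ×ₗ B)` are realised in `obj ((Λ ×ₗ B) ⊕ₗ ℕ)` -/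
def S_Real : Prop :=
  ∀ (κ lam : Cardinal.{0}) (C : Ctx κ lam) (E : EM C) (μ : Cardinal.{0}), κ ≤ μ → μ < lam →
    ∀ (Λ B : Type) [LinearOrder Λ] [WellFoundedLT Λ] [Nonempty Λ] [LinearOrder B]
    (Cc : ℕ → Set B), IsBlk κ μ B Cc →
    ∀ (N : C.Obj) (Γ : SetRel (C.U (E.obj (Λ ×ₗ B))) (C.U N)), C.PI Γ → ∀ a : C.U N,
    ∃ (b : C.U (E.obj ((Λ ×ₗ B) ⊕ₗ ℕ))) (Γ' : SetRel (C.U (E.obj ((Λ ×ₗ B) ⊕ₗ ℕ))) (C.U N)),
      C.PI Γ' ∧ (b, a) ∈ Γ' ∧ ∀ x y z, (x, y) ∈ Γ →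
        (x, z) ∈ E.Tr univ (lo (Λ ×ₗ B)) → (z, y) ∈ Γ'

/-- every object embeds in a standard object -/
def S_Emb : Prop :=
  ∀ (κ lam : Cardinal.{0}) (C : Ctx κ lam) (E : EM C) (μ : Cardinal.{0}), κ ≤ μ → μ < lam →
    ∀ (B : Type) [LinearOrder B] (Cc : ℕ → Set B), IsBlk κ μ B Cc →
    ∀ M : C.Obj, ∃ (Λ : Type) (_ : LinearOrder Λ) (_ : WellFoundedLT Λ) (_ : Nonempty Λ),
      #Λ ≤ #(C.U M) + 1 ∧ ∃ g : C.U M → C.U (E.obj (Λ ×ₗ B)), C.PI g.graph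

/-- stability from `lam` on, in the abstract setting -/
def S_Main : Prop :=
  ∀ (κ lam : Cardinal.{0}) (C : Ctx κ lam), κ < lam → (∃ M : C.Obj, hanf κ ≤ #(C.U M)) →
    ∀ M : C.Obj, lam ≤ #(C.U M) →
    ∃ (P : C.Obj) (g : C.U M → C.U P), C.PI g.graph ∧ #(C.U P) ≤ #(C.U M) ∧
      ∀ (N : C.Obj) (f : C.U M → C.U N), C.PI f.graph → ∀ a : C.U N,
        ∃ (b : C.U P) (Γ : SetRel (C.U P) (C.U N)), C.PI Γ ∧ (b, a) ∈ Γ ∧ ∀ x, (g x, f x) ∈ Γ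

end Pool.Agent.P.MP_860a31_lc
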