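import Pool.Agent.P.MP_860a31_lc.Basic

/-! A linear order of size above `μ` with a dense subset of size at most `μ`. -/

open Cardinal hiding univ
open Set SetRel

namespace Pool.Agent.P.MP_860a31_lc

theorem ded : S_Ded := by
  intro μ hμ
  classical
  obtain ⟨ν, hν, hmin⟩ := (wellFounded_lt (α := Cardinal.{0})).has_min {ν | μ < 2 ^ ν}
    ⟨μ, cantor μ⟩
  let T := ν.ord.ToType
  let e : (Σ i : T, (Iio i → Bool)) → Lex (T → Bool) := fun p =>
    toLex fun j => if h : j < p.1 then p.2 ⟨j, h⟩ else decide (j = p.1)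
  refine ⟨Lex (T → Bool), inferInstance, range e, mk_range_le.trans ?_, ?_, ?_⟩
  · rw [mk_sigma]
    refine (sum_le_sum _ (fun _ => μ) fun i => ?_).trans ?_
    · rw [← power_def, mk_bool]
      exact not_lt.1 fun h => hmin _ h (mk_Iio_toType_ord_lt i)
    · rw [sum_const', mk_ord_toType]
      exact (mul_le_mul_left (not_lt.1 (hmin _ (cantor μ))) _).trans (mul_eq_self hμ).le
  · change μ < #(T → Bool)
    rw [← power_def, mk_bool, mk_ord_toType]
    exact hν
  · rintro f f' ⟨i, h1, h2⟩
    have h3 : f' i = true := (Bool.lt_iff.1 h2).2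
    refine ⟨e ⟨i, fun j => f' j⟩, mem_range_self _, ⟨i, fun j hj => ?_, ?_⟩, not_lt.1 ?_⟩
    · refine (h1 j hj).trans ?_
      change _ = dite _ _ _
      rw [dif_pos hj]
    · refine h2.trans_eq (h3.trans ?_)
      change true = dite _ _ _
      simp
    · rintro ⟨k, -, h4⟩
      change f' k < dite _ _ _ at h4
      split_ifs at h4 with h5
      · exact lt_irrefl _ h4
      · by_cases h6 : k = i
        · rw [h6, h3] at h4
          exact absurd h4 (by simp)
        · exact absurd h4 (by simp [h6])

end Pool.Agent.P.MP_860a31_lc
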