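import Mathlib

/-!
Abstract elementary classes, Galois types, stability, intersections.
-/

open FirstOrder Cardinal

namespace Pool.Agent.P.MP_860a31_lc

/-- An abstract elementary class in the vocabulary `L`.  `Mem M` says that the `L`-structure `M`
is in the class; for a substructure `S` of `M`, `Strong S` says `S ≤_K M`. -/
structure AEC (L : FirstOrder.Language.{0, 0}) where
  Mem : ∀ (M : Type) [L.Structure M], Prop
  Strong : ∀ {M : Type} [L.Structure M], L.Substructure M → Prop
  strong_mem : ∀ {M : Type} [L.Structure M] (S : L.Substructure M), Strong S → Mem M ∧ Mem S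
  refl : ∀ (M : Type) [L.Structure M], Mem M → Strong (⊤ : L.Substructure M)
  mem_iso : ∀ {M N : Type} [L.Structure M] [L.Structure N] (_ : M ≃[L] N), Mem M → Mem N
  strong_iso : ∀ {M N : Type} [L.Structure M] [L.Structure N] (e : M ≃[L] N)
    (S : L.Substructure M), Strong S → Strong (S.map e.toHom)
  trans : ∀ {M : Type} [L.Structure M] (S : L.Substructure M) (T : L.Substructure S),
    Strong S → Strong T → Strong (T.map S.subtype.toHom)
  coherence : ∀ {M : Type} [L.Structure M] (S T : L.Substructure M),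
    Strong S → Strong T → T ≤ S → Strong (T.comap S.subtype.toHom)
  union : ∀ {M : Type} [L.Structure M] (ι : Type) [LinearOrder ι] [WellFoundedLT ι] [Nonempty ι]
    (S : ι → L.Substructure M), Monotone S →
    (∀ i j, i ≤ j → Strong ((S i).comap (S j).subtype.toHom)) → ⨆ i, S i = ⊤ →
    Mem M ∧ ∀ i, Strong (S i)
  smooth : ∀ {M : Type} [L.Structure M] (ι : Type) [LinearOrder ι] [WellFoundedLT ι] [Nonempty ι]
    (S : ι → L.Substructure M), Monotone S → (∀ i, Strong (S i)) → Strong (⨆ i, S i)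
  exists_LS : ∃ κ : Cardinal.{0}, ℵ₀ ≤ κ ∧ L.card ≤ κ ∧
    ∀ (M : Type) [L.Structure M], Mem M → ∀ A : Set M,
      ∃ S : L.Substructure M, Strong S ∧ A ⊆ S ∧ #S ≤ #A + κ

namespace AEC

variable {L : FirstOrder.Language.{0, 0}} (K : AEC L)

/-- The Löwenheim–Skolem number: the least `κ ≥ ℵ₀ + |L|` such that every `A ⊆ M ∈ K` lies in
some `S ≤_K M` with `|S| ≤ |A| + κ`. -/
noncomputable def LS : Cardinal.{0} :=
  sInf {κ | ℵ₀ ≤ κ ∧ L.card ≤ κ ∧ ∀ (M : Type) [L.Structure M], K.Mem M → ∀ A : Set M,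
    ∃ S : L.Substructure M, K.Strong S ∧ A ⊆ S ∧ #S ≤ #A + κ}

/-- A `K`-embedding: an embedding whose range is a strong substructure. -/
def IsEmb {M N : Type} [L.Structure M] [L.Structure N] (f : M ↪[L] N) : Prop :=
  K.Strong f.toHom.range

/-- The amalgamation property. -/
def AP : Prop :=
  ∀ (M₀ M₁ M₂ : Type) [L.Structure M₀] [L.Structure M₁] [L.Structure M₂]
    (f₁ : M₀ ↪[L] M₁) (f₂ : M₀ ↪[L] M₂), K.IsEmb f₁ → K.IsEmb f₂ →
    ∃ (N : Type) (_ : L.Structure N) (g₁ : M₁ ↪[L] N) (g₂ : M₂ ↪[L] N),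
      K.IsEmb g₁ ∧ K.IsEmb g₂ ∧ ∀ x, g₁ (f₁ x) = g₂ (f₂ x)

/-- `K` admits intersections: for `M ∈ K` and nonempty `A ⊆ M`, the intersection of all
`S ≤_K M` containing `A` is a strong substructure of `M`. -/
def Intersections : Prop :=
  ∀ (M : Type) [L.Structure M], K.Mem M → ∀ A : Set M, A.Nonempty →
    K.Strong (sInf {S : L.Substructure M | K.Strong S ∧ A ⊆ S})

/-- Categoricity in `lam`. -/
def Categorical (lam : Cardinal.{0}) : Prop :=
  (∃ (M : Type) (_ : L.Structure M), K.Mem M ∧ #M = lam) ∧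
    ∀ (M N : Type) [L.Structure M] [L.Structure N], K.Mem M → K.Mem N → #M = lam → #N = lam →
      Nonempty (M ≃[L] N)

/-- A `K`-extension `emb : M → N` of `M` with a point `pt` of `N`. -/
structure Pointed (M : Type) [L.Structure M] where
  N : Type
  [str : L.Structure N]
  emb : M ↪[L] N
  isEmb : K.IsEmb emb
  pt : N

attribute [instance] Pointed.str

/-- Atomic equivalence of pointed extensions: they can be amalgamated over `M` identifying the
points. -/
def Eat {M : Type} [L.Structure M] (p q : K.Pointed M) : Prop :=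
  ∃ (N : Type) (_ : L.Structure N) (g₁ : p.N ↪[L] N) (g₂ : q.N ↪[L] N),
    K.IsEmb g₁ ∧ K.IsEmb g₂ ∧ (∀ x, g₁ (p.emb x) = g₂ (q.emb x)) ∧ g₁ p.pt = g₂ q.pt

/-- Galois types over `M`: pointed extensions modulo the equivalence relation generated by
`Eat`. -/
def GType (M : Type) [L.Structure M] : Type 1 := Quot (K.Eat (M := M))

/-- Galois stability in `θ`. -/
def Stable (θ : Cardinal.{0}) : Prop :=
  ∀ (M : Type) [L.Structure M], K.Mem M → #M = θ → #(K.GType M) ≤ lift.{1} θ

end AEC

/-- `hanf ν = ℶ_{(2^ν)^+}`. -/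
noncomputable def hanf (ν : Cardinal.{0}) : Cardinal.{0} := beth (Order.succ ((2 : Cardinal.{0}) ^ ν)).ord

/-- The target statement. -/
def Goal : Prop :=
  ∀ (L : FirstOrder.Language.{0, 0}) (K : AEC L), K.AP → K.Intersections →
    (∃ (M : Type) (_ : L.Structure M), K.Mem M ∧ hanf K.LS ≤ #M) →
    ∀ lam : Cardinal.{0}, K.LS < lam → K.Categorical lam →
      ∀ θ : Cardinal.{0}, lam ≤ θ → K.Stable θ

end Pool.Agent.P.MP_860a31_lc
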