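import Pool.Agent.P.MP_860a31_lc.InstDefs

/-!
Directed unions and directed smoothness in an abstract elementary class.
-/

open FirstOrder FirstOrder.Language
open Cardinal hiding univ
open Set SetRel

namespace Pool.Agent.P.MP_860a31_lc

namespace DirP

/-- induction on the size of a directed order -/
theorem ind (h : S_Iwa)
    (P : ∀ (ι : Type) [Preorder ι] [IsDirected ι (· ≤ ·)] [Nonempty ι], Prop)
    (h1 : ∀ (ι : Type) [Preorder ι] [IsDirected ι (· ≤ ·)] [Nonempty ι] (m : ι),
      (∀ i, i ≤ m) → P ι)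
    (h2 : ∀ (ι : Type) [Preorder ι] [IsDirected ι (· ≤ ·)] [Nonempty ι] (T : Type) [LinearOrder T]
      [WellFoundedLT T] [Nonempty T] (D : T → Set ι) [∀ t, IsDirected (D t) (· ≤ ·)]
      [∀ t, Nonempty (D t)], Monotone D → (∀ i, ∃ t, i ∈ D t) → (∀ t, P (D t)) → P ι)
    (ι : Type) [Preorder ι] [IsDirected ι (· ≤ ·)] [Nonempty ι] : P ι := by
  induction hc : #ι using WellFoundedLT.induction generalizing ι with
  | ind c ih =>
    subst hc
    rcases finite_or_infinite ι with hf | hf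
    · obtain ⟨m, hm⟩ := Finite.exists_le (id : ι → ι)
      exact h1 ι m hm
    · obtain ⟨T, _, _, _, D, hD, hP, hc⟩ := h ι
      have i1 : ∀ t, IsDirected (D t) (· ≤ ·) := fun t => ⟨fun a b => by
        obtain ⟨c, h0, h1, h2⟩ := (hP t).2.1 a a.2 b b.2
        exact ⟨⟨c, h0⟩, h1, h2⟩⟩
      have i2 : ∀ t, Nonempty (D t) := fun t => (hP t).1.to_subtype
      exact h2 ι T D hD hc fun t => ih _ (hP t).2.2 (D t) rfl

variable {L : FirstOrder.Language.{0, 0}} (K : AEC L) {M N : Type} [L.Structure M] [L.Structure N]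

/-- `S` is strong in `T` -/
def Le (S T : L.Substructure M) : Prop := K.Strong (S.comap T.subtype.toHom)

variable {K}

theorem Le.of_map (f : N ↪[L] M) {S T : L.Substructure N}
    (h : Le K (S.map f.toHom) (T.map f.toHom)) : Le K S T := by
  have h1 := K.strong_iso (f.substructureEquivMap T).symm _ h
  refine (congrArg K.Strong (Substructure.ext fun x => ⟨?_, fun hx => ?_⟩)).mp h1
  · rintro ⟨y, ⟨z, hz, e⟩, rfl⟩
    obtain ⟨y, rfl⟩ := (f.substructureEquivMap T).surjective y
    have e2 : z = y := f.injective e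
    have e3 : (f.substructureEquivMap T).symm.toHom (f.substructureEquivMap T y) = y :=
      (f.substructureEquivMap T).symm_apply_apply y
    rw [e3]
    exact (e2 ▸ hz : (y : N) ∈ S)
  · exact ⟨f.substructureEquivMap T x, ⟨x, hx, rfl⟩,
      (f.substructureEquivMap T).symm_apply_apply x⟩

theorem map_comap {S U : L.Substructure M} (h : S ≤ U) :
    (S.comap U.subtype.toHom).map U.subtype.toHom = S :=
  Substructure.ext fun x => ⟨by rintro ⟨y, hy, rfl⟩; exact hy, fun hx => ⟨⟨x, h hx⟩, hx, rfl⟩⟩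

theorem Le.comap {S T U : L.Substructure M} (h : Le K S T) (h1 : S ≤ U) (h2 : T ≤ U) :
    Le K (S.comap U.subtype.toHom) (T.comap U.subtype.toHom) :=
  .of_map U.subtype (by rwa [map_comap h1, map_comap h2])

theorem Le.strong {S T : L.Substructure M} (h : Le K S T) (h1 : S ≤ T) (hT : K.Strong T) :
    K.Strong S := map_comap h1 ▸ K.trans T _ hT h

theorem Le.top {S : L.Substructure M} (h : Le K S ⊤) : K.Strong S :=
  h.strong le_top (K.refl M (K.mem_iso Substructure.topEquiv (K.strong_mem _ h).1))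

theorem comap_iSup {ι : Type} {S : ι → L.Substructure M} {U : L.Substructure M}
    (h : ∀ i, S i ≤ U) :
    ⨆ i, (S i).comap U.subtype.toHom = (⨆ i, S i).comap U.subtype.toHom :=
  Substructure.map_injective_of_injective (f := U.subtype.toHom) U.subtype.injective (by
    simp only [Substructure.map_iSup, map_comap (h _), map_comap (iSup_le h)])

theorem iSup_sub {ι T : Type} {D : T → Set ι} (h : ∀ i, ∃ t, i ∈ D t) (S : ι → L.Substructure M) :
    ⨆ t, ⨆ i : D t, S i = ⨆ i, S i :=
  le_antisymm (iSup₂_le fun _ i => le_iSup S i.1) (iSup_le fun i =>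
    let ⟨t, ht⟩ := h i
    le_iSup₂_of_le (f := fun t (i : D t) => S i) t ⟨i, ht⟩ le_rfl)

theorem mono_sub {ι T : Type} [Preorder T] {D : T → Set ι} (h : Monotone D)
    (S : ι → L.Substructure M) : Monotone fun t => ⨆ i : D t, S i := fun _ t' ht =>
  iSup_le fun i => le_iSup_of_le (f := fun i : D t' => S i) ⟨i, h ht i.2⟩ le_rfl

end DirP

open DirP

theorem dirS (h : S_Iwa) : S_DirS := by
  intro L K M _ ι _ _ _
  refine ind h (fun ι _ _ _ => ∀ S : ι → L.Substructure M, Monotone S → (∀ i, K.Strong (S i)) →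
    K.Strong (⨆ i, S i)) (fun ι _ _ _ m hm S hS h1 => ?_)
    (fun ι _ _ _ T _ _ _ D _ _ hD hc ih S hS h1 => ?_) ι
  · rw [le_antisymm (iSup_le fun i => hS (hm i)) (le_iSup S m)]
    exact h1 m
  · rw [← iSup_sub hc]
    exact K.smooth T _ (mono_sub hD S) fun t =>
      ih t (fun i => S i) (fun _ _ e => hS e) fun i => h1 i

theorem dirU (h : S_Iwa) : S_DirU := by
  intro L K M _ ι _ _ _
  revert M
  refine ind h (fun ι _ _ _ => ∀ (M : Type) [L.Structure M] (S : ι → L.Substructure M),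
    Monotone S → (∀ i j, i ≤ j → Le K (S i) (S j)) → ⨆ i, S i = ⊤ → ∀ i, K.Strong (S i))
    (fun ι _ _ _ m hm M _ S hS h1 h2 i => ?_)
    (fun ι _ _ _ T _ _ _ D _ _ hD hc ih M _ S hS h1 h2 i => ?_) ι
  · rw [le_antisymm (iSup_le fun i => hS (hm i)) (le_iSup S m)] at h2
    exact Le.top (h2 ▸ h1 i m (hm i))
  · have a0 : ∀ t (i : D t), S i ≤ ⨆ i : D t, S i := fun t i =>
      le_iSup (fun i : D t => S i) i
    have a1 : ∀ t (i : D t), Le K (S i) (⨆ i : D t, S i) := fun t =>
      ih t _ (fun i => (S i).comap (⨆ i : D t, S i).subtype.toHom)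
        (fun _ _ e => Substructure.monotone_comap (hS e))
        (fun i j e => (h1 i j e).comap (a0 t i) (a0 t j))
        (by rw [comap_iSup (a0 t)]; exact eq_top_iff.2 fun x _ => x.2)
    have a2 : ∀ t t', t ≤ t' → Le K (⨆ i : D t, S i) (⨆ i : D t', S i) := fun t t' e => by
      rw [Le, ← comap_iSup fun i : D t => a0 t' ⟨i, hD e i.2⟩]
      exact dirS h L K _ (D t) _ (fun _ _ e => Substructure.monotone_comap (hS e))
        fun i => a1 t' ⟨i, hD e i.2⟩
    obtain ⟨t, ht⟩ := hc i
    exact (a1 t ⟨i, ht⟩).strong (a0 t ⟨i, ht⟩)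
      ((K.union T _ (mono_sub hD S) a2 (by rw [iSup_sub hc, h2])).2 t)

end Pool.Agent.P.MP_860a31_lc
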