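import Pool.Agent.P.MP_860a31_lc.Basic

/-!
End-homogeneous sequences.
-/

open Cardinal hiding univ
open Set SetRel

namespace Pool.Agent.P.MP_860a31_lc

namespace EndHomP

variable {T X Γ : Type} [LinearOrder T]

theorem exists_sol [WellFoundedLT T] [Nonempty X] (op : T → (T → X) → X)
    (h : ∀ i y y', (∀ k, k < i → y k = y' k) → op i y = op i y') :
    ∃ y : T → X, ∀ i, y i = op i y := by
  classical
  let F : ∀ i : T, (∀ k : T, k < i → X) → X := fun i a =>
    op i fun k => if hk : k < i then a k hk else Classical.arbitrary X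
  let y : T → X := (wellFounded_lt (α := T)).fix F
  have hy : ∀ i, y i = F i (fun k _ => y k) := fun i => WellFounded.fix_eq _ _ _
  refine ⟨y, fun i => ?_⟩
  rw [hy i]
  exact h i _ _ fun k hk => dif_pos hk

theorem uniq_sol [WellFoundedLT T] (op : T → (T → X) → X)
    (h : ∀ i y y', (∀ k, k < i → y k = y' k) → op i y = op i y') {y y' : T → X}
    (hy : ∀ i, y i = op i y) (hy' : ∀ i, y' i = op i y') (i : T) : y i = y' i := by
  induction i using WellFoundedLT.induction with
  | ind i ih => rw [hy i, hy' i]; exact h i _ _ ih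

variable [DecidableEq X]

/-- the requirement on the next point -/
def Req (c : Finset X → Γ) (i : T) (y : T → X) (φ : Finset T → Γ) (z : X) : Prop :=
  (∀ k, k < i → y k ≠ z) ∧ ∀ s : Finset T, (∀ k ∈ s, k < i) → c (insert z (s.image y)) = φ s

theorem Req_congr (c : Finset X → Γ) (i : T) {y y' : T → X} {φ φ' : Finset T → Γ}
    (hy : ∀ k, k < i → y k = y' k) (hφ : ∀ s : Finset T, (∀ k ∈ s, k < i) → φ s = φ' s) :
    Req c i y φ = Req c i y' φ' := by
  funext z
  have him : ∀ s : Finset T, (∀ k ∈ s, k < i) → s.image y = s.image y' := fun s hs =>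
    Finset.image_congr fun k hk => hy k (hs k hk)
  apply propext
  constructor
  · rintro ⟨h1, h2⟩
    exact ⟨fun k hk => hy k hk ▸ h1 k hk, fun s hs => by rw [← him s hs, ← hφ s hs, h2 s hs]⟩
  · rintro ⟨h1, h2⟩
    exact ⟨fun k hk => (hy k hk).symm ▸ h1 k hk, fun s hs => by rw [him s hs, hφ s hs, h2 s hs]⟩

end EndHomP

open EndHomP in
theorem endHom : S_EndHom := by
  intro θ X Γ hθ hΓ hX _ c
  have hne : Nonempty X := by
    rw [← mk_ne_zero_iff]; exact (zero_le.trans_lt hX).ne'
  let T := θ.ord.ToType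
  have hT : #T = θ := mk_ord_toType θ
  have : Infinite T := by rw [infinite_iff, hT]; exact hθ
  have hc : ∀ (φ : Finset T → Γ) (i : T) (y y' : T → X), (∀ k, k < i → y k = y' k) →
      Classical.epsilon (Req c i y φ) = Classical.epsilon (Req c i y' φ) :=
    fun φ i y y' h => by rw [Req_congr c i h fun _ _ => rfl]
  choose Y hY using fun φ : Finset T → Γ =>
    exists_sol (fun i y => Classical.epsilon (Req c i y φ)) (hc φ)
  have hZ : #(range fun p : (Finset T → Γ) × T => Y p.1 p.2) < #X := by
    refine lt_of_le_of_lt (mk_range_le.trans ?_) hX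
    have h1 : #(Finset T → Γ) ≤ 2 ^ θ := by
      rw [← power_def, mk_finset_of_infinite, hT, ← power_self_eq hθ]
      exact power_le_power_right hΓ
    have h2 : ℵ₀ ≤ 2 ^ θ := hθ.trans (cantor θ).le
    rw [mk_prod, lift_id, lift_id, hT]
    exact mul_le_of_le h2 h1 (cantor θ).le
  obtain ⟨x, hx⟩ : ∃ x, x ∉ range fun p : (Finset T → Γ) × T => Y p.1 p.2 := by
    by_contra hcon
    push Not at hcon
    rw [eq_univ_of_forall hcon, mk_univ] at hZ
    exact lt_irrefl _ hZ
  obtain ⟨y, hy⟩ := exists_sol
    (fun (i : T) (y : T → X) =>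
      Classical.epsilon (Req c i y fun s => c (insert x (s.image y))))
    (fun i y y' h => by
      rw [Req_congr c i h fun s hs => by
        rw [Finset.image_congr (g := y') fun k hk => h k (hs k hk)]])
  have hyY : ∀ i, y i = Y (fun s => c (insert x (s.image y))) i :=
    uniq_sol _ (hc _) hy (hY _)
  have hyx : ∀ i, y i ≠ x := fun i h => hx ⟨(_, i), (hyY i).symm.trans h⟩
  have hreq : ∀ i, Req c i y (fun s => c (insert x (s.image y))) (y i) := fun i => by
    have h := Classical.epsilon_spec
      (p := Req c i y fun s => c (insert x (s.image y))) ⟨x, fun k _ => hyx k, fun _ _ => rfl⟩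
    rwa [← hy i] at h
  refine ⟨T, inferInstance, y, x, hT, fun i j hij => ?_, hyx, fun i s hs => (hreq i).2 s hs⟩
  rcases lt_trichotomy i j with h | h | h
  · exact absurd hij ((hreq j).1 i h)
  · exact h
  · exact absurd hij.symm ((hreq i).1 j h)

end Pool.Agent.P.MP_860a31_lc
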