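import Pool.Agent.P.MP_860a31_lc.Basic

/-!
Morley's method.
-/

open Cardinal hiding univ
open Set SetRel

namespace Pool.Agent.P.MP_860a31_lc

namespace MorleyP

/-- partition relation below `h` for `n`-element sets -/
def Arrow (h : Cardinal.{0}) (Γ : Type) (n : ℕ) : Prop :=
  ∀ θ < h, ∃ θ' < h, ∀ X : Type, θ' ≤ #X → ∀ c : Finset X → Γ,
    ∃ (Y : Set X) (γ : Γ), θ ≤ #Y ∧ ∀ s : Finset X, (s : Set X) ⊆ Y → s.card = n → c s = γ

theorem arrow (hE : S_EndHom) {h χ : Cardinal.{0}} (hh : Hanf h χ) {Γ : Type} (hΓ : #Γ ≤ χ)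
    (n : ℕ) : Arrow h Γ n := by
  classical
  induction n with
  | zero =>
    intro θ hθ
    refine ⟨θ, hθ, fun X hX c => ⟨univ, c ∅, by rwa [mk_univ], fun s _ hs => ?_⟩⟩
    rw [Finset.card_eq_zero.1 hs]
  | succ n ih =>
    intro θ hθ
    obtain ⟨θ', hθ', H⟩ := ih θ hθ
    have h1 : max θ' χ < h := max_lt hθ' hh.2.1
    refine ⟨2 ^ (2 ^ max θ' χ), hh.2.2.1 _ (hh.2.2.1 _ h1), fun X hX c => ?_⟩
    obtain ⟨T, _, y, x, hT, hy, -, hc⟩ := hE (max θ' χ) X Γ (hh.1.trans (le_max_right _ _))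
      (hΓ.trans (le_max_right _ _)) ((cantor _).trans_le hX) c
    obtain ⟨Y, γ, hY, hγ⟩ := H T (hT ▸ le_max_left _ _) (fun s => c (insert x (s.image y)))
    refine ⟨y '' Y, γ, by rwa [mk_image_eq hy], fun s hs hcard => ?_⟩
    obtain ⟨t, ht, rfl⟩ := Finset.subset_set_image_iff.1 hs
    rw [Finset.card_image_of_injective _ hy] at hcard
    have hne : t.Nonempty := Finset.card_pos.1 (by omega)
    have e : t.image y = insert (y (t.max' hne)) ((t.erase (t.max' hne)).image y) := by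
      rw [← Finset.image_insert, Finset.insert_erase (t.max'_mem hne)]
    rw [e, hc _ _ (fun k hk => lt_of_le_of_ne (t.le_max' k (Finset.mem_of_mem_erase hk))
      (Finset.ne_of_mem_erase hk))]
    refine hγ _ (Subset.trans (Finset.coe_subset.2 (Finset.erase_subset _ _)) ht) ?_
    rw [Finset.card_erase_of_mem (t.max'_mem hne), hcard]
    rfl

theorem arrow_set {h : Cardinal.{0}} {Γ : Type} {n : ℕ} (H : Arrow h Γ n) {θ : Cardinal.{0}}
    (hθ : θ < h) : ∃ θ' < h, ∀ (X : Type) (Z : Set X), θ' ≤ #Z → ∀ c : Finset X → Γ,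
      ∃ (Y : Set X) (γ : Γ), Y ⊆ Z ∧ θ ≤ #Y ∧
        ∀ s : Finset X, (s : Set X) ⊆ Y → s.card = n → c s = γ := by
  classical
  obtain ⟨θ', hθ', H⟩ := H θ hθ
  refine ⟨θ', hθ', fun X Z hZ c => ?_⟩
  obtain ⟨Y, γ, hY, hγ⟩ := H Z hZ (fun s => c (s.image Subtype.val))
  refine ⟨Subtype.val '' Y, γ, ?_, by rwa [mk_image_eq Subtype.val_injective], fun s hs hcard => ?_⟩
  · rintro _ ⟨z, -, rfl⟩; exact z.2
  · obtain ⟨t, ht, rfl⟩ := Finset.subset_set_image_iff.1 hs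
    rw [Finset.card_image_of_injective _ Subtype.val_injective] at hcard
    exact hγ t ht hcard

/-- `g` gives the colours of the sets of size below `n` on arbitrarily large subsets -/
def Good (h : Cardinal.{0}) {X Γ : Type} (c : Finset X → Γ) (n : ℕ) (g : ℕ → Γ) : Prop :=
  ∀ θ < h, ∃ Y : Set X, θ ≤ #Y ∧
    ∀ s : Finset X, (s : Set X) ⊆ Y → s.card < n → c s = g s.card

theorem step {h χ : Cardinal.{0}} (hh : Hanf h χ) {X Γ : Type} (hΓ : #Γ ≤ χ) {n : ℕ}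
    (H : Arrow h Γ n) {c : Finset X → Γ} {g : ℕ → Γ} (hg : Good h c n g) :
    ∃ γ, Good h c (n + 1) (Function.update g n γ) := by
  by_contra hc
  simp only [Good, not_exists, not_forall, not_and] at hc
  choose f hf hbad using hc
  obtain ⟨θ, hθ, hb⟩ := hh.2.2.2 Γ f hΓ hf
  obtain ⟨θ', hθ', H'⟩ := arrow_set H hθ
  obtain ⟨Z, hZ, hZg⟩ := hg θ' hθ'
  obtain ⟨Y, γ, hYZ, hY, hγ⟩ := H' X Z hZ c
  obtain ⟨s, hs, hcard, hne⟩ := hbad γ Y ((hb γ).trans hY)
  apply hne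
  rcases Nat.lt_succ_iff_lt_or_eq.1 hcard with h1 | h1
  · rw [Function.update_of_ne h1.ne]; exact hZg s (hs.trans hYZ) h1
  · rw [h1, Function.update_self]; exact hγ s hs h1

end MorleyP

open MorleyP in
theorem morley (h : S_EndHom) : S_Morley := by
  intro k χ hh X Γ hX hΓ c
  have h0 : Good k c 0 (fun _ => c ∅) := fun θ hθ =>
    ⟨univ, by rw [mk_univ]; exact hθ.le.trans hX, fun s _ hs => absurd hs (Nat.not_lt_zero _)⟩
  choose F hF using fun (n : ℕ) (g : ℕ → Γ) (hg : Good k c n g) =>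
    step hh hΓ (arrow h hh hΓ n) hg
  let G : ∀ n : ℕ, {g : ℕ → Γ // Good k c n g} := fun n =>
    Nat.rec (motive := fun n => {g : ℕ → Γ // Good k c n g}) ⟨_, h0⟩
      (fun n g => ⟨_, hF n g.1 g.2⟩) n
  have hG : ∀ n, (G (n + 1)).1 = Function.update (G n).1 n (F n (G n).1 (G n).2) := fun _ => rfl
  have hst : ∀ m j, j < m → (G m).1 j = (G (j + 1)).1 j := by
    intro m
    induction m with
    | zero => intro j hj; exact absurd hj (Nat.not_lt_zero _)
    | succ m ih =>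
      intro j hj
      rcases Nat.lt_succ_iff_lt_or_eq.1 hj with h1 | h1
      · rw [hG m, Function.update_of_ne h1.ne, ih j h1]
      · rw [h1]
  refine ⟨fun j => (G (j + 1)).1 j, fun n => ?_⟩
  obtain ⟨Y, hY, hYg⟩ := (G (n + 1)).2 ℵ₀ (hh.1.trans_lt hh.2.1)
  have hinf : Y.Infinite := Set.infinite_coe_iff.1 (infinite_iff.2 hY)
  obtain ⟨t, ht, hcard⟩ := hinf.exists_subset_card_eq n
  refine ⟨t, hcard, fun s hs => ?_⟩
  have hlt : s.card < n + 1 := Nat.lt_succ_of_le (hcard ▸ Finset.card_le_card hs)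
  rw [hYg s (Subset.trans (Finset.coe_subset.2 hs) ht) hlt, hst _ _ hlt]

end Pool.Agent.P.MP_860a31_lc
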