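import Pool.Agent.P.MP_860a31_lc.Inst1

/-!
The abstract context attached to an AEC with intersections, and the reduction of the goal.
-/

open FirstOrder FirstOrder.Language
open Cardinal hiding univ
open Set SetRel

namespace Pool.Agent.P.MP_860a31_lc

namespace AEC

variable {L : FirstOrder.Language.{0, 0}} {K : AEC L} {M N P : Type} [L.Structure M]
  [L.Structure N] [L.Structure P]

theorem closed_sUnion (hD : S_DirS) (hI : K.Intersections) (hM : K.Mem M) (𝒟 : Set (Set M))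
    (h : ∀ D ∈ 𝒟, K.cl D = D) (hd : DirectedOn (· ⊆ ·) 𝒟) : K.cl (⋃₀ 𝒟) = ⋃₀ 𝒟 := by
  refine Subset.antisymm (fun x hx => ?_) (sub_cl _)
  obtain ⟨y, D0, hD0, -⟩ := hx.1
  obtain ⟨t, ht, hxt⟩ := cl_fin hD hI hM hx
  obtain ⟨D, hD, htD⟩ := hd.exists_mem_subset_of_finset_subset_biUnion ⟨D0, hD0⟩
    (s := t) (f := id) (by simpa [sUnion_eq_biUnion] using ht)
  exact ⟨D, hD, h D hD ▸ cl_mono htD hxt⟩

theorem pi_sUnion (hD : S_DirS) (hI : K.Intersections) (hM : K.Mem M) (hN : K.Mem N)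
    (𝒮 : Set (SetRel M N)) (h : ∀ Γ ∈ 𝒮, K.PI Γ) (hd : DirectedOn (· ⊆ ·) 𝒮) :
    K.PI (⋃₀ 𝒮) := by
  classical
  have fin : (⋃₀ 𝒮).Nonempty → ∀ {n : ℕ} (x : Fin n → M) (y : Fin n → N),
      (∀ i, (x i, y i) ∈ ⋃₀ 𝒮) → ∃ Γ ∈ 𝒮, Γ.Nonempty ∧ ∀ i, (x i, y i) ∈ Γ := by
    rintro ⟨p, Γ0, h0, hp⟩ n x y hxy
    obtain ⟨Γ, hΓ, ht⟩ := hd.exists_mem_subset_of_finset_subset_biUnion ⟨Γ0, h0⟩
      (s := insert p (Finset.univ.image fun i => (x i, y i))) (f := id) (by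
        intro q hq
        simp only [Finset.coe_insert, Finset.coe_image, Finset.coe_univ, image_univ,
          mem_insert_iff, mem_range] at hq
        rcases hq with rfl | ⟨i, rfl⟩
        · exact mem_biUnion h0 hp
        · obtain ⟨Γ, hΓ, hi⟩ := hxy i
          exact mem_biUnion hΓ hi)
    exact ⟨Γ, hΓ, ⟨p, ht (by simp)⟩, fun i => ht (Finset.mem_coe.2 (Finset.mem_insert_of_mem
      (Finset.mem_image_of_mem _ (Finset.mem_univ i))))⟩
  refine pi_of_rel hI hM hN ?_ ?_ ?_ ?_ ?_ ?_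
  · rintro x y y' ⟨Γ, h1, h2⟩ ⟨Δ, h3, h4⟩
    obtain ⟨Θ, h5, h6, h7⟩ := hd Γ h1 Δ h3
    exact (h Θ h5).func (h6 h2) (h7 h4)
  · rintro x x' y ⟨Γ, h1, h2⟩ ⟨Δ, h3, h4⟩
    obtain ⟨Θ, h5, h6, h7⟩ := hd Γ h1 Δ h3
    exact (h Θ h5).inv.func (x := y) (h6 h2) (h7 h4)
  · have : SetRel.dom (⋃₀ 𝒮) = ⋃₀ (SetRel.dom '' 𝒮) := by
      ext x
      exact ⟨fun ⟨y, Γ, h1, h2⟩ => ⟨_, ⟨Γ, h1, rfl⟩, y, h2⟩,
        fun ⟨_, ⟨Γ, h1, rfl⟩, y, h2⟩ => ⟨y, Γ, h1, h2⟩⟩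
    rw [this]
    refine closed_sUnion hD hI hM _ ?_ ?_
    · rintro _ ⟨Γ, h1, rfl⟩; exact (h Γ h1).dom
    · rintro _ ⟨Γ, h1, rfl⟩ _ ⟨Δ, h2, rfl⟩
      obtain ⟨Θ, h5, h6, h7⟩ := hd Γ h1 Δ h2
      exact ⟨_, ⟨Θ, h5, rfl⟩, dom_mono h6, dom_mono h7⟩
  · have : SetRel.cod (⋃₀ 𝒮) = ⋃₀ (SetRel.cod '' 𝒮) := by
      ext x
      exact ⟨fun ⟨y, Γ, h1, h2⟩ => ⟨_, ⟨Γ, h1, rfl⟩, y, h2⟩,
        fun ⟨_, ⟨Γ, h1, rfl⟩, y, h2⟩ => ⟨y, Γ, h1, h2⟩⟩
    rw [this]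
    refine closed_sUnion hD hI hN _ ?_ ?_
    · rintro _ ⟨Γ, h1, rfl⟩; exact (h Γ h1).inv.dom
    · rintro _ ⟨Γ, h1, rfl⟩ _ ⟨Δ, h2, rfl⟩
      obtain ⟨Θ, h5, h6, h7⟩ := hd Γ h1 Δ h2
      exact ⟨_, ⟨Θ, h5, rfl⟩, cod_mono h6, cod_mono h7⟩
  · intro hne n F x y hxy
    obtain ⟨Γ, h1, h2, h3⟩ := fin hne x y hxy
    exact ⟨Γ, h1, (h Γ h1).fn h2 F x y h3⟩
  · intro hne n R x y hxy
    obtain ⟨Γ, h1, h2, h3⟩ := fin hne x y hxy
    exact (h Γ h1).rel h2 R x y h3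

/-- the members of `K` that are nonempty and have an extension of size `≥ lam` -/
structure Mod (K : AEC L) (lam : Cardinal.{0}) where
  car : Type
  [str : L.Structure car]
  mem : K.Mem car
  ne : Nonempty car
  big : ∃ (P : Type) (_ : L.Structure P) (f : car ↪[L] P), K.IsEmb f ∧ lam ≤ #P

attribute [instance] Mod.str

/-- extensions stay in the class -/
def Mod.ext {lam : Cardinal.{0}} (hAP : K.AP) (A : K.Mod lam) (f : A.car ↪[L] N)
    (hf : K.IsEmb f) : K.Mod lam where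
  car := N
  mem := hf.mem_right
  ne := A.ne.map f
  big := by
    obtain ⟨P, _, g, hg, hP⟩ := A.big
    obtain ⟨Q, _, g1, g2, h1, -, -⟩ := hAP _ _ _ f g hf hg
    exact ⟨Q, _, g1, h1, hP.trans (mk_le_of_injective g2.injective)⟩

theorem exists_strong_card {lam : Cardinal.{0}} (hlam : K.LS ≤ lam) (hP : K.Mem P)
    (h : lam ≤ #P) : ∃ S : L.Substructure P, K.Strong S ∧ #S = lam := by
  obtain ⟨A, hA⟩ := le_mk_iff_exists_set.1 h
  obtain ⟨S, hS, hAS, hc⟩ := K.ls_spec.2.2 P hP A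
  refine ⟨S, hS, le_antisymm (hc.trans ?_) (hA ▸ mk_le_mk_of_subset hAS)⟩
  exact add_le_of_le (K.ls_spec.1.trans hlam) hA.le hlam

theorem jep {lam : Cardinal.{0}} (hAP : K.AP) (hlam : K.LS ≤ lam) (hcat : K.Categorical lam)
    (A B : K.Mod lam) : ∃ (Q : Type) (_ : L.Structure Q) (f : A.car ↪[L] Q) (g : B.car ↪[L] Q),
      K.IsEmb f ∧ K.IsEmb g := by
  obtain ⟨P, _, f, hf, hP⟩ := A.big
  obtain ⟨P', _, f', hf', hP'⟩ := B.big
  obtain ⟨S, hS, hc⟩ := exists_strong_card hlam hf.mem_right hP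
  obtain ⟨S', hS', hc'⟩ := exists_strong_card hlam hf'.mem_right hP'
  obtain ⟨e⟩ := hcat.2 S S' (K.strong_mem _ hS).2 (K.strong_mem _ hS').2 hc hc'
  obtain ⟨Q, _, g1, g2, h1, h2, -⟩ := hAP _ _ _ S.subtype (S'.subtype.comp e.toEmbedding)
    (isEmb_subtype hS) (isEmb_comp (isEmb_equiv e (K.strong_mem _ hS').2) (isEmb_subtype hS'))
  exact ⟨Q, _, g1.comp f, g2.comp f', isEmb_comp hf h1, isEmb_comp hf' h2⟩

/-- the abstract context of `K` -/
noncomputable def ctx (hD : S_DirS) (hC : S_Colim) (hCd : S_Code) (hAP : K.AP)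
    (hI : K.Intersections) {lam : Cardinal.{0}} (hlam : K.LS ≤ lam) (hcat : K.Categorical lam) :
    Ctx K.LS lam where
  Obj := K.Mod lam
  U A := A.car
  cl := K.cl
  PI := K.PI
  inf := K.ls_spec.1
  sub_cl := sub_cl
  cl_mono := cl_mono
  cl_cl := cl_cl
  cl_fin {A} := cl_fin hD hI A.mem
  cl_card {A} := cl_card A.mem
  pi_fun h := h.func
  pi_dom h := h.dom
  pi_inv h := h.inv
  pi_id {A} := pi_idOn hI A.mem
  pi_comp {A _ B} := PI.comp hI A.mem B.mem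
  pi_union {A B} := pi_sUnion hD hI A.mem B.mem
  code ι := by
    obtain ⟨Cd, cd, hc, h⟩ := hCd L K.LS K.ls_spec.1 K.ls_spec.2.1 ι
    refine ⟨Cd, fun A => cd A.car, hc, fun A B e e' he h1 h2 => ?_⟩
    obtain ⟨k1, k2, k3⟩ := h _ _ e e' he
    have hd : SetRel.dom (range fun i => (e i, e' i)) = range e := by ext x; simp
    have hc : SetRel.cod (range fun i => (e i, e' i)) = range e' := by ext x; simp
    refine pi_of_rel hI A.mem B.mem ?_ ?_ (hd ▸ h1) (hc ▸ h2) ?_ ?_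
    · rintro x y y' ⟨i, hi⟩ ⟨j, hj⟩
      simp only [Prod.mk.injEq] at hi hj
      rw [← hi.2, ← hj.2]; exact (k1 i j).1 (hi.1.trans hj.1.symm)
    · rintro x x' y ⟨i, hi⟩ ⟨j, hj⟩
      simp only [Prod.mk.injEq] at hi hj
      rw [← hi.1, ← hj.1]; exact (k1 i j).2 (hi.2.trans hj.2.symm)
    · rintro ⟨_, i0, -⟩ n F x y hxy
      choose a ha using hxy
      simp only [Prod.mk.injEq] at ha
      have hx : x = e ∘ a := funext fun i => (ha i).1.symm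
      have hy : y = e' ∘ a := funext fun i => (ha i).2.symm
      subst hx hy
      have hne : (range e).Nonempty := ⟨_, i0, rfl⟩
      have hm : Structure.funMap F (e ∘ a) ∈ range e := by
        rw [← h1, cl_eq hne]
        exact (K.clS (range e)).fun_mem F _ fun i => sub_clS _ ⟨a i, rfl⟩
      obtain ⟨j, hj⟩ := hm
      exact ⟨j, Prod.ext hj ((k2 n F a j).1 hj.symm).symm⟩
    · rintro - n R x y hxy
      choose a ha using hxy
      simp only [Prod.mk.injEq] at ha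
      have hx : x = e ∘ a := funext fun i => (ha i).1.symm
      have hy : y = e' ∘ a := funext fun i => (ha i).2.symm
      subst hx hy
      exact k3 n R a
  ap {A B Γ} h := by
    rcases h with rfl | ⟨D, _, f, g, hf, hg, rfl⟩
    · obtain ⟨Q, _, f, g, hf, hg⟩ := jep hAP hlam hcat A B
      exact ⟨A.ext hAP f hf, f, g, pi_graph hf, pi_graph hg, fun _ _ h => h.elim⟩
    · obtain ⟨Q, _, g1, g2, h1, h2, h3⟩ := hAP _ _ _ f g hf hg
      refine ⟨A.ext hAP g1 h1, g1, g2, pi_graph h1, pi_graph h2, ?_⟩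
      rintro x y ⟨a, ha⟩
      simp only [Prod.mk.injEq] at ha
      rw [← ha.1, ← ha.2]; exact h3 a
  sub {A D} hD hne := by
    have hS : K.Strong (K.clS D) := hI A.car A.mem D hne
    have e : (K.clS D : Set A.car) = D := (cl_eq hne).symm.trans hD
    obtain ⟨x, hx⟩ := hne
    refine ⟨⟨K.clS D, (K.strong_mem _ hS).2, ⟨⟨x, sub_clS D hx⟩⟩, ?_⟩, (K.clS D).subtype,
      pi_graph (isEmb_subtype hS), ?_⟩
    · obtain ⟨P, _, f, hf, hP⟩ := A.big
      exact ⟨P, _, f.comp (K.clS D).subtype, isEmb_comp (isEmb_subtype hS) hf, hP⟩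
    · exact Subtype.range_coe.trans e
  colim ι _ _ _ A f hf h1 h2 := by
    have hex : ∀ i j h, ∃ e : (A i).car ↪[L] (A j).car, K.IsEmb e ∧ ⇑e = f i j h :=
      fun i j h => haveI := (A i).ne; emb_of_pi (hf i j h)
    choose e he hef using hex
    obtain ⟨P, _, g, hg, k1, k2⟩ := hC L K ι (fun i => (A i).car) e he
      (fun i x => by rw [hef]; exact h1 i x)
      (fun i j k hij hjk x => by rw [hef, hef, hef]; exact h2 i j k hij hjk x)
    let i0 : ι := Classical.arbitrary ι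
    exact ⟨(A i0).ext hAP (g i0) (hg i0), fun i => g i, fun i => pi_graph (hg i),
      fun i j h x => by rw [← hef]; exact k1 i j h x, k2⟩
  cat_ex := by
    obtain ⟨M, _, hM, hc⟩ := hcat.1
    refine ⟨⟨M, hM, ?_, M, _, Embedding.refl L M, isEmb_equiv (Language.Equiv.refl L M) hM,
      hc.ge⟩, hc⟩
    rw [← mk_ne_zero_iff, hc]
    exact (aleph0_pos.trans_le (K.ls_spec.1.trans hlam)).ne'
  cat A B hA hB := by
    obtain ⟨e⟩ := hcat.2 A.car B.car A.mem B.mem hA hB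
    refine ⟨Function.graph e.toEmbedding, pi_graph (isEmb_equiv e B.mem), ?_, ?_⟩
    · exact eq_univ_of_forall fun x => ⟨_, rfl⟩
    · exact eq_univ_of_forall fun y => ⟨e.symm y, e.apply_symm_apply y⟩

end AEC

theorem goal_of (hD : S_DirS) (hC : S_Colim) (hCd : S_Code) (hM : S_Main) :
    Goal := by
  intro L K hAP hI hbig lam hlam hcat θ hθ M _ hMK hc
  have hLS : K.LS ≤ lam := hlam.le
  have hbig' : ∃ M : (AEC.ctx hD hC hCd hAP hI hLS hcat).Obj,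
      hanf K.LS ≤ #((AEC.ctx hD hC hCd hAP hI hLS hcat).U M) := by
    obtain ⟨M0, _, h0, h1⟩ := hbig
    by_cases h2 : lam ≤ #M0
    · refine ⟨⟨M0, h0, ?_, M0, _, Embedding.refl L M0,
        AEC.isEmb_equiv (Language.Equiv.refl L M0) h0, h2⟩, h1⟩
      rw [← mk_ne_zero_iff]
      exact (aleph0_pos.trans_le (K.ls_spec.1.trans (hLS.trans h2))).ne'
    · obtain ⟨N, hN⟩ := (AEC.ctx hD hC hCd hAP hI hLS hcat).cat_ex
      exact ⟨N, h1.trans ((not_le.1 h2).le.trans hN.ge)⟩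
  have hne : Nonempty M := by
    rw [← mk_ne_zero_iff, hc]
    exact (aleph0_pos.trans_le (K.ls_spec.1.trans (hLS.trans hθ))).ne'
  let A : K.Mod lam := ⟨M, hMK, hne, M, _, Embedding.refl L M,
    AEC.isEmb_equiv (Language.Equiv.refl L M) hMK, hθ.trans hc.ge⟩
  obtain ⟨P, g, hg, hP, h⟩ := hM K.LS lam (AEC.ctx hD hC hCd hAP hI hLS hcat) hlam hbig' A
    (hθ.trans hc.ge)
  obtain ⟨e, he, rfl⟩ := AEC.emb_of_pi (K := K) (M := M) (N := AEC.Mod.car P) hg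
  let φ : AEC.Mod.car P → K.GType M := fun b => Quot.mk _ ⟨AEC.Mod.car P, e, he, b⟩
  have hφ : Function.Surjective φ := by
    rintro ⟨p⟩
    obtain ⟨b, Γ, hΓ, hb, hx⟩ := h (A.ext hAP p.emb p.isEmb) (fun x : M => p.emb x)
      (AEC.pi_graph (M := M) (N := p.N) p.isEmb) p.pt
    refine ⟨b, Quot.sound ?_⟩
    have hΓ' : K.PI (M := AEC.Mod.car P) (N := p.N) Γ := hΓ
    rcases hΓ' with rfl | ⟨D, _, f1, f2, h1, h2, rfl⟩
    · exact hb.elim
    obtain ⟨Q, _, g1, g2, k1, k2, k3⟩ := hAP _ _ _ f1 f2 h1 h2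
    have key : ∀ u v, (u, v) ∈ (range fun a => (f1 a, f2 a)) → g1 u = g2 v := by
      rintro u v ⟨a, ha⟩
      simp only [Prod.mk.injEq] at ha
      rw [← ha.1, ← ha.2]; exact k3 a
    exact ⟨Q, _, g1, g2, k1, k2, fun x => key _ _ (hx x), key _ _ hb⟩
  have h1 := lift_mk_le_lift_mk_of_surjective hφ
  rw [lift_uzero] at h1
  exact h1.trans (lift_le.2 (hP.trans hc.le))

end Pool.Agent.P.MP_860a31_lc
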