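import Pool.Agent.P.MP_860a31_lc.InstDefs

/-! The lemma of Iwamura. -/

open Cardinal hiding univ
open Set

namespace Pool.Agent.P.MP_860a31_lc

namespace IwaP

variable {ι : Type} [Preorder ι] [IsDirected ι (· ≤ ·)] [Nonempty ι]

theorem exists_F : ∃ F : Finset ι → Finset ι, Monotone F ∧ (∀ t, t ⊆ F t) ∧
    ∀ t, ∃ m ∈ F t, ∀ i ∈ F t, i ≤ m := by
  classical
  choose ub hub using fun s : Finset ι => s.exists_le
  let u : (t : Finset ι) → (∀ s ⊂ t, Finset ι) → Finset ι := fun t G =>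
    t ∪ t.ssubsets.attach.biUnion fun s => G s.1 (Finset.mem_ssubsets.mp s.2)
  let F : Finset ι → Finset ι := Finset.strongInduction fun t G => insert (ub (u t G)) (u t G)
  have hF : ∀ t, F t = insert (ub (u t fun s _ => F s)) (u t fun s _ => F s) := fun t =>
    Finset.strongInduction_eq _ t
  refine ⟨F, fun s t h => ?_, fun t => ?_, fun t => ?_⟩
  · rcases h.eq_or_lt with rfl | h
    · exact le_rfl
    · rw [hF t]
      exact fun x hx => Finset.mem_insert_of_mem (Finset.mem_union_right _ (Finset.mem_biUnion.mpr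
        ⟨⟨s, Finset.mem_ssubsets.mpr h⟩, Finset.mem_attach _ _, hx⟩))
  · rw [hF t]
    exact Finset.subset_union_left.trans (Finset.subset_insert _ _)
  · rw [hF t]
    refine ⟨_, Finset.mem_insert_self _ _, fun i hi => ?_⟩
    rcases Finset.mem_insert.mp hi with rfl | hi
    exacts [le_rfl, hub _ _ hi]

theorem exists_D : ∃ D : Set ι → Set ι, Monotone D ∧ (∀ A, A ⊆ D A) ∧ ∀ A, (D A).Nonempty ∧
    DirectedOn (· ≤ ·) (D A) ∧ ∀ c, ℵ₀ ≤ c → #A < c → #(D A) < c := by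
  classical
  obtain ⟨F, h1, h2, h3⟩ := exists_F (ι := ι)
  refine ⟨fun A => {x | ∃ t : Finset ι, ↑t ⊆ A ∧ x ∈ F t},
    fun A B h x ⟨t, ht, hx⟩ => ⟨t, ht.trans h, hx⟩,
    fun A x hx => ⟨{x}, by simpa, h2 _ (Finset.mem_singleton_self x)⟩, fun A => ⟨?_, ?_, ?_⟩⟩
  · obtain ⟨m, hm, -⟩ := h3 ∅
    exact ⟨m, ∅, by simp, hm⟩
  · rintro x ⟨s, hs, hx⟩ y ⟨t, ht, hy⟩
    obtain ⟨m, hm, h⟩ := h3 (s ∪ t)
    exact ⟨m, ⟨s ∪ t, by simp [hs, ht], hm⟩, h _ (h1 Finset.subset_union_left hx),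
      h _ (h1 Finset.subset_union_right hy)⟩
  · intro c hc hA
    rcases A.finite_or_infinite with h | h
    · refine lt_of_lt_of_le (lt_aleph0_iff_set_finite.mpr
        ((F h.toFinset).finite_toSet.subset ?_)) hc
      rintro x ⟨t, ht, hx⟩
      exact h1 (fun y hy => h.mem_toFinset.mpr (ht hy)) hx
    · have := h.to_subtype
      refine lt_of_le_of_lt (le_trans (mk_le_mk_of_subset ?_) ((mk_iUnion_le fun t : Finset A =>
        (F (t.map (Function.Embedding.subtype _)) : Set ι)).trans ?_)) hA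
      · rintro x ⟨t, ht, hx⟩
        refine mem_iUnion.mpr ⟨t.subtype _, ?_⟩
        rwa [Finset.subtype_map_of_mem fun y hy => ht hy]
      · rw [mk_finset_of_infinite]
        exact (mul_le_mul_right (ciSup_le' fun t => (finset_card_lt_aleph0 _).le) _).trans
          (mul_aleph0_eq (aleph0_le_mk A)).le

end IwaP

theorem iwa : S_Iwa := by
  intro ι _ _ _
  obtain ⟨D, h1, h2, h3⟩ := IwaP.exists_D (ι := ι)
  obtain ⟨e⟩ : Nonempty ((#ι).ord.ToType ≃ ι) := Cardinal.eq.mp (mk_ord_toType _)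
  refine ⟨(#ι).ord.ToType, inferInstance, inferInstance, e.nonempty, fun t => D (e '' Iic t),
    fun s t h => h1 (image_mono (Iic_subset_Iic.mpr h)), fun t => ⟨(h3 _).1, (h3 _).2.1,
      (h3 _).2.2 _ (aleph0_le_mk ι) ?_⟩, fun i => ⟨e.symm i, h2 _ ⟨_, self_mem_Iic, by simp⟩⟩⟩
  rw [mk_image_eq e.injective]
  simpa using mk_Iic_lt t (by simp) (by simp)

end Pool.Agent.P.MP_860a31_lc
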