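import Pool.Agent.P.MP_860a31_lc.Basic

/-!
Existence of Ehrenfeucht–Mostowski data from Morley's method.
-/

open Cardinal hiding univ
open Set SetRel

namespace Pool.Agent.P.MP_860a31_lc

namespace EMxP

/-- increasing tuples -/
abbrev Tup (n : ℕ) (I : Type) [LinearOrder I] : Type := Fin (n + 1) ↪o I

/-- Morley's method for colourings of increasing tuples -/
theorem morley_tup (h : S_Morley) {hh χ : Cardinal.{0}} (H : Hanf hh χ) (hχ : χ ^ ℵ₀ ≤ χ)
    (X : Type) [LinearOrder X] (hX : hh ≤ #X) (Col : ℕ → Type) (hC : ∀ n, #(Col n) ≤ χ)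
    (col : ∀ n, Tup n X → Col n) :
    ∃ T : ∀ n, Tup n X, ∀ (m n : ℕ) (ρ : Tup m (Fin (n + 1))),
      col m (ρ.trans (T n)) = col m (T m) := by
  classical
  let c : Finset X → ∀ n, Option (Col n) := fun s n =>
    if hs : s.card = n + 1 then some (col n (s.orderEmbOfFin hs)) else none
  have hΓ : #(∀ n, Option (Col n)) ≤ χ := by
    refine le_trans ?_ hχ
    rw [mk_pi]
    calc (prod fun n => #(Option (Col n))) ≤ prod fun _ : ℕ => χ := by
          refine prod_le_prod _ _ fun n => ?_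
          rw [mk_option]
          exact add_le_of_le H.1 (hC n) (one_le_aleph0.trans H.1)
      _ = χ ^ ℵ₀ := by simp
  obtain ⟨γ, hγ⟩ := h hh χ H X _ hX hΓ c
  choose t ht hc using hγ
  refine ⟨fun n => (t (n + 1)).orderEmbOfFin (ht _), fun m n ρ => ?_⟩
  set a : Tup m X := ρ.trans ((t (n + 1)).orderEmbOfFin (ht _)) with ha
  have hs : (Finset.univ.map a.toEmbedding).card = m + 1 := by simp
  have hsub : Finset.univ.map a.toEmbedding ⊆ t (n + 1) := by
    intro x hx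
    obtain ⟨k, -, rfl⟩ := Finset.mem_map.1 hx
    exact Finset.orderEmbOfFin_mem _ (ht (n + 1)) (ρ k)
  have e1 := hc (n + 1) _ hsub
  have e2 := hc (m + 1) _ subset_rfl
  rw [hs] at e1
  rw [ht] at e2
  have e3 := congrFun (e1.trans e2.symm) m
  simp only [c, dif_pos hs, dif_pos (ht (m + 1)), Option.some.injEq] at e3
  have e4 : a = (Finset.univ.map a.toEmbedding).orderEmbOfFin hs :=
    Finset.orderEmbOfFin_unique' hs fun x => Finset.mem_map_of_mem _ (Finset.mem_univ x)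
  rw [← e4] at e3
  exact e3

theorem exists_range_eq {X ι : Type} {S : Set X} (hS : S.Nonempty) (h : #S ≤ #ι) :
    ∃ f : ι → X, range f = S := by
  obtain ⟨j⟩ := (Cardinal.le_def _ _).1 h
  have : Nonempty S := hS.to_subtype
  refine ⟨Subtype.val ∘ Function.invFun j, ?_⟩
  rw [range_comp, (Function.invFun_surjective j.injective).range_eq, image_univ,
    Subtype.range_coe]

/-- the identity tuple -/
def idT (n : ℕ) : Tup n (Fin (n + 1)) := (OrderIso.refl _).toOrderEmbedding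

theorem idT_trans {n : ℕ} {I : Type} [LinearOrder I] (a : Tup n I) : (idT n).trans a = a := rfl

/-- the one-point tuple -/
def sing {I : Type} [LinearOrder I] (i : I) : Tup 0 I :=
  OrderEmbedding.ofStrictMono (fun _ => i) (Subsingleton.strictMono (α := Fin 1) _)

theorem sing_trans {n : ℕ} {I : Type} [LinearOrder I] (a : Tup n I) (k : Fin (n + 1)) :
    (sing k).trans a = sing (a k) := rfl

/-- blueprints -/
structure Blue {κ lam : Cardinal.{0}} (C : Ctx κ lam) where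
  A : ℕ → C.Obj
  pt : ∀ n, Fin (n + 1) → C.U (A n)
  pt_inj : ∀ n, Function.Injective (pt n)
  gen : ∀ n, C.cl (range (pt n)) = univ
  mp : ∀ {m n : ℕ}, Tup m (Fin (n + 1)) → C.U (A m) → C.U (A n)
  mp_pi : ∀ {m n : ℕ} (ρ : Tup m (Fin (n + 1))), C.PI (mp ρ).graph
  mp_id : ∀ (n : ℕ) (x : C.U (A n)), mp (idT n) x = x
  mp_comp : ∀ {m n k : ℕ} (ρ : Tup m (Fin (n + 1))) (σ : Tup n (Fin (k + 1))) (x : C.U (A m)),
    mp σ (mp ρ x) = mp (ρ.trans σ) x
  mp_pt : ∀ {m n : ℕ} (ρ : Tup m (Fin (n + 1))) (k : Fin (m + 1)), mp ρ (pt m k) = pt n (ρ k)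

/-- index set of the enumerations -/
abbrev Idx (ι : Type) (n : ℕ) : Type := ((Σ m, Tup m (Fin (n + 1))) × ι) ⊕ Fin (n + 1)

theorem card_Idx {κ : Cardinal.{0}} (hκ : ℵ₀ ≤ κ) (n : ℕ) : #(Idx κ.out n) ≤ κ := by
  have h1 : #(Σ m, Tup m (Fin (n + 1))) ≤ ℵ₀ := by
    have : ∀ m, Countable (Tup m (Fin (n + 1))) := fun m =>
      (DFunLike.coe_injective (F := Tup m (Fin (n + 1)))).countable
    exact mk_le_aleph0
  have h2 : #(Fin (n + 1)) ≤ κ := mk_le_aleph0.trans hκ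
  simp only [mk_sum, mk_prod, lift_id, mk_out]
  exact add_le_of_le hκ (mul_le_of_le hκ (h1.trans hκ) le_rfl) h2

/-- the extended enumeration -/
def en {X ι : Type} [LinearOrder X] (e : ∀ n, Tup n X → ι → X) {n : ℕ} (a : Tup n X) :
    Idx ι n → X :=
  Sum.elim (fun p => e p.1.1 (p.1.2.trans a) p.2) a

/-- the relation matching two extended enumerations -/
def Gm {X ι : Type} [LinearOrder X] (e : ∀ n, Tup n X → ι → X) {n : ℕ} (a b : Tup n X) :
    SetRel X X :=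
  range fun j => (en e a j, en e b j)

theorem Gm_sub {X ι : Type} [LinearOrder X] (e : ∀ n, Tup n X → ι → X) {m n : ℕ}
    (ρ : Tup m (Fin (n + 1))) (a b : Tup n X) : Gm e (ρ.trans a) (ρ.trans b) ⊆ Gm e a b := by
  rintro _ ⟨(⟨⟨k, σ⟩, i⟩ | k), rfl⟩
  · exact ⟨Sum.inl ⟨⟨k, σ.trans ρ⟩, i⟩, rfl⟩
  · exact ⟨Sum.inr (ρ k), rfl⟩

theorem exists_blue (h : S_Morley) {κ lam : Cardinal.{0}} (C : Ctx κ lam) {hh : Cardinal.{0}}
    (H : Hanf hh (2 ^ κ)) (hl : ∃ M : C.Obj, hh ≤ #(C.U M)) : Nonempty (Blue C) := by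
  classical
  obtain ⟨M, hM⟩ := hl
  let _ : LinearOrder (C.U M) := linearOrderOfSTO WellOrderingRel
  have he : ∀ n (a : Tup n (C.U M)), ∃ f : κ.out → C.U M, range f = C.cl (range a) := by
    intro n a
    refine exists_range_eq ⟨a 0, C.sub_cl _ ⟨0, rfl⟩⟩ ?_
    rw [mk_out]
    exact Ctx.card_cl_le le_rfl (mk_range_le.trans (mk_le_aleph0.trans C.inf))
  choose e he using he
  have hen : ∀ {n} (a : Tup n (C.U M)), range (en e a) = C.cl (range a) := by
    intro n a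
    apply Subset.antisymm
    · rintro _ ⟨(⟨⟨k, σ⟩, i⟩ | k), rfl⟩
      · have h1 : e k (σ.trans a) i ∈ C.cl (range (σ.trans a)) := he k (σ.trans a) ▸ ⟨i, rfl⟩
        refine C.cl_mono ?_ h1
        rintro _ ⟨l, rfl⟩
        exact ⟨σ l, rfl⟩
      · exact C.sub_cl _ ⟨k, rfl⟩
    · intro x hx
      rw [← he n a] at hx
      obtain ⟨i, rfl⟩ := hx
      exact ⟨Sum.inl ⟨⟨n, idT n⟩, i⟩, rfl⟩
  choose Cd cd hCd hcd using fun n => C.code (Idx κ.out n)
  have hpow : ((2 : Cardinal.{0}) ^ κ) ^ ℵ₀ ≤ 2 ^ κ := by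
    rw [← power_mul, mul_eq_left C.inf C.inf aleph0_ne_zero]
  obtain ⟨T, hT⟩ := morley_tup h H hpow (C.U M) hM Cd (fun n => (hCd n).trans
    (power_le_power_left two_ne_zero (add_le_of_le C.inf (card_Idx C.inf n) le_rfl)))
    (fun n a => cd n M (en e a))
  have hPI : ∀ {m n k} (ρ : Tup m (Fin (n + 1))) (σ : Tup m (Fin (k + 1))),
      C.PI (Gm e (ρ.trans (T n)) (σ.trans (T k))) := by
    intro m n k ρ σ
    refine hcd m M M _ _ ((hT m n ρ).trans (hT m k σ).symm) ?_ ?_ <;> rw [hen, C.cl_cl]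
  have hPI' : ∀ {m n} (ρ : Tup m (Fin (n + 1))), C.PI (Gm e (T m) (ρ.trans (T n))) :=
    fun {m n} ρ => hPI (idT m) ρ
  choose A g hg hgr using fun n =>
    C.sub (C.cl_cl (range (T n))) ⟨T n 0, C.sub_cl _ ⟨0, rfl⟩⟩
  have hmp : ∀ {m n} (ρ : Tup m (Fin (n + 1))), ∃ f : C.U (A m) → C.U (A n), C.PI f.graph ∧
      ∀ w, (g m w, g n (f w)) ∈ Gm e (T m) (ρ.trans (T n)) := by
    intro m n ρ
    have h1 : C.PI ((g m).graph ○ (Gm e (T m) (ρ.trans (T n)) ○ (g n).graph.inv)) :=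
      C.pi_comp (hg m) (C.pi_comp (hPI' ρ) (C.pi_inv (hg n)))
    obtain ⟨f, hf⟩ := Ctx.exists_fun h1 (by
      refine eq_univ_of_forall fun w => ?_
      have h2 : g m w ∈ range (en e (T m)) := by rw [hen, ← hgr]; exact ⟨w, rfl⟩
      obtain ⟨j, hj⟩ := h2
      have h3 : en e (ρ.trans (T n)) j ∈ range (g n) := by
        rw [hgr]
        have h4 : en e (ρ.trans (T n)) j ∈ C.cl (range (ρ.trans (T n))) := hen _ ▸ ⟨j, rfl⟩
        refine C.cl_mono ?_ h4
        rintro _ ⟨l, rfl⟩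
        exact ⟨ρ l, rfl⟩
      obtain ⟨v, hv⟩ := h3
      exact ⟨v, g m w, rfl, _, ⟨j, Prod.ext hj rfl⟩, hv⟩)
    refine ⟨f, hf ▸ h1, fun w => ?_⟩
    have h5 : (w, f w) ∈ f.graph := rfl
    rw [hf] at h5
    obtain ⟨y, hy, z, hz, hz'⟩ := h5
    have hy' : g m w = y := hy
    have hz'' : g n (f w) = z := hz'
    rw [hy', hz'']
    exact hz
  choose mp hmp1 hmp2 using @hmp
  have hpt : ∀ n k, ∃ w, g n w = T n k := fun n k =>
    (hgr n ▸ C.sub_cl _ ⟨k, rfl⟩ : T n k ∈ range (g n))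
  choose pt hpt using hpt
  refine ⟨⟨A, pt, fun n k l hkl => (T n).injective (by rw [← hpt, ← hpt, hkl]), fun n => ?_,
    fun ρ => mp ρ, fun ρ => hmp1 ρ, fun n x => ?_, fun {m n k} ρ σ x => ?_,
    fun {m n} ρ k => ?_⟩⟩
  · refine eq_univ_of_forall fun w => ?_
    have h1 : g n w ∈ g n '' C.cl (range (pt n)) := by
      rw [Ctx.image_cl (hg n), ← range_comp]
      have h2 : g n ∘ pt n = T n := funext fun k => hpt n k
      rw [h2, ← hgr]
      exact ⟨w, rfl⟩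
    obtain ⟨v, hv, e'⟩ := h1
    rwa [← Ctx.emb_inj (hg n) e']
  · obtain ⟨j, hj⟩ := hmp2 (idT n) x
    apply Ctx.emb_inj (hg n)
    exact (congrArg Prod.snd hj).symm.trans (congrArg Prod.fst hj)
  · apply Ctx.emb_inj (hg k)
    obtain ⟨j, hj⟩ := hmp2 ρ x
    have h1 : en e (T m) j = g m x := congrArg Prod.fst hj
    have h2 : en e (ρ.trans (T n)) j = g n (mp ρ x) := congrArg Prod.snd hj
    have h3 : (en e (ρ.trans (T n)) j, en e (ρ.trans (σ.trans (T k))) j) ∈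
        Gm e (T n) (σ.trans (T k)) := Gm_sub e ρ _ _ ⟨j, rfl⟩
    rw [h2] at h3
    have h4 := C.pi_fun (hPI' σ) (hmp2 σ (mp ρ x)) h3
    have h5 : (g m x, en e ((ρ.trans σ).trans (T k)) j) ∈ Gm e (T m) ((ρ.trans σ).trans (T k)) :=
      ⟨j, Prod.ext h1 rfl⟩
    exact h4.trans (C.pi_fun (hPI' (ρ.trans σ)) h5 (hmp2 (ρ.trans σ) x))
  · apply Ctx.emb_inj (hg n)
    have h1 : (g m (pt m k), g n (pt n (ρ k))) ∈ Gm e (T m) (ρ.trans (T n)) := by
      rw [hpt, hpt]
      exact ⟨Sum.inr k, rfl⟩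
    exact C.pi_fun (hPI' ρ) (hmp2 ρ _) h1

/-- every nonempty finite set is the range of a tuple -/
theorem exists_tup {I : Type} [LinearOrder I] {s : Set I} (hs : s.Finite) (hne : s.Nonempty) :
    ∃ (n : ℕ) (a : Tup n I), range a = s := by
  lift s to Finset I using hs
  obtain ⟨n, hn⟩ := Nat.exists_eq_succ_of_ne_zero
    (Finset.card_ne_zero.2 (Finset.coe_nonempty.1 hne))
  exact ⟨n, s.orderEmbOfFin hn, Finset.range_orderEmbOfFin s hn⟩

/-- factorisation of a tuple through a tuple with larger range -/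
theorem exists_fac {I : Type} [LinearOrder I] {m n : ℕ} {a : Tup m I} {b : Tup n I}
    (h : range a ⊆ range b) : ∃ ρ : Tup m (Fin (n + 1)), ρ.trans b = a := by
  choose r hr using fun k => h ⟨k, rfl⟩
  refine ⟨OrderEmbedding.ofStrictMono r fun k l hkl => ?_, DFunLike.ext _ _ fun k => hr k⟩
  rw [← b.lt_iff_lt, hr, hr]
  exact a.strictMono hkl

theorem fac_unique {I : Type} [LinearOrder I] {m n : ℕ} {b : Tup n I}
    {ρ ρ' : Tup m (Fin (n + 1))} (h : ρ.trans b = ρ'.trans b) : ρ = ρ' :=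
  DFunLike.ext _ _ fun k => b.injective (DFunLike.congr_fun h k)

/-- the directed index set -/
structure Dx (I : Type) [LinearOrder I] : Type where
  n : ℕ
  a : Tup n I

instance (I : Type) [LinearOrder I] : Preorder (Dx I) where
  le d d' := range d.a ⊆ range d'.a
  le_refl _ := Subset.rfl
  le_trans _ _ _ := Subset.trans

theorem exists_join {I : Type} [LinearOrder I] {m n : ℕ} (a : Tup m I) (b : Tup n I) :
    ∃ (k : ℕ) (c : Tup k I), range c = range a ∪ range b :=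
  exists_tup ((finite_range a).union (finite_range b)) ⟨a 0, Or.inl ⟨0, rfl⟩⟩

instance (I : Type) [LinearOrder I] : IsDirected (Dx I) (· ≤ ·) :=
  ⟨fun d d' => by
    obtain ⟨k, c, hc⟩ := exists_join d.a d'.a
    exact ⟨⟨k, c⟩, (hc ▸ subset_union_left : range d.a ⊆ range c),
      (hc ▸ subset_union_right : range d'.a ⊆ range c)⟩⟩

namespace Blue

variable {κ lam : Cardinal.{0}} {C : Ctx κ lam} (B : Blue C)

theorem exists_obj (I : Type) [LinearOrder I] :
    ∃ (P : C.Obj) (g : ∀ n, Tup n I → C.U (B.A n) → C.U P), (∀ n a, C.PI (g n a).graph) ∧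
      (∀ m n (ρ : Tup m (Fin (n + 1))) (a : Tup n I) x,
        g n a (B.mp ρ x) = g m (ρ.trans a) x) ∧
      (Nonempty I → ∀ y, ∃ n a x, g n a x = y) := by
  rcases isEmpty_or_nonempty I with hI | hI
  · exact ⟨B.A 0, fun n a => isEmptyElim (a 0), fun n a => isEmptyElim (a 0),
      fun m n ρ a => isEmptyElim (a 0), fun h => (not_nonempty_iff.2 hI h).elim⟩
  have : Nonempty (Dx I) := ⟨⟨0, sing hI.some⟩⟩
  choose r hr using fun (d d' : Dx I) (h : d ≤ d') => exists_fac (a := d.a) (b := d'.a) h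
  obtain ⟨P, g, hg1, hg2, hg3⟩ := C.colim (Dx I) (fun d => B.A d.n)
    (fun d d' h => B.mp (r d d' h)) (fun d d' h => B.mp_pi _)
    (fun d x => by
      have e : r d d le_rfl = idT d.n := fac_unique (b := d.a) (hr d d le_rfl)
      simp only [e]
      exact B.mp_id _ x)
    (fun d d' d'' h h' x => by
      have e : r d d'' (h.trans h') = (r d d' h).trans (r d' d'' h') := by
        refine fac_unique (b := d''.a) ((hr _ _ _).trans ?_)
        have e1 : ((r d d' h).trans (r d' d'' h')).trans d''.a =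
          (r d d' h).trans ((r d' d'' h').trans d''.a) := rfl
        rw [e1, hr, hr]
      simp only [e]
      exact B.mp_comp _ _ x)
  refine ⟨P, fun n a => g ⟨n, a⟩, fun n a => hg1 _, fun m n ρ a x => ?_, fun _ y => ?_⟩
  · have h : (⟨m, ρ.trans a⟩ : Dx I) ≤ ⟨n, a⟩ := by
      rintro _ ⟨l, rfl⟩
      exact ⟨ρ l, rfl⟩
    have e : r _ _ h = ρ := fac_unique (b := a) (hr _ _ h)
    have := hg2 _ _ h x
    simp only [e] at this
    exact this
  · obtain ⟨d, x, hx⟩ := hg3 y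
    exact ⟨d.n, d.a, x, hx⟩

/-- the object generated by `I` -/
noncomputable def ob (I : Type) [LinearOrder I] : C.Obj := (B.exists_obj I).choose

/-- the structure maps -/
noncomputable def io {I : Type} [LinearOrder I] {n : ℕ} (a : Tup n I) :
    C.U (B.A n) → C.U (B.ob I) :=
  (B.exists_obj I).choose_spec.choose n a

variable {I J : Type} [LinearOrder I] [LinearOrder J]

theorem io_pi {n : ℕ} (a : Tup n I) : C.PI (B.io a).graph :=
  (B.exists_obj I).choose_spec.choose_spec.1 n a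

theorem io_mp {m n : ℕ} (ρ : Tup m (Fin (n + 1))) (a : Tup n I) (x : C.U (B.A m)) :
    B.io a (B.mp ρ x) = B.io (ρ.trans a) x :=
  (B.exists_obj I).choose_spec.choose_spec.2.1 m n ρ a x

theorem io_surj (h : Nonempty I) (y : C.U (B.ob I)) :
    ∃ (n : ℕ) (a : Tup n I) (x : C.U (B.A n)), B.io a x = y :=
  (B.exists_obj I).choose_spec.choose_spec.2.2 h y

/-- the atoms -/
noncomputable def am (I : Type) [LinearOrder I] (i : I) : C.U (B.ob I) :=
  B.io (sing i) (B.pt 0 0)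

theorem io_pt {n : ℕ} (a : Tup n I) (k : Fin (n + 1)) : B.io a (B.pt n k) = B.am I (a k) := by
  have h : B.mp (sing k) (B.pt 0 0) = B.pt n k := B.mp_pt _ _
  rw [← h, io_mp, sing_trans]
  rfl

theorem range_io {n : ℕ} (a : Tup n I) : range (B.io a) = C.cl (B.am I '' range a) := by
  rw [← image_univ, ← B.gen n, Ctx.image_cl (B.io_pi a), ← range_comp, ← range_comp]
  congr 2
  exact funext fun k => B.io_pt a k

theorem am_inj : Function.Injective (B.am I) := by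
  intro i j hij
  obtain ⟨n, a, ha⟩ := exists_tup (s := ({i, j} : Set I)) (toFinite _) ⟨i, by simp⟩
  obtain ⟨k, rfl⟩ : i ∈ range a := by rw [ha]; simp
  obtain ⟨l, rfl⟩ : j ∈ range a := by rw [ha]; simp
  rw [← io_pt, ← io_pt] at hij
  rw [B.pt_inj n (Ctx.emb_inj (B.io_pi a) hij)]

/-- the transport relation -/
def Tr (Z : Set I) (u : I → J) : SetRel (C.U (B.ob I)) (C.U (B.ob J)) :=
  {p | ∃ (n : ℕ) (a : Tup n I) (b : Tup n J) (w : C.U (B.A n)), range a ⊆ Z ∧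
    (∀ k, b k = u (a k)) ∧ B.io a w = p.1 ∧ B.io b w = p.2}

/-- the image of a tuple -/
def img {n : ℕ} {Z : Set I} {u : I → J} (hu : StrictMonoOn u Z) (a : Tup n I)
    (ha : range a ⊆ Z) : Tup n J :=
  OrderEmbedding.ofStrictMono (fun k => u (a k)) fun k l h =>
    hu (ha ⟨k, rfl⟩) (ha ⟨l, rfl⟩) (a.strictMono h)

theorem Tr_pi {Z : Set I} {u : I → J} (hu : StrictMonoOn u Z) : C.PI (B.Tr Z u) := by
  let 𝒮 : Set (SetRel (C.U (B.ob I)) (C.U (B.ob J))) :=
    {R | ∃ (n : ℕ) (a : Tup n I) (b : Tup n J), range a ⊆ Z ∧ (∀ k, b k = u (a k)) ∧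
      R = (B.io a).graph.inv ○ (B.io b).graph}
  have e : B.Tr Z u = ⋃₀ 𝒮 := by
    ext ⟨x, y⟩
    constructor
    · rintro ⟨n, a, b, w, h1, h2, h3, h4⟩
      exact ⟨_, ⟨n, a, b, h1, h2, rfl⟩, w, h3, h4⟩
    · rintro ⟨_, ⟨n, a, b, h1, h2, rfl⟩, w, h3, h4⟩
      exact ⟨n, a, b, w, h1, h2, h3, h4⟩
  have key : ∀ {n k : ℕ} (a : Tup n I) (b : Tup n J) (c : Tup k I) (d : Tup k J),
      range a ⊆ range c → (∀ l, b l = u (a l)) → (∀ l, d l = u (c l)) →
      (B.io a).graph.inv ○ (B.io b).graph ⊆ (B.io c).graph.inv ○ (B.io d).graph := by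
    intro n k a b c d h hb hd
    obtain ⟨ρ, rfl⟩ := exists_fac h
    have e' : b = ρ.trans d := DFunLike.ext _ _ fun l => (hb l).trans (hd (ρ l)).symm
    subst e'
    rintro ⟨x, y⟩ ⟨w, h3, h4⟩
    exact ⟨B.mp ρ w, (B.io_mp ρ c w).trans h3, (B.io_mp ρ d w).trans h4⟩
  rw [e]
  refine C.pi_union _ ?_ ?_
  · rintro _ ⟨n, a, b, -, -, rfl⟩
    exact C.pi_comp (C.pi_inv (B.io_pi a)) (B.io_pi b)
  · rintro _ ⟨n, a, b, h1, h2, rfl⟩ _ ⟨n', a', b', h1', h2', rfl⟩
    obtain ⟨k, c, hc⟩ := exists_join a a'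
    have hcZ : range c ⊆ Z := hc ▸ union_subset h1 h1'
    exact ⟨_, ⟨k, c, img hu c hcZ, hcZ, fun _ => rfl, rfl⟩,
      key a b c _ (hc ▸ subset_union_left) h2 fun _ => rfl,
      key a' b' c _ (hc ▸ subset_union_right) h2' fun _ => rfl⟩

theorem Tr_dom {Z : Set I} {u : I → J} (hu : StrictMonoOn u Z) :
    (B.Tr Z u).dom = C.cl (B.am I '' Z) := by
  classical
  apply Subset.antisymm
  · rintro x ⟨y, n, a, b, w, h1, -, h3, -⟩
    have h : x ∈ range (B.io a) := ⟨w, h3⟩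
    rw [range_io] at h
    exact C.cl_mono (Set.image_mono h1) h
  · intro x hx
    obtain ⟨t, ht, hxt⟩ := C.cl_fin hx
    obtain ⟨t', ht', rfl⟩ := Finset.subset_set_image_iff.1 ht
    rw [Finset.coe_image] at hxt
    rcases (t' : Set I).eq_empty_or_nonempty with h0 | h0
    · rw [h0, image_empty, C.cl_empty] at hxt
      exact hxt.elim
    obtain ⟨n, a, ha⟩ := exists_tup t'.finite_toSet h0
    rw [← ha, ← range_io] at hxt
    obtain ⟨w, hw⟩ := hxt
    have haZ : range a ⊆ Z := ha ▸ ht'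
    exact ⟨_, n, a, img hu a haZ, w, haZ, fun _ => rfl, hw, rfl⟩

/-- the Ehrenfeucht–Mostowski data of a blueprint -/
noncomputable def toEM : EM C where
  obj I _ := B.ob I
  atm I _ := B.am I
  atm_inj _ _ := B.am_inj
  gen I _ h := eq_univ_of_forall fun y => by
    obtain ⟨n, a, x, hx⟩ := B.io_surj h y
    have h1 : y ∈ range (B.io a) := ⟨x, hx⟩
    rw [range_io] at h1
    exact C.cl_mono (image_subset_range _ _) h1
  Tr Z u := B.Tr Z u
  tr_pi hu := B.Tr_pi hu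
  tr_dom hu := B.Tr_dom hu
  tr_atm := fun {I J} _ _ {Z u} _ z hz =>
    ⟨0, sing z, sing (u z), B.pt 0 0, by rintro _ ⟨k, rfl⟩; exact hz, fun _ => rfl, rfl, rfl⟩
  tr_mono := fun {I J} _ _ {Z Z' u} h p ⟨n, a, b, w, h1, h2⟩ => ⟨n, a, b, w, h1.trans h, h2⟩
  tr_congr := fun {I J} _ _ {Z u v} h => by
    ext p
    constructor
    · rintro ⟨n, a, b, w, h1, h2, h3⟩
      exact ⟨n, a, b, w, h1, fun k => (h2 k).trans (h (h1 ⟨k, rfl⟩)), h3⟩
    · rintro ⟨n, a, b, w, h1, h2, h3⟩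
      exact ⟨n, a, b, w, h1, fun k => (h2 k).trans (h (h1 ⟨k, rfl⟩)).symm, h3⟩
  tr_id := fun {I} _ {Z x y} ⟨n, a, b, w, _, h2, h3, h4⟩ => by
    have e : b = a := DFunLike.ext _ _ h2
    subst e
    exact h3.symm.trans h4
  tr_comp := fun {I J K} _ _ _ {Z Z' u v} _ hv hm ⟨x, z⟩ ⟨y, ⟨n, a, b, w, h1, h2, h3, h4⟩, h5⟩ => by
    have hb : range b ⊆ Z' := by
      rintro _ ⟨k, rfl⟩
      rw [h2]
      exact hm (h1 ⟨k, rfl⟩)
    have h6 : (y, B.io (img hv b hb) w) ∈ B.Tr Z' v :=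
      ⟨n, b, img hv b hb, w, hb, fun _ => rfl, h4, rfl⟩
    exact ⟨n, a, img hv b hb, w, h1, fun k => congrArg v (h2 k), h3,
      C.pi_fun (B.Tr_pi hv) h6 h5⟩

end Blue

end EMxP

theorem em (h : S_Morley) : S_EM := by
  intro κ lam C hh H hl
  obtain ⟨B⟩ := EMxP.exists_blue h C H hl
  exact ⟨B.toEM⟩

end Pool.Agent.P.MP_860a31_lc
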