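import Pool.Agent.P.MP_860a31_lc.Basic

/-!
Every object embeds in a standard object.
-/

open Cardinal hiding univ
open Set SetRel

namespace Pool.Agent.P.MP_860a31_lc

namespace EmbP

theorem directed_of_lt {ι α : Type} [LinearOrder ι] (a : ι → Set α)
    (h : ∀ k l, k < l → a k ⊆ a l) : Directed (· ⊆ ·) a := by
  intro k l
  rcases lt_trichotomy k l with hkl | rfl | hkl
  · exact ⟨l, h k l hkl, Subset.rfl⟩
  · exact ⟨k, Subset.rfl, Subset.rfl⟩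
  · exact ⟨k, Subset.rfl, h l k hkl⟩

/-- the inclusion of the blocks below `i` -/
def w {Λ : Type} [LinearOrder Λ] (B : Type) (i : Λ) (p : Iio i ×ₗ B) : Λ ×ₗ B :=
  toLex ((ofLex p).1.1, (ofLex p).2)

/-- the inclusion of the blocks below `i`, with the top part sent into the block `i` -/
def wp {Λ B : Type} [LinearOrder Λ] (i : Λ) (e : ℕ → B) (p : (Iio i ×ₗ B) ⊕ₗ ℕ) : Λ ×ₗ B :=
  Sum.elim (w B i) (fun n => toLex (i, e n)) (ofLex p)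

theorem w_strictMono {Λ B : Type} [LinearOrder Λ] [LinearOrder B] (i : Λ) :
    StrictMono (w B i) := by
  intro p q h
  rw [Prod.Lex.lt_iff] at h ⊢
  rcases h with h | ⟨h1, h2⟩
  · exact Or.inl h
  · exact Or.inr ⟨congrArg Subtype.val h1, h2⟩

theorem wp_strictMono {Λ B : Type} [LinearOrder Λ] [LinearOrder B] (i : Λ) {e : ℕ → B}
    (he : StrictMono e) : StrictMono (wp i e) := by
  intro p q h
  rcases lo_or_hi p with ⟨x, rfl⟩ | ⟨n, rfl⟩ <;> rcases lo_or_hi q with ⟨y, rfl⟩ | ⟨m, rfl⟩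
  · exact w_strictMono i (lo_strictMono.lt_iff_lt.1 h)
  · exact Prod.Lex.lt_iff.2 (Or.inl (ofLex x).1.2)
  · exact absurd h (lo_lt_hi _ _).not_gt
  · exact Prod.Lex.lt_iff.2 (Or.inr ⟨rfl, he (hi_strictMono.lt_iff_lt.1 h)⟩)

theorem box_subset_w {Λ B : Type} [LinearOrder Λ] (i : Λ) :
    box (Iio i) (univ : Set B) ⊆ w B i '' univ :=
  fun p hp => ⟨toLex (⟨(ofLex p).1, hp.1⟩, (ofLex p).2), trivial, rfl⟩

theorem wp_subset_box {Λ B : Type} [LinearOrder Λ] (i : Λ) (e : ℕ → B) :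
    wp i e '' univ ⊆ box (Iic i) (univ : Set B) := by
  rintro _ ⟨p, -, rfl⟩
  rcases lo_or_hi p with ⟨x, rfl⟩ | ⟨n, rfl⟩
  · exact ⟨le_of_lt (ofLex x).1.2, trivial⟩
  · exact ⟨le_rfl, trivial⟩

/-- one step of the construction -/
theorem step (h : S_Real) {κ lam : Cardinal.{0}} {C : Ctx κ lam} (E : EM C) {μ : Cardinal.{0}}
    (h1 : κ ≤ μ) (h2 : μ < lam) {Λ B : Type} [LinearOrder Λ] [WellFoundedLT Λ] [LinearOrder B]
    {Cc : ℕ → Set B} (hB : IsBlk κ μ B Cc) (i : Λ) [Nonempty (Iio i)]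
    {M : C.Obj} {Γ : SetRel (C.U M) (C.U (E.obj (Λ ×ₗ B)))} (hΓ : C.PI Γ)
    (hc : Γ.cod ⊆ E.sp (box (Iio i) univ)) (a : C.U M) :
    ∃ Δ : SetRel (C.U M) (C.U (E.obj (Λ ×ₗ B))), C.PI Δ ∧ a ∈ Δ.dom ∧
      Δ.cod ⊆ E.sp (box (Iic i) univ) ∧ Γ ⊆ Δ := by
  obtain ⟨e, he⟩ := hB.nat
  have hw := (w_strictMono (B := B) i).strictMonoOn univ
  have hwp := (wp_strictMono i he).strictMonoOn univ
  have hlo := (lo_strictMono (I := Iio i ×ₗ B)).strictMonoOn univ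
  have : Nonempty ((Iio i ×ₗ B) ⊕ₗ ℕ) := ⟨hi _ 0⟩
  have hd : ∀ z, ∃ y, (z, y) ∈ E.Tr univ (wp i e) := fun z => by
    obtain ⟨y, -, hy⟩ := E.tr_map hwp Subset.rfl (x := z) (by rw [E.sp_univ]; trivial)
    exact ⟨y, hy⟩
  obtain ⟨b, Γ', hΓ', hb, hx⟩ := h κ lam C E μ h1 h2 (Iio i) B Cc hB M
    (E.Tr univ (w B i) ○ Γ.inv) (C.pi_comp (E.tr_pi hw) (C.pi_inv hΓ)) a
  refine ⟨Γ'.inv ○ E.Tr univ (wp i e), C.pi_comp (C.pi_inv hΓ') (E.tr_pi hwp), ?_, ?_, ?_⟩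
  · obtain ⟨y, hy⟩ := hd b
    exact ⟨y, b, hb, hy⟩
  · rintro y ⟨m, z, -, hz⟩
    refine E.sp_mono (wp_subset_box i e) ?_
    rw [← E.tr_cod hwp]
    exact ⟨z, hz⟩
  · rintro ⟨m, y⟩ hmy
    obtain ⟨x, hx1, hxy⟩ := E.tr_back hw Subset.rfl (E.sp_mono (box_subset_w i) (hc ⟨m, hmy⟩))
    obtain ⟨z, -, hxz⟩ := E.tr_map hlo Subset.rfl hx1
    obtain ⟨y', hy'⟩ := hd z
    have h3 : (x, y') ∈ E.Tr univ (w B i) :=
      E.tr_comp hlo hwp (mapsTo_univ _ _) ⟨z, hxz, hy'⟩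
    have e' := C.pi_fun (E.tr_pi hw) hxy h3
    subst e'
    exact ⟨z, hx x m z ⟨y, hxy, hmy⟩ hxz, hy'⟩

end EmbP

theorem emb (h : S_Real) : S_Emb := by
  intro κ lam C E μ h1 h2 B _ Cc hB M
  obtain ⟨_, _⟩ := exists_wellFoundedLT (C.U M)
  refine ⟨WithBot (C.U M), inferInstance, inferInstance, inferInstance,
    (mk_option (α := C.U M)).le, ?_⟩
  obtain ⟨a, ha, hmono⟩ := chain_rec (Λ := C.U M)
    (A := SetRel (C.U M) (C.U (E.obj (WithBot (C.U M) ×ₗ B))))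
    (fun i Γ => C.PI Γ ∧ i ∈ Γ.dom ∧ Γ.cod ⊆ E.sp (box (Iic (i : WithBot (C.U M))) univ))
    (· ⊆ ·) (by
      intro i a ha hmono
      have : Nonempty (Iio (i : WithBot (C.U M))) := ⟨⟨⊥, WithBot.bot_lt_coe i⟩⟩
      have hc : SetRel.cod (⋃ k, a k) ⊆ E.sp (box (Iio (i : WithBot (C.U M))) univ) := by
        rintro y ⟨m, hmy⟩
        obtain ⟨k, hk⟩ := mem_iUnion.1 hmy
        refine E.sp_mono (box_mono ?_ Subset.rfl) ((ha k).2.2 ⟨m, hk⟩)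
        exact Iic_subset_Iio.2 (WithBot.coe_lt_coe.2 k.2)
      obtain ⟨Δ, hΔ, hi, hcod, hsub⟩ := EmbP.step h E h1 h2 hB (i : WithBot (C.U M))
        (Ctx.pi_iUnion a (fun k => (ha k).1) (EmbP.directed_of_lt a hmono)) hc i
      exact ⟨Δ, ⟨hΔ, hi, hcod⟩, fun k => (subset_iUnion a k).trans hsub⟩)
  have hP := Ctx.pi_iUnion a (fun k => (ha k).1) (EmbP.directed_of_lt a hmono)
  obtain ⟨g, hg⟩ := Ctx.exists_fun hP (eq_univ_of_forall fun i => by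
    obtain ⟨y, hy⟩ := (ha i).2.1
    exact ⟨y, mem_iUnion.2 ⟨i, hy⟩⟩)
  exact ⟨g, hg ▸ hP⟩

end Pool.Agent.P.MP_860a31_lc
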