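import Pool.Agent.P.MP_860a31_lc.Basic

/-!
An extension of the same size realising all types.
-/

open Cardinal hiding univ
open Set SetRel

namespace Pool.Agent.P.MP_860a31_lc

namespace ExtP

variable {κ lam : Cardinal.{0}} {C : Ctx κ lam} {Ω : Type}

/-- the relation identifying points with the same name -/
def rel (a b : Amb C Ω) : SetRel (C.U a.M) (C.U b.M) := {p | a.j p.1 = b.j p.2}

theorem mem_rel {a b : Amb C Ω} {x : C.U a.M} {y : C.U b.M} :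
    (x, y) ∈ rel a b ↔ a.j x = b.j y := Iff.rfl

theorem le_pi {a b : Amb C Ω} (h : a.le b) : C.PI (rel a b) := h.1

theorem amb_refl (a : Amb C Ω) : a.le a := by
  refine ⟨?_, Subset.rfl⟩
  have : {p : C.U a.M × C.U a.M | a.j p.1 = a.j p.2} = idOn univ := by
    ext ⟨x, y⟩
    simp [a.inj.eq_iff]
  rw [this]
  exact Ctx.pi_idOn_univ

theorem amb_trans {a b c : Amb C Ω} (h : a.le b) (h' : b.le c) : a.le c := by
  refine ⟨?_, h.2.trans h'.2⟩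
  have : {p : C.U a.M × C.U c.M | a.j p.1 = c.j p.2} = rel a b ○ rel b c := by
    ext ⟨x, z⟩
    constructor
    · intro e
      obtain ⟨y, hy⟩ := h.2 ⟨x, rfl⟩
      exact ⟨y, hy.symm, hy.trans e⟩
    · rintro ⟨y, h1, h2⟩
      exact (mem_rel.1 h1).trans (mem_rel.1 h2)
  rw [this]
  exact C.pi_comp (le_pi h) (le_pi h')

/-- `w` and `w'` have the same type over the points named in `S` -/
def Eqv (S : Set Ω) (a : Amb C Ω) (w w' : Ω) : Prop :=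
  ∃ Δ : SetRel (C.U a.M) (C.U a.M), C.PI Δ ∧ (∀ x, a.j x ∈ S → (x, x) ∈ Δ) ∧
    ∃ x x', a.j x = w ∧ a.j x' = w' ∧ (x, x') ∈ Δ

theorem Eqv.symm {S : Set Ω} {a : Amb C Ω} {w w' : Ω} (h : Eqv S a w w') : Eqv S a w' w := by
  obtain ⟨Δ, h1, h2, x, x', h3, h4, h5⟩ := h
  exact ⟨Δ.inv, C.pi_inv h1, fun y hy => h2 y hy, x', x, h4, h3, h5⟩

theorem Eqv.back {S : Set Ω} {a b : Amb C Ω} (hab : a.le b) {w w' : Ω} (h : Eqv S b w w')
    (hw : w ∈ range a.j) (hw' : w' ∈ range a.j) : Eqv S a w w' := by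
  obtain ⟨Δ, h1, h2, x, x', h3, h4, h5⟩ := h
  obtain ⟨y, hy⟩ := hw
  obtain ⟨y', hy'⟩ := hw'
  refine ⟨rel a b ○ (Δ ○ (rel a b).inv),
    C.pi_comp (le_pi hab) (C.pi_comp h1 (C.pi_inv (le_pi hab))), fun z hz => ?_,
    y, y', hy, hy', x, hy.trans h3.symm, x', h5, hy'.trans h4.symm⟩
  obtain ⟨t, ht⟩ := hab.2 ⟨z, rfl⟩
  exact ⟨t, ht.symm, t, h2 t (ht ▸ hz), ht.symm⟩

/-- one step: a new point of a new type -/
theorem step (h1 : S_Amb) {θ : Cardinal.{0}} (hκ : κ ≤ θ) (hΩ : θ < #Ω) (a0 : Amb C Ω)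
    (hne : ∀ (N : C.Obj) (f : C.U a0.M → C.U N), C.PI f.graph → #(C.U N) ≤ θ →
      ∃ (Q : C.Obj) (Γ : SetRel (C.U a0.M) (C.U Q)), C.PI Γ ∧ ∃ q : C.U Q,
        ∀ (b : C.U N) (Γ' : SetRel (C.U N) (C.U Q)), C.PI Γ' → (b, q) ∈ Γ' →
          ∃ x y, (x, y) ∈ Γ ∧ (f x, y) ∉ Γ')
    (b : Amb C Ω) (hb : a0.le b) (hbc : #(C.U b.M) ≤ θ) :
    ∃ (b' : Amb C Ω) (w' : Ω), b.le b' ∧ #(C.U b'.M) ≤ θ ∧ w' ∈ range b'.j ∧
      ∀ w ∈ range b.j, ¬ Eqv (range a0.j) b' w w' := by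
  have hinf : ℵ₀ ≤ θ := C.inf.trans hκ
  obtain ⟨f, hf⟩ := Ctx.exists_fun (le_pi hb) (eq_univ_of_forall fun x => by
    obtain ⟨y, hy⟩ := hb.2 ⟨x, rfl⟩
    exact ⟨y, hy.symm⟩)
  have hfp : C.PI f.graph := hf ▸ le_pi hb
  have hfj : ∀ x, b.j (f x) = a0.j x := fun x => by
    have : (x, f x) ∈ rel a0 b := hf ▸ rfl
    exact (mem_rel.1 this).symm
  obtain ⟨Q, Γ, hΓ, q, hq⟩ := hne b.M f hfp hbc
  obtain ⟨P, F, G, hF, hG, hFG⟩ := C.ap (C.pi_comp (C.pi_inv hfp) hΓ)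
  obtain ⟨N', h, hh, hr⟩ := C.sub (C.cl_cl (range F ∪ {G q}))
    ⟨G q, C.sub_cl _ (Or.inr rfl)⟩
  obtain ⟨F', hF'⟩ := Ctx.exists_fun (C.pi_comp hF (C.pi_inv hh)) (eq_univ_of_forall fun x => by
    obtain ⟨y, hy⟩ : F x ∈ range h := hr ▸ C.sub_cl _ (Or.inl ⟨x, rfl⟩)
    exact ⟨y, F x, rfl, hy⟩)
  have hF'p : C.PI F'.graph := hF' ▸ C.pi_comp hF (C.pi_inv hh)
  have hhF : ∀ x, h (F' x) = F x := fun x => by
    have : (x, F' x) ∈ F.graph ○ h.graph.inv := hF' ▸ rfl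
    obtain ⟨y, e1, e2⟩ := this
    exact (show h (F' x) = y from e2).trans (show F x = y from e1).symm
  have hN' : #(C.U N') ≤ θ := by
    rw [← mk_range_eq _ (Ctx.emb_inj hh), hr]
    refine Ctx.card_cl_le hκ ((mk_union_le _ _).trans (add_le_of_le hinf ?_ ?_))
    · exact mk_range_le.trans hbc
    · rw [mk_singleton]; exact one_le_aleph0.trans hinf
  obtain ⟨j, hj, hjF, hle⟩ := (h1 κ lam C Ω).2 b N' F' hF'p (hinf.trans hΩ.le) (hN'.trans_lt hΩ)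
  obtain ⟨q', hq'⟩ : G q ∈ range h := hr ▸ C.sub_cl _ (Or.inr rfl)
  refine ⟨⟨N', j, hj⟩, j q', hle, hN', ⟨q', rfl⟩, ?_⟩
  rintro _ ⟨z, rfl⟩ ⟨Δ, hΔ, hfix, x, x', e1, e2, hx⟩
  have e1' : x = F' z := hj (e1.trans (hjF z).symm)
  have e2' : x' = q' := hj e2
  subst e1' e2'
  obtain ⟨x, y, hxy, hn⟩ := hq z (F'.graph ○ (Δ ○ (h.graph ○ G.graph.inv)))
    (C.pi_comp hF'p (C.pi_comp hΔ (C.pi_comp hh (C.pi_inv hG))))
    ⟨F' z, rfl, x', hx, h x', rfl, hq'.symm⟩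
  refine hn ⟨F' (f x), rfl, F' (f x), hfix _ ⟨x, ?_⟩, h (F' (f x)), rfl, ?_⟩
  · exact ((hjF _).trans (hfj x)).symm
  · exact ((hhF _).trans (hFG (f x) y ⟨x, rfl, hxy⟩)).symm

theorem directed_range {ι : Type} [LinearOrder ι] (a : ι → Amb C Ω)
    (h : ∀ k l, k < l → (a k).le (a l)) : DirectedOn Amb.le (range a) := by
  rintro _ ⟨k, rfl⟩ _ ⟨l, rfl⟩
  rcases lt_trichotomy k l with e | e | e
  · exact ⟨a l, ⟨l, rfl⟩, h k l e, amb_refl _⟩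
  · subst e; exact ⟨a k, ⟨k, rfl⟩, amb_refl _, amb_refl _⟩
  · exact ⟨a k, ⟨k, rfl⟩, amb_refl _, h l k e⟩

/-- a small upper bound of a short chain above `a0` -/
theorem small_ub (h1 : S_Amb) {θ : Cardinal.{0}} (hinf : ℵ₀ ≤ θ) {ι : Type} [LinearOrder ι]
    (hι : #ι ≤ θ) (a0 : Amb C Ω) (h0 : #(C.U a0.M) ≤ θ) (a : ι → Amb C Ω)
    (hl : ∀ k, a0.le (a k)) (hc : ∀ k, #(C.U (a k).M) ≤ θ)
    (h : ∀ k l, k < l → (a k).le (a l)) :
    ∃ b : Amb C Ω, a0.le b ∧ (∀ k, (a k).le b) ∧ #(C.U b.M) ≤ θ := by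
  rcases isEmpty_or_nonempty ι with hE | ⟨⟨k0⟩⟩
  · exact ⟨a0, amb_refl _, fun k => isEmptyElim k, h0⟩
  obtain ⟨b, hb, hr⟩ := (h1 κ lam C Ω).1 (range a) ⟨_, k0, rfl⟩ (directed_range a h)
  refine ⟨b, amb_trans (hl k0) (hb _ ⟨k0, rfl⟩), fun k => hb _ ⟨k, rfl⟩, ?_⟩
  rw [← mk_range_eq _ b.inj, hr, biUnion_range]
  refine mk_iUnion_le_sum_mk.trans ((sum_le_sum _ (fun _ => θ) fun k => ?_).trans ?_)
  · exact mk_range_le.trans (hc k)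
  · rw [sum_const']
    exact mul_le_of_le hinf hι le_rfl

end ExtP

open ExtP in
theorem ext (h1 : S_Amb) (h2 : S_Stb) : S_Ext := by
  intro κ lam C E θ hκ hθ M hM
  by_contra hne
  push Not at hne
  have hinf : ℵ₀ ≤ θ := C.inf.trans hκ
  have hΩ : θ < #(Order.succ θ).out := by rw [mk_out]; exact Order.lt_succ θ
  obtain ⟨j0⟩ : Nonempty (C.U M ↪ (Order.succ θ).out) := (le_def _ _).1 (hM.trans hΩ.le)
  let a0 : Amb C (Order.succ θ).out := ⟨M, j0, j0.injective⟩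
  obtain ⟨a, ha, hR⟩ := chain_rec (Λ := (Order.succ θ).ord.ToType)
    (A := Amb C (Order.succ θ).out × (Order.succ θ).out)
    (fun _ x => a0.le x.1 ∧ #(C.U x.1.M) ≤ θ ∧ x.2 ∈ range x.1.j)
    (fun x y => x.1.le y.1 ∧ ¬ Eqv (range a0.j) y.1 x.2 y.2) (by
      intro i a hP hR
      obtain ⟨b, hb0, hb, hbc⟩ := small_ub h1 hinf
        (Order.lt_succ_iff.1 (mk_Iio_toType_ord_lt i)) a0 hM (fun k => (a k).1)
        (fun k => (hP k).1) (fun k => (hP k).2.1) (fun k l h => (hR k l h).1)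
      obtain ⟨b', w', hbb, hc, hw, hn⟩ := step h1 hκ hΩ a0 hne b hb0 hbc
      exact ⟨(b', w'), ⟨amb_trans hb0 hbb, hc, hw⟩,
        fun k => ⟨amb_trans (hb k) hbb, hn _ ((hb k).2 (hP k).2.2)⟩⟩)
  have hΛ : θ < #(Order.succ θ).ord.ToType := by rw [mk_ord_toType]; exact Order.lt_succ θ
  have hne' : Nonempty (Order.succ θ).ord.ToType := by
    rw [← mk_ne_zero_iff]; exact (pos_of_gt hΛ).ne'
  obtain ⟨b, hb, -⟩ := (h1 κ lam C _).1 (range fun i => (a i).1) (range_nonempty _)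
    (directed_range _ fun k l h => (hR k l h).1)
  have hb' : ∀ i, (a i).1.le b := fun i => hb _ ⟨i, rfl⟩
  choose x hx using fun i => (hb' i).2 (ha i).2.2
  have hA : #{y : C.U b.M | b.j y ∈ range a0.j} ≤ θ :=
    (mk_preimage_of_injective b.j (range a0.j) b.inj).trans (mk_range_le.trans hM)
  obtain ⟨k, l, hkl, Δ, hΔ, hfix, hp⟩ := h2 κ lam C E θ hκ hθ b.M _ hA _ x hΛ
  have hE : Eqv (range a0.j) b (a k).2 (a l).2 := ⟨Δ, hΔ, hfix, x k, x l, hx k, hx l, hp⟩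
  rcases lt_or_gt_of_ne hkl with e | e
  · exact (hR k l e).2 (hE.back (hb' l) ((hR k l e).1.2 (ha k).2.2) (ha l).2.2)
  · exact (hR l k e).2 (hE.symm.back (hb' k) ((hR l k e).1.2 (ha l).2.2) (ha k).2.2)

end Pool.Agent.P.MP_860a31_lc
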