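import Pool.Agent.P.MP_860a31_lc.Basic

/-!
Extension of a group element to one new block.
-/

open Cardinal hiding univ
open Set SetRel

namespace Pool.Agent.P.MP_860a31_lc

namespace Fill1P

variable {I : Type} [LinearOrder I] {s0 : Set I} {κ : Cardinal.{0}} (P : Psh I s0 κ)

theorem res_res {S S' S'' : Set I} (h : Mor s0 S S' id) (h' : Mor s0 S' S'' id)
    (h'' : Mor s0 S S'' id) (g : P.G S'') : P.res id h (P.res id h' g) = P.res id h'' g :=
  P.res_comp h h' g

theorem triv_mono {S T T' : Set I} {g : P.G S} (hT : Mor s0 T S id) (h : P.Triv g T)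
    (h' : T' ⊆ T) : P.Triv g T' := fun h1 => by
  rw [← res_res P (Mor.incl h1.base h') hT h1, h hT, map_one]

theorem box_iUnion {Λ B : Type} (V : Set Λ) (C : ℕ → Set B) (h : ∀ x, ∃ k, x ∈ C k) :
    box V univ = ⋃ k, box V (C k) := by
  ext p
  simp only [mem_iUnion]
  exact ⟨fun hp => (h _).imp fun _ hk => ⟨hp.1, hk⟩, fun ⟨_, hk⟩ => ⟨hk.1, trivial⟩⟩

open Classical in
theorem mor_shift {Λ B : Type} [LinearOrder Λ] [LinearOrder B] {s0 : Set (Λ ×ₗ B)} {T : Set B}
    (hT : IsLowerSet T) {s : B → B} (h1 : StrictMonoOn s T) (h2 : ∀ x ∈ T, s x ∉ T) {W : Set Λ}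
    {d β : Λ} (hd : d ∉ W) (hβ : β ∈ W) (h3 : β < d) (h4 : ∀ v ∈ W, v < d → v ≤ β)
    (h0 : s0 ⊆ box W T) : Mor s0 (box (insert d W) T) (box W univ)
      fun p => if (ofLex p).1 = d then toLex (β, s (ofLex p).2) else p := by
  refine ⟨h0.trans (box_mono (subset_insert _ _) Subset.rfl), fun p hp q hq h => ?_,
    fun p hp => ?_, fun p hp => if_neg fun (e : (ofLex p).1 = d) => hd (e ▸ (h0 hp).1)⟩
  · rw [Prod.Lex.lt_iff] at h
    by_cases e1 : (ofLex p).1 = d <;> by_cases e2 : (ofLex q).1 = d <;>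
      simp only [e1, e2, if_true, if_false, Prod.Lex.lt_iff, ofLex_toLex]
    · exact Or.inr ⟨trivial, h1 hp.2 hq.2 (h.resolve_left (by simp [e1, e2])).2⟩
    · exact Or.inl (h3.trans (e1 ▸ h.resolve_right fun e => e2 (e.1 ▸ e1)))
    · have := h4 _ (hp.1.resolve_left e1) (e2 ▸ h.resolve_right fun e => e1 (e.1 ▸ e2))
      refine this.lt_or_eq.imp_right fun e => ⟨e, not_le.1 fun e' => h2 _ hq.2 (hT e' hp.2)⟩
    · exact h
  · by_cases e1 : (ofLex p).1 = d <;> simp only [e1, if_true, if_false]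
    exacts [⟨hβ, trivial⟩, ⟨hp.1.resolve_left e1, trivial⟩]

theorem core (h : S_Stab) (κ μ : Cardinal.{0}) (hκ : ℵ₀ ≤ κ) (Λ B : Type) [LinearOrder Λ]
    [LinearOrder B] (C : ℕ → Set B) (hB : IsBlk κ μ B C) (s0 : Set (Λ ×ₗ B))
    (P : Psh (Λ ×ₗ B) s0 κ) (V : Set Λ) (hV : V.Finite) (h0 : s0 ⊆ box V (C 0))
    (d β : Λ) (hd : d ∉ V) (hβ : β ∈ V) (h3 : β < d) (h4 : ∀ v ∈ V, v < d → v ≤ β)
    (g : P.G (box V univ)) :
    ∃ g' : P.G (box (insert d V) univ), P.Agree g' g (box V univ) ∧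
      ∀ W ⊆ V, β ∈ W → s0 ⊆ box W univ → P.Triv g (box W univ) →
        P.Triv g' (box (insert d W) univ) := by
  have b0 : ∀ W, s0 ⊆ box W univ → ∀ k, s0 ⊆ box W (C k) := fun W hW k p hp =>
    ⟨(hW hp).1, hB.mono (Nat.zero_le k) (h0 hp).2⟩
  have b1 : s0 ⊆ box V univ := h0.trans (box_mono Subset.rfl (subset_univ _))
  have b2 : ∀ W T, s0 ⊆ box W T → s0 ⊆ box (insert d W) T := fun W T hW =>
    hW.trans (box_mono (subset_insert _ _) Subset.rfl)
  have m1 : ∀ {j k}, j ≤ k → Mor s0 (box (insert d V) (C j)) (box (insert d V) (C k)) id :=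
    fun hjk => Mor.incl (b2 _ _ (b0 V b1 _)) (box_mono Subset.rfl (hB.mono hjk))
  have m2 : ∀ k, Mor s0 (box (insert d V) (C k)) (box (insert d V) univ) id :=
    fun k => Mor.incl (b2 _ _ (b0 V b1 _)) (box_mono Subset.rfl (subset_univ _))
  let Sol : ∀ k, P.G (box (insert d V) (C k)) → Prop := fun k σ => P.Agree σ g (box V (C k)) ∧
    ∀ W ⊆ V, β ∈ W → s0 ⊆ box W univ → P.Triv g (box W univ) → P.Triv σ (box (insert d W) (C k))
  have s1 : ∀ k, ∃ σ, Sol k σ := fun k => by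
    obtain ⟨s, a1, a2⟩ := hB.sh k
    have mW := fun W (hW : W ⊆ V) (a : β ∈ W) (b : s0 ⊆ box W univ) =>
      mor_shift (hB.lower k) a1 a2 (fun e => hd (hW e)) a h3 (fun v hv => h4 v (hW hv)) (b0 W b k)
    refine ⟨P.res _ (mW V Subset.rfl hβ b1) g, fun c c' => ?_, fun W hW a b t c => ?_⟩
    · rw [P.res_comp]
      exact P.res_congr _ _ (fun p hp => if_neg fun (e : (ofLex p).1 = d) => hd (e ▸ hp.1)) g
    · have m := Mor.incl b (box_mono hW (Subset.rfl : (univ : Set B) ⊆ univ))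
      have e := P.res_comp (mW W hW a b) m g
      rw [t m, map_one] at e
      rw [P.res_comp]
      exact e.symm
  have s2 : ∀ {j k} (hjk : j ≤ k) σ, Sol k σ → Sol j (P.res id (m1 hjk) σ) := fun hjk σ a => by
    refine ⟨fun c c' => ?_, fun W hW x y t c => ?_⟩
    · have m := Mor.incl c.base (box_mono (Subset.rfl : V ⊆ V) (hB.mono hjk))
      have m' := Mor.incl m.base' (box_mono (subset_insert d V) (Subset.rfl : C _ ⊆ C _))
      have m'' := Mor.incl m.base' (box_mono (Subset.rfl : V ⊆ V) (subset_univ (C _)))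
      rw [res_res P c _ (m.comp m'), ← res_res P m m', a.1 m' m'', res_res P m m'' c']
    · rw [res_res P c _ (c.comp (m1 hjk))]
      exact triv_mono P (Mor.incl (b2 _ _ (b0 W y _)) (box_mono (insert_subset_insert hW) Subset.rfl))
        (a.2 W hW x y t) (box_mono Subset.rfl (hB.mono hjk)) _
  have s3 : ∀ k (τ : {τ // Sol (k + 1) τ}), ∃ τ' : {τ // Sol (k + 2) τ},
      P.res id (m1 (Nat.le_add_right k 2)) τ'.1 = P.res id (m1 (Nat.le_succ k)) τ.1 := fun k τ => by
    obtain ⟨σ, a⟩ := s1 (k + 2)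
    have a' := s2 (Nat.le_succ (k + 1)) σ a
    obtain ⟨δ, c1, c2⟩ := h κ μ hκ Λ B C hB s0 P (insert d V) (hV.insert d) k (b2 _ _ (b0 V b1 k))
      (τ.1 * (P.res id (m1 (Nat.le_succ (k + 1))) σ)⁻¹)
    refine ⟨⟨P.res id (m2 (k + 2)) δ * σ, fun c c' => ?_, fun W hW x y t c => ?_⟩, ?_⟩
    · have t : P.Triv δ (box V univ) := c2 V (subset_insert _ _) (b0 V b1 k) fun m => by
        have m' := Mor.incl m.base (box_mono (Subset.rfl : V ⊆ V) (subset_univ (C (k + 1))))
        rw [map_mul, map_inv, τ.2.1 m m', a'.1 m m', mul_inv_cancel]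
      rw [map_mul, a.1 c c', res_res P c _ (c.comp (m2 _)), triv_mono P (Mor.incl b1
        (box_mono (subset_insert _ _) Subset.rfl)) t (box_mono Subset.rfl (subset_univ _)), one_mul]
    · have t' : P.Triv δ (box (insert d W) univ) := c2 _ (insert_subset_insert hW)
        (b2 _ _ (b0 W y k)) fun m => by
          rw [map_mul, map_inv, τ.2.2 W hW x y t m, a'.2 W hW x y t m, mul_inv_cancel]
      rw [map_mul, a.2 W hW x y t c, res_res P c _ (c.comp (m2 _)), triv_mono P (Mor.incl (b2 _ _ y)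
        (box_mono (insert_subset_insert hW) Subset.rfl)) t' (box_mono Subset.rfl (subset_univ _)),
        one_mul]
    · simp only
      rw [map_mul, res_res P _ _ (m2 k), ← c1 (m1 (Nat.le_succ k)) (m2 k), map_mul, map_inv,
        res_res P _ _ (m1 (Nat.le_add_right k 2)), inv_mul_cancel_right]
  choose F hF using s3
  obtain ⟨σ1, a1⟩ := s1 1
  let τ : ∀ k, {τ // Sol (k + 1) τ} := fun k => Nat.rec ⟨σ1, a1⟩ F k
  let ρ : ∀ k, P.G (box (insert d V) (C k)) := fun k => P.res id (m1 (Nat.le_succ k)) (τ k).1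
  have r1 : ∀ k, Sol k (ρ k) := fun k => s2 (Nat.le_succ k) _ (τ k).2
  have r2 : ∀ j k, j ≤ k → ∀ m : Mor s0 (box (insert d V) (C j)) (box (insert d V) (C k)) id,
      P.res id m (ρ k) = ρ j := fun j k hjk => by
    induction hjk with
    | refl => exact fun m => P.res_id m _
    | @step k hjk ih =>
      intro m
      rw [← res_res P (m1 hjk) (m1 (Nat.le_succ k)) m, ← ih (m1 hjk)]
      congr 1
      exact (res_res P _ _ (m1 (Nat.le_add_right k 2)) _).trans (hF k (τ k))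
  have mono : ∀ W : Set Λ, Monotone fun k => box W (C k) :=
    fun W _ _ hjk => box_mono Subset.rfl (hB.mono hjk)
  obtain ⟨g', hg'⟩ := P.glue ℕ (fun k => box (insert d V) (C k)) _ (mono _)
    (fun k => b2 _ _ (b0 V b1 k)) (box_iUnion _ C hB.cover) ρ r2
  refine ⟨g', fun c c' => P.sep ℕ (fun k => box V (C k)) _ (mono _) (b0 V b1)
    (box_iUnion _ C hB.cover) _ _ fun k m => ?_, fun W hW x y t c => P.sep ℕ
      (fun k => box (insert d W) (C k)) _ (mono _) (fun k => b2 _ _ (b0 W y k))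
      (box_iUnion _ C hB.cover) _ _ fun k m => ?_⟩
  · have m' := Mor.incl m.base (box_mono (subset_insert d V) (Subset.rfl : C k ⊆ C k))
    rw [res_res P m c (m.comp c), ← res_res P m' (m2 k), hg', (r1 k).1 m' (m.comp c'),
      res_res P m c' (m.comp c')]
  · have m' := Mor.incl m.base (box_mono (insert_subset_insert hW) (Subset.rfl : C k ⊆ C k))
    rw [res_res P m c (m.comp c), ← res_res P m' (m2 k), hg', (r1 k).2 W hW x y t m', map_one]

end Fill1P

theorem fill1 (h : S_Stab) : S_Fill1 := by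
  intro κ μ hκ Λ B _ _ C hB s0 hs P V hV h0 d β hd hβ h3 h4 g
  choose f hf using hB.cover
  obtain ⟨k0, hk⟩ := (hs.image fun p => f (ofLex p).2).bddAbove
  exact Fill1P.core h κ μ hκ Λ B (fun k => C (k0 + k)) ⟨hB.card, fun k => hB.lower _,
    fun _ _ a => hB.mono (Nat.add_le_add_left a k0),
    fun x => ⟨f x, hB.mono (Nat.le_add_left _ _) (hf x)⟩, hB.cnt, fun k => hB.emb (k0 + k),
    fun k => hB.sh _, hB.nat⟩ s0 P V hV
    (fun p hp => ⟨(h0 hp).1, hB.mono (hk (mem_image_of_mem _ hp)) (hf _)⟩) d β hd hβ h3 h4 g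

end Pool.Agent.P.MP_860a31_lc
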