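import Pool.Agent.P.MP_860a31_lc.InstDefs

/-!
Closure and isomorphisms between closed sets in an AEC with intersections.
-/

open FirstOrder FirstOrder.Language
open Cardinal hiding univ
open Set SetRel

namespace Pool.Agent.P.MP_860a31_lc

namespace AEC

variable {L : FirstOrder.Language.{0, 0}} (K : AEC L) {M N P : Type} [L.Structure M]
  [L.Structure N] [L.Structure P]

theorem ls_spec : ℵ₀ ≤ K.LS ∧ L.card ≤ K.LS ∧ ∀ (M : Type) [L.Structure M], K.Mem M →
    ∀ A : Set M, ∃ S : L.Substructure M, K.Strong S ∧ A ⊆ S ∧ #S ≤ #A + K.LS :=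
  csInf_mem K.exists_LS

variable {K}

theorem emb_map {f : M ↪[L] N} (hf : K.IsEmb f) {T : L.Substructure M} (hT : K.Strong T) :
    K.Strong (T.map f.toHom) := by
  have h := K.trans _ _ hf (K.strong_iso f.equivRange T hT)
  rw [Substructure.map_map] at h
  have e : f.toHom.range.subtype.toHom.comp f.equivRange.toHom = f.toHom := by
    ext x; rfl
  rwa [e] at h

theorem emb_comap {f : M ↪[L] N} (hf : K.IsEmb f) {T : L.Substructure N} (hT : K.Strong T)
    (h : T ≤ f.toHom.range) : K.Strong (T.comap f.toHom) := by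
  have h1 := K.strong_iso f.equivRange.symm _ (K.coherence _ T hf hT h)
  have e : (T.comap f.toHom.range.subtype.toHom).map f.equivRange.symm.toHom =
      T.comap f.toHom := by
    ext x
    simp only [Substructure.mem_map, Substructure.mem_comap]
    constructor
    · rintro ⟨y, hy, rfl⟩
      have : f (f.equivRange.symm y) = y := by
        rw [← Embedding.equivRange_apply, Language.Equiv.apply_symm_apply]
      change f (f.equivRange.symm y) ∈ T
      rw [this]; exact hy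
    · intro hx
      exact ⟨f.equivRange x, hx, f.equivRange.symm_apply_apply x⟩
  rwa [e] at h1

theorem isEmb_comp {f : M ↪[L] N} {g : N ↪[L] P} (hf : K.IsEmb f) (hg : K.IsEmb g) :
    K.IsEmb (g.comp f) := by
  have h := emb_map hg hf
  rwa [← Hom.range_comp] at h

theorem isEmb_subtype {S : L.Substructure M} (hS : K.Strong S) : K.IsEmb S.subtype := by
  rwa [IsEmb, Substructure.range_subtype]

theorem isEmb_equiv (e : M ≃[L] N) (hN : K.Mem N) : K.IsEmb e.toEmbedding := by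
  have : e.toEmbedding.toHom.range = ⊤ := e.toHom_range
  rw [IsEmb, this]; exact K.refl N hN

theorem IsEmb.mem_left {f : M ↪[L] N} (hf : K.IsEmb f) : K.Mem M :=
  K.mem_iso f.equivRange.symm (K.strong_mem _ hf).2

theorem IsEmb.mem_right {f : M ↪[L] N} (hf : K.IsEmb f) : K.Mem N := (K.strong_mem _ hf).1

variable (K) in
/-- the intersection of the strong substructures containing `A` -/
def clS (A : Set M) : L.Substructure M := sInf {S : L.Substructure M | K.Strong S ∧ A ⊆ S}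

variable (K) in
/-- the closure operator, with the empty set declared closed -/
def cl (A : Set M) : Set M := {x | A.Nonempty ∧ x ∈ K.clS A}

theorem sub_clS (A : Set M) : A ⊆ K.clS A := fun _ hx =>
  Substructure.mem_sInf.2 fun _ hS => hS.2 hx

theorem clS_le {A : Set M} {S : L.Substructure M} (hS : K.Strong S) (h : A ⊆ S) : K.clS A ≤ S :=
  sInf_le ⟨hS, h⟩

theorem clS_mono {A B : Set M} (h : A ⊆ B) : K.clS A ≤ K.clS B :=
  sInf_le_sInf fun _ hS => ⟨hS.1, h.trans hS.2⟩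

theorem cl_eq {A : Set M} (h : A.Nonempty) : K.cl A = K.clS A := by
  ext x; simp [cl, h]

theorem cl_empty : K.cl (∅ : Set M) = ∅ := by
  ext x; simp [cl]

theorem sub_cl (A : Set M) : A ⊆ K.cl A := fun x hx => ⟨⟨x, hx⟩, sub_clS A hx⟩

theorem cl_mono {A B : Set M} (h : A ⊆ B) : K.cl A ⊆ K.cl B := fun _ hx =>
  ⟨hx.1.mono h, clS_mono h hx.2⟩

theorem cl_cl (A : Set M) : K.cl (K.cl A) = K.cl A := by
  refine Subset.antisymm (fun x hx => ?_) (sub_cl _)
  obtain ⟨y, hy⟩ := hx.1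
  refine ⟨hy.1, Substructure.mem_sInf.2 fun S hS => ?_⟩
  exact clS_le hS.1 (fun z hz => clS_le hS.1 hS.2 hz.2) hx.2

theorem cl_strong {S : L.Substructure M} (hS : K.Strong S) : K.cl (S : Set M) = S :=
  Subset.antisymm (fun _ hx => clS_le hS Subset.rfl hx.2) (sub_cl _)

theorem cl_card (hM : K.Mem M) (A : Set M) : #(K.cl A) ≤ #A + K.LS := by
  obtain ⟨S, hS, hA, hc⟩ := K.ls_spec.2.2 M hM A
  exact (mk_le_mk_of_subset (fun x hx => clS_le hS hA hx.2)).trans hc

theorem strong_of_closed (hI : K.Intersections) (hM : K.Mem M) {S : L.Substructure M}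
    (hne : (S : Set M).Nonempty) (h : K.cl (S : Set M) = S) : K.Strong S := by
  have h1 : K.clS (S : Set M) = S := SetLike.coe_injective ((cl_eq hne).symm.trans h)
  rw [← h1]; exact hI M hM _ hne

theorem cl_fin (hD : S_DirS) (hI : K.Intersections) (hM : K.Mem M) {A : Set M} {x : M}
    (hx : x ∈ K.cl A) : ∃ t : Finset M, (t : Set M) ⊆ A ∧ x ∈ K.cl (t : Set M) := by
  classical
  obtain ⟨a, ha⟩ := hx.1
  let ι := {t : Finset M // (t : Set M) ⊆ A ∧ t.Nonempty}
  have : Nonempty ι := ⟨⟨{a}, by simpa using ha, by simp⟩⟩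
  have : IsDirected ι (· ≤ ·) := ⟨fun s t => ⟨⟨s.1 ∪ t.1, by
    rw [Finset.coe_union]; exact union_subset s.2.1 t.2.1, s.2.2.mono Finset.subset_union_left⟩,
      Finset.subset_union_left, Finset.subset_union_right⟩⟩
  have hmono : Monotone fun t : ι => K.clS (t.1 : Set M) := fun s t h =>
    clS_mono (Finset.coe_subset.2 h)
  have h1 := hD L K M ι (fun t => K.clS (t.1 : Set M)) hmono
    (fun t => hI M hM _ (Finset.coe_nonempty.2 t.2.2))
  have h2 : A ⊆ (⨆ t : ι, K.clS (t.1 : Set M) : L.Substructure M) := fun y hy =>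
    (le_iSup (fun t : ι => K.clS (t.1 : Set M)) ⟨{y}, by simpa using hy, by simp⟩)
      (sub_clS _ (by simp))
  obtain ⟨t, ht⟩ := (Substructure.mem_iSup_of_directed hmono.directed_le).1 (clS_le h1 h2 hx.2)
  exact ⟨t.1, t.2.1, Finset.coe_nonempty.2 t.2.2, ht⟩

variable (K) in
/-- graphs of isomorphisms between strong substructures, and the empty relation -/
def PI (Γ : SetRel M N) : Prop :=
  Γ = ∅ ∨ ∃ (A : Type) (_ : L.Structure A) (f : A ↪[L] M) (g : A ↪[L] N),
    K.IsEmb f ∧ K.IsEmb g ∧ Γ = range fun a => (f a, g a)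

theorem PI.inv {Γ : SetRel M N} (h : K.PI Γ) : K.PI Γ.inv := by
  rcases h with rfl | ⟨A, _, f, g, hf, hg, rfl⟩
  · exact Or.inl rfl
  · refine Or.inr ⟨A, _, g, f, hg, hf, ?_⟩
    ext ⟨y, x⟩
    simp only [mem_inv, mem_range, Prod.mk.injEq, and_comm]

theorem PI.func {Γ : SetRel M N} (h : K.PI Γ) {x : M} {y y' : N} (h1 : (x, y) ∈ Γ)
    (h2 : (x, y') ∈ Γ) : y = y' := by
  rcases h with rfl | ⟨A, _, f, g, -, -, rfl⟩
  · exact h1.elim
  · obtain ⟨a, ha⟩ := h1
    obtain ⟨b, hb⟩ := h2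
    simp only [Prod.mk.injEq] at ha hb
    rw [← ha.2, ← hb.2, f.injective (ha.1.trans hb.1.symm)]

theorem PI.dom {Γ : SetRel M N} (h : K.PI Γ) : K.cl Γ.dom = Γ.dom := by
  rcases h with rfl | ⟨A, _, f, g, hf, -, rfl⟩
  · simp [cl_empty]
  · have : SetRel.dom (range fun a => (f a, g a)) = (f.toHom.range : Set M) := by
      ext x; simp
    rw [this]; exact cl_strong hf

theorem PI.fn {Γ : SetRel M N} (h : K.PI Γ) (hne : Γ.Nonempty) {n : ℕ} (F : L.Functions n)
    (x : Fin n → M) (y : Fin n → N) (hxy : ∀ i, (x i, y i) ∈ Γ) :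
    (Structure.funMap F x, Structure.funMap F y) ∈ Γ := by
  rcases h with rfl | ⟨A, _, f, g, -, -, rfl⟩
  · exact hne.ne_empty rfl |>.elim
  · choose a ha using hxy
    simp only [Prod.mk.injEq] at ha
    have hx : x = f ∘ a := funext fun i => (ha i).1.symm
    have hy : y = g ∘ a := funext fun i => (ha i).2.symm
    subst hx hy
    exact ⟨Structure.funMap F a, by simp⟩

theorem PI.rel {Γ : SetRel M N} (h : K.PI Γ) (hne : Γ.Nonempty) {n : ℕ} (R : L.Relations n)
    (x : Fin n → M) (y : Fin n → N) (hxy : ∀ i, (x i, y i) ∈ Γ) :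
    Structure.RelMap R x ↔ Structure.RelMap R y := by
  rcases h with rfl | ⟨A, _, f, g, -, -, rfl⟩
  · exact hne.ne_empty rfl |>.elim
  · choose a ha using hxy
    simp only [Prod.mk.injEq] at ha
    have hx : x = f ∘ a := funext fun i => (ha i).1.symm
    have hy : y = g ∘ a := funext fun i => (ha i).2.symm
    subst hx hy
    rw [f.map_rel, g.map_rel]

theorem pi_of_rel (hI : K.Intersections) (hM : K.Mem M) (hN : K.Mem N) {Γ : SetRel M N}
    (h1 : ∀ {x y y'}, (x, y) ∈ Γ → (x, y') ∈ Γ → y = y')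
    (h2 : ∀ {x x' y}, (x, y) ∈ Γ → (x', y) ∈ Γ → x = x')
    (hd : K.cl Γ.dom = Γ.dom) (hc : K.cl Γ.cod = Γ.cod)
    (hf : Γ.Nonempty → ∀ {n : ℕ} (F : L.Functions n) (x : Fin n → M) (y : Fin n → N),
      (∀ i, (x i, y i) ∈ Γ) → (Structure.funMap F x, Structure.funMap F y) ∈ Γ)
    (hr : Γ.Nonempty → ∀ {n : ℕ} (R : L.Relations n) (x : Fin n → M) (y : Fin n → N),
      (∀ i, (x i, y i) ∈ Γ) → (Structure.RelMap R x ↔ Structure.RelMap R y)) : K.PI Γ := by
  rcases eq_empty_or_nonempty Γ with rfl | hne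
  · exact Or.inl rfl
  obtain ⟨⟨x0, y0⟩, h0⟩ := id hne
  let S : L.Substructure M :=
    { carrier := Γ.dom
      fun_mem := fun {n} F x hx => by
        choose y hy using hx
        exact ⟨_, hf hne F x y hy⟩ }
  have hS : K.Strong S := strong_of_closed hI hM ⟨x0, y0, h0⟩ hd
  have hex : ∀ x : S, ∃ y, (x.1, y) ∈ Γ := fun x => x.2
  choose g hg using hex
  let g' : S ↪[L] N :=
    { toFun := g
      inj' := fun a b e => Subtype.ext (h2 (hg a) (e ▸ hg b))
      map_fun' := fun {n} F x => h1 (hg _) (hf hne F (fun i => (x i).1) (g ∘ x) fun i => hg _)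
      map_rel' := fun {n} R x => (hr hne R (fun i => (x i).1) (g ∘ x) fun i => hg _).symm }
  have hr' : (g'.toHom.range : Set N) = Γ.cod := by
    ext y
    constructor
    · rintro ⟨x, rfl⟩; exact ⟨_, hg x⟩
    · rintro ⟨x, hx⟩; exact ⟨⟨x, y, hx⟩, h1 (hg _) hx⟩
  refine Or.inr ⟨S, inferInstance, S.subtype, g', isEmb_subtype hS,
    strong_of_closed hI hN (hr' ▸ ⟨y0, x0, h0⟩) (hr' ▸ hc), ?_⟩
  ext ⟨x, y⟩
  constructor
  · intro h; exact ⟨⟨x, y, h⟩, Prod.ext rfl (h1 (hg _) h)⟩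
  · rintro ⟨a, ha⟩; exact ha ▸ hg a

theorem pi_idOn (hI : K.Intersections) (hM : K.Mem M) {D : Set M} (hD : K.cl D = D) :
    K.PI (idOn D) := by
  rcases eq_empty_or_nonempty D with rfl | hne
  · left; ext ⟨x, y⟩; simp
  · refine Or.inr ⟨K.clS D, inferInstance, (K.clS D).subtype, (K.clS D).subtype,
      isEmb_subtype (hI M hM D hne), isEmb_subtype (hI M hM D hne), ?_⟩
    have e : (K.clS D : Set M) = D := (cl_eq hne).symm.trans hD
    ext ⟨x, y⟩
    simp only [mem_idOn, mem_range, Prod.mk.injEq]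
    constructor
    · rintro ⟨rfl, hx⟩; exact ⟨⟨x, sub_clS D hx⟩, rfl, rfl⟩
    · rintro ⟨a, rfl, rfl⟩; exact ⟨rfl, e.subset a.2⟩

theorem PI.closed_preimage (hI : K.Intersections) {Γ : SetRel M N} (h : K.PI Γ) {D : Set N}
    (hD : K.cl D = D) : K.cl (Γ.preimage D) = Γ.preimage D := by
  rcases eq_empty_or_nonempty (Γ.preimage D) with he | ⟨x0, y0, hy0, h0⟩
  · rw [he, cl_empty]
  rcases h with rfl | ⟨A, _, f, g, hf, hg, rfl⟩
  · exact h0.elim
  have hne : D.Nonempty := ⟨y0, hy0⟩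
  have e : (K.clS D : Set N) = D := (cl_eq hne).symm.trans hD
  obtain ⟨a0, ha0⟩ := h0
  simp only [Prod.mk.injEq] at ha0
  have hT : K.Strong (K.clS D ⊓ g.toHom.range) := by
    refine strong_of_closed hI hg.mem_right ⟨y0, sub_clS D hy0, a0, ha0.2⟩ ?_
    refine Subset.antisymm (fun z hz => ⟨?_, ?_⟩) (sub_cl _)
    · exact clS_le (hI N hg.mem_right D hne) inter_subset_left hz.2
    · exact clS_le hg inter_subset_right hz.2
  have h1 := emb_map hf (emb_comap hg hT inf_le_right)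
  have e2 : (((K.clS D ⊓ g.toHom.range).comap g.toHom).map f.toHom : Set M) =
      SetRel.preimage (range fun a => (f a, g a)) D := by
    ext x
    constructor
    · rintro ⟨a, ha, rfl⟩
      exact ⟨g a, e ▸ ha.1, a, rfl⟩
    · rintro ⟨y, hy, a, ha⟩
      simp only [Prod.mk.injEq] at ha
      exact ⟨a, ⟨sub_clS D (ha.2 ▸ hy : g a ∈ D), a, rfl⟩, ha.1⟩
  rw [← e2]; exact cl_strong h1

theorem PI.comp (hI : K.Intersections) (hM : K.Mem M) (hP : K.Mem P) {Γ : SetRel M N}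
    {Δ : SetRel N P} (h : K.PI Γ) (h' : K.PI Δ) : K.PI (Γ ○ Δ) := by
  refine pi_of_rel hI hM hP ?_ ?_ ?_ ?_ ?_ ?_
  · rintro x y y' ⟨z, h1, h2⟩ ⟨z', h3, h4⟩
    exact h'.func h2 (h.func h3 h1 ▸ h4)
  · rintro x x' y ⟨z, h1, h2⟩ ⟨z', h3, h4⟩
    have e : z = z' := h'.inv.func (x := y) h2 h4
    subst e
    exact h.inv.func (x := z) h1 h3
  · have : (Γ ○ Δ).dom = Γ.preimage Δ.dom := by
      ext x
      exact ⟨fun ⟨y, z, h1, h2⟩ => ⟨z, ⟨y, h2⟩, h1⟩, fun ⟨z, ⟨y, h2⟩, h1⟩ => ⟨y, z, h1, h2⟩⟩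
    rw [this]; exact h.closed_preimage hI h'.dom
  · have : (Γ ○ Δ).cod = Δ.inv.preimage Γ.inv.dom := by
      ext x
      exact ⟨fun ⟨y, z, h1, h2⟩ => ⟨z, ⟨y, h1⟩, h2⟩, fun ⟨z, ⟨y, h1⟩, h2⟩ => ⟨y, z, h1, h2⟩⟩
    rw [this]; exact h'.inv.closed_preimage hI h.inv.dom
  · rintro ⟨⟨x0, y0⟩, z0, h1, h2⟩ n F x y hxy
    choose z hz using hxy
    exact ⟨_, h.fn ⟨_, h1⟩ F x z fun i => (hz i).1, h'.fn ⟨_, h2⟩ F z y fun i => (hz i).2⟩
  · rintro ⟨⟨x0, y0⟩, z0, h1, h2⟩ n R x y hxy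
    choose z hz using hxy
    exact (h.rel ⟨_, h1⟩ R x z fun i => (hz i).1).trans (h'.rel ⟨_, h2⟩ R z y fun i => (hz i).2)

theorem pi_graph {f : M ↪[L] N} (hf : K.IsEmb f) : K.PI (Function.graph f) := by
  refine Or.inr ⟨M, _, Embedding.refl L M, f, isEmb_equiv (Language.Equiv.refl L M) hf.mem_left,
    hf, ?_⟩
  ext ⟨x, y⟩; simp

theorem emb_of_pi [Nonempty M] {f : M → N} (h : K.PI f.graph) :
    ∃ e : M ↪[L] N, K.IsEmb e ∧ ⇑e = f := by
  have hne : f.graph.Nonempty := ⟨(Classical.arbitrary M, _), rfl⟩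
  let e : M ↪[L] N :=
    { toFun := f
      inj' := fun a b hab => h.inv.func (x := f b) hab rfl
      map_fun' := fun {n} F x => h.fn hne F x (f ∘ x) fun _ => rfl
      map_rel' := fun {n} R x => (h.rel hne R x (f ∘ x) fun _ => rfl).symm }
  refine ⟨e, ?_, rfl⟩
  rcases h with h | ⟨A, _, g1, g2, -, h2, hr⟩
  · exact (hne.ne_empty h).elim
  · have : e.toHom.range = g2.toHom.range := by
      ext y
      simp only [Hom.mem_range]
      constructor
      · rintro ⟨x, rfl⟩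
        obtain ⟨a, ha⟩ : (x, f x) ∈ range fun a => (g1 a, g2 a) := hr ▸ rfl
        exact ⟨a, congrArg Prod.snd ha⟩
      · rintro ⟨a, rfl⟩
        have : (g1 a, g2 a) ∈ f.graph := hr ▸ ⟨a, rfl⟩
        exact ⟨g1 a, this⟩
    rw [IsEmb, this]; exact h2

end AEC

end Pool.Agent.P.MP_860a31_lc
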