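import Pool.Agent.P.MP_860a31_lc.Basic

/-!
Statements of the packages about concrete abstract elementary classes.
-/

open FirstOrder FirstOrder.Language
open Cardinal hiding univ
open Set SetRel

namespace Pool.Agent.P.MP_860a31_lc

/-- Iwamura's lemma -/
def S_Iwa : Prop :=
  ∀ (ι : Type) [Preorder ι] [IsDirected ι (· ≤ ·)] [Infinite ι],
    ∃ (T : Type) (_ : LinearOrder T) (_ : WellFoundedLT T) (_ : Nonempty T) (D : T → Set ι),
      Monotone D ∧ (∀ t, (D t).Nonempty ∧ DirectedOn (· ≤ ·) (D t) ∧ #(D t) < #ι) ∧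
      ∀ i, ∃ t, i ∈ D t

/-- smoothness for directed families -/
def S_DirS : Prop :=
  ∀ (L : FirstOrder.Language.{0, 0}) (K : AEC L) (M : Type) [L.Structure M] (ι : Type)
    [Preorder ι] [IsDirected ι (· ≤ ·)] [Nonempty ι] (S : ι → L.Substructure M), Monotone S →
    (∀ i, K.Strong (S i)) → K.Strong (⨆ i, S i)

/-- unions of directed families -/
def S_DirU : Prop :=
  ∀ (L : FirstOrder.Language.{0, 0}) (K : AEC L) (M : Type) [L.Structure M] (ι : Type)
    [Preorder ι] [IsDirected ι (· ≤ ·)] [Nonempty ι] (S : ι → L.Substructure M), Monotone S →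
    (∀ i j, i ≤ j → K.Strong ((S i).comap (S j).subtype.toHom)) → ⨆ i, S i = ⊤ →
    ∀ i, K.Strong (S i)

/-- directed colimits of `K`-embeddings -/
def S_Colim : Prop :=
  ∀ (L : FirstOrder.Language.{0, 0}) (K : AEC L) (ι : Type) [Preorder ι] [IsDirected ι (· ≤ ·)]
    [Nonempty ι] (A : ι → Type) [∀ i, L.Structure (A i)] (f : ∀ i j, i ≤ j → A i ↪[L] A j),
    (∀ i j h, K.IsEmb (f i j h)) → (∀ i x, f i i le_rfl x = x) →
    (∀ i j k (hij : i ≤ j) (hjk : j ≤ k) x, f j k hjk (f i j hij x) = f i k (hij.trans hjk) x) →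
    ∃ (P : Type) (_ : L.Structure P) (g : ∀ i, A i ↪[L] P), (∀ i, K.IsEmb (g i)) ∧
      (∀ i j h x, g j (f i j h x) = g i x) ∧ ∀ y, ∃ i x, g i x = y

/-- atomic diagrams -/
def S_Code : Prop :=
  ∀ (L : FirstOrder.Language.{0, 0}) (κ : Cardinal.{0}), ℵ₀ ≤ κ → L.card ≤ κ → ∀ ι : Type,
    ∃ (Cd : Type) (cd : ∀ (M : Type) [L.Structure M], (ι → M) → Cd), #Cd ≤ 2 ^ (#ι + κ) ∧
      ∀ (M N : Type) [L.Structure M] [L.Structure N] (e : ι → M) (e' : ι → N),
        cd M e = cd N e' → (∀ i j, e i = e j ↔ e' i = e' j) ∧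
          (∀ (n : ℕ) (F : L.Functions n) (x : Fin n → ι) (j : ι),
            Structure.funMap F (e ∘ x) = e j ↔ Structure.funMap F (e' ∘ x) = e' j) ∧
          ∀ (n : ℕ) (R : L.Relations n) (x : Fin n → ι),
            Structure.RelMap R (e ∘ x) ↔ Structure.RelMap R (e' ∘ x)

end Pool.Agent.P.MP_860a31_lc
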