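import Pool.Agent.P.MP_860a31_lc.Basic

/-!
The presheaf of automorphism groups and the torsor of isomorphisms.
-/

open Cardinal hiding univ
open Set SetRel

namespace Pool.Agent.P.MP_860a31_lc

namespace PshXP

variable {κ lam : Cardinal.{0}} {C : Ctx κ lam} (E : EM C) {I : Type} [LinearOrder I]
  (b : C.U (E.obj (I ⊕ₗ ℕ)))

/-- the closure of the atoms of `S` and of `b` -/
def PP (S : Set I) : Set (C.U (E.obj (I ⊕ₗ ℕ))) :=
  C.cl (E.atm (I ⊕ₗ ℕ) '' (lo I '' S) ∪ {b})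

theorem cl_PP (S : Set I) : C.cl (PP E b S) = PP E b S := C.cl_cl _

theorem b_mem (S : Set I) : b ∈ PP E b S := C.sub_cl _ (Or.inr rfl)

theorem sp_sub (S : Set I) : E.sp (lo I '' S) ⊆ PP E b S := C.cl_mono subset_union_left

theorem PP_mono {S S' : Set I} (h : S ⊆ S') : PP E b S ⊆ PP E b S' :=
  C.cl_mono (union_subset_union_left _ (Set.image_mono (Set.image_mono h)))

theorem PP_sub {S : Set I} {D : Set (C.U (E.obj (I ⊕ₗ ℕ)))} (hD : C.cl D = D) (hb : b ∈ D)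
    (hS : E.sp (lo I '' S) ⊆ D) : PP E b S ⊆ D := by
  refine C.cl_subset ?_ hD
  rintro x (hx | hx)
  · exact hS (C.sub_cl _ hx)
  · rw [mem_singleton_iff.1 hx]; exact hb

theorem mem_PP_iUnion {J : Type} [Preorder J] [IsDirected J (· ≤ ·)] [Nonempty J]
    {S : J → Set I} (hS : Monotone S) {x : C.U (E.obj (I ⊕ₗ ℕ))}
    (hx : x ∈ PP E b (⋃ j, S j)) : ∃ j, x ∈ PP E b (S j) := by
  have hd : Directed (· ⊆ ·)
      (fun j => E.atm (I ⊕ₗ ℕ) '' (lo I '' S j) ∪ {b} : J → Set (C.U (E.obj (I ⊕ₗ ℕ)))) := by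
    apply Monotone.directed_le
    intro j k hjk
    exact union_subset_union_left _ (Set.image_mono (Set.image_mono (hS hjk)))
  apply Ctx.mem_cl_iUnion hd
  refine C.cl_mono ?_ hx
  rintro y (⟨_, ⟨i, hi, rfl⟩, rfl⟩ | hy)
  · obtain ⟨j, hj⟩ := mem_iUnion.1 hi
    exact mem_iUnion.2 ⟨j, Or.inl ⟨_, ⟨i, hj, rfl⟩, rfl⟩⟩
  · exact mem_iUnion.2 ⟨Classical.arbitrary J, Or.inr hy⟩

theorem card_PP (S : Set I) : #(PP E b S) ≤ #S + κ := by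
  have h1 : #(E.atm (I ⊕ₗ ℕ) '' (lo I '' S) ∪ {b} : Set (C.U (E.obj (I ⊕ₗ ℕ)))) ≤ #S + κ := by
    refine (mk_union_le _ _).trans (add_le_add (mk_image_le.trans mk_image_le) ?_)
    rw [mk_singleton]
    exact one_le_aleph0.trans C.inf
  exact Ctx.card_cl_le (self_le_add_left κ _) h1

/-- `h` is an isomorphism defined on `PP S` which extends `F` on the span of `S` and sends `b`
to `a` -/
structure IsX {N : C.Obj} (F : C.U (E.obj (I ⊕ₗ ℕ)) → C.U N) (a : C.U N) (S : Set I)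
    (h : SetRel (C.U (E.obj (I ⊕ₗ ℕ))) (C.U N)) : Prop where
  pi : C.PI h
  sub : ∀ {x y}, (x, y) ∈ h → x ∈ PP E b S
  ba : (b, a) ∈ h
  ext : ∀ x ∈ E.sp (lo I '' S), (x, F x) ∈ h

section X

variable {E b} {N : C.Obj} {F : C.U (E.obj (I ⊕ₗ ℕ)) → C.U N} {a : C.U N} {S S' : Set I}

theorem IsX.ex {h : SetRel (C.U (E.obj (I ⊕ₗ ℕ))) (C.U N)} (hh : IsX E b F a S h)
    {x : C.U (E.obj (I ⊕ₗ ℕ))} (hx : x ∈ PP E b S) : ∃ y, (x, y) ∈ h :=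
  PP_sub E b (C.pi_dom hh.pi) ⟨a, hh.ba⟩ (fun z hz => ⟨F z, hh.ext z hz⟩) hx

theorem IsX.eq {h h' : SetRel (C.U (E.obj (I ⊕ₗ ℕ))) (C.U N)} (hh : IsX E b F a S h)
    (hh' : IsX E b F a S h') (hs : h ⊆ h') : h = h' :=
  Ctx.eq_of_subset hh'.pi hs fun _ ⟨_, hy⟩ => hh.ex (hh'.sub hy)

theorem IsX.cod {h h' : SetRel (C.U (E.obj (I ⊕ₗ ℕ))) (C.U N)} (hh : IsX E b F a S h)
    (hh' : IsX E b F a S h') {x : C.U (E.obj (I ⊕ₗ ℕ))} {y : C.U N} (hxy : (x, y) ∈ h) :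
    ∃ x', (x', y) ∈ h' := by
  have h1 : y ∈ C.cl h'.cod := by
    refine Ctx.mem_cl_of hh.pi ?_ (hh.sub hxy) hxy
    rintro z (hz | hz)
    · have hz' : z ∈ E.sp (lo I '' S) := C.sub_cl _ hz
      exact ⟨F z, ⟨z, hh'.ext z hz'⟩, hh.ext z hz'⟩
    · rw [mem_singleton_iff.1 hz]
      exact ⟨a, ⟨b, hh'.ba⟩, hh.ba⟩
  rw [Ctx.pi_cod hh'.pi] at h1
  exact h1

theorem isX_id (S : Set I) : IsX E b id b S (idOn (PP E b S)) where
  pi := C.pi_id (cl_PP E b S)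
  sub := fun h => h.2
  ba := ⟨rfl, b_mem E b S⟩
  ext := fun _ hx => ⟨rfl, sp_sub E b S hx⟩

theorem IsX.sub' {g : SetRel (C.U (E.obj (I ⊕ₗ ℕ))) (C.U (E.obj (I ⊕ₗ ℕ)))}
    (hg : IsX E b id b S g) {x y : C.U (E.obj (I ⊕ₗ ℕ))} (hxy : (x, y) ∈ g) : y ∈ PP E b S := by
  obtain ⟨x', h'⟩ := hg.cod (isX_id S) hxy
  obtain ⟨e, hx'⟩ := mem_idOn.1 h'
  exact e ▸ hx'

theorem IsX.ex' {g : SetRel (C.U (E.obj (I ⊕ₗ ℕ))) (C.U (E.obj (I ⊕ₗ ℕ)))}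
    (hg : IsX E b id b S g) {y : C.U (E.obj (I ⊕ₗ ℕ))} (hy : y ∈ PP E b S) : ∃ x, (x, y) ∈ g :=
  (isX_id S).cod hg (x := y) ⟨rfl, hy⟩

theorem IsX.comp {g : SetRel (C.U (E.obj (I ⊕ₗ ℕ))) (C.U (E.obj (I ⊕ₗ ℕ)))}
    {h : SetRel (C.U (E.obj (I ⊕ₗ ℕ))) (C.U N)} (hg : IsX E b id b S g) (hh : IsX E b F a S h) :
    IsX E b F a S (g ○ h) where
  pi := C.pi_comp hg.pi hh.pi
  sub := fun ⟨_, h1, _⟩ => hg.sub h1
  ba := ⟨b, hg.ba, hh.ba⟩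
  ext := fun x hx => ⟨x, hg.ext x hx, hh.ext x hx⟩

theorem IsX.inv {g : SetRel (C.U (E.obj (I ⊕ₗ ℕ))) (C.U (E.obj (I ⊕ₗ ℕ)))}
    (hg : IsX E b id b S g) : IsX E b id b S g.inv where
  pi := C.pi_inv hg.pi
  sub := fun h => hg.sub' h
  ba := hg.ba
  ext := fun x hx => hg.ext x hx

theorem IsX.div {h h' : SetRel (C.U (E.obj (I ⊕ₗ ℕ))) (C.U N)} (hh : IsX E b F a S h)
    (hh' : IsX E b F a S h') : IsX E b id b S (h ○ h'.inv) where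
  pi := C.pi_comp hh.pi (C.pi_inv hh'.pi)
  sub := fun ⟨_, h1, _⟩ => hh.sub h1
  ba := ⟨a, hh.ba, hh'.ba⟩
  ext := fun x hx => ⟨F x, hh.ext x hx, hh'.ext x hx⟩

theorem isX_restr {Γ : SetRel (C.U (E.obj (I ⊕ₗ ℕ))) (C.U N)} (hΓ : C.PI Γ) (hb : (b, a) ∈ Γ)
    (hF : ∀ x ∈ E.sp (lo I '' S), (x, F x) ∈ Γ) : IsX E b F a S (idOn (PP E b S) ○ Γ) where
  pi := C.pi_comp (C.pi_id (cl_PP E b S)) hΓ
  sub := fun ⟨_, h1, _⟩ => h1.2
  ba := ⟨b, ⟨rfl, b_mem E b S⟩, hb⟩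
  ext := fun x hx => ⟨x, ⟨rfl, sp_sub E b S hx⟩, hF x hx⟩

theorem IsX.restr {h : SetRel (C.U (E.obj (I ⊕ₗ ℕ))) (C.U N)} (hh : IsX E b F a S' h)
    (hS : S ⊆ S') : IsX E b F a S (idOn (PP E b S) ○ h) :=
  isX_restr hh.pi hh.ba fun x hx => hh.ext x (E.sp_mono (Set.image_mono hS) hx)

theorem restr_sub {α β : Type} {D : Set α} {h : SetRel α β} : idOn D ○ h ⊆ h := by
  rintro ⟨x, y⟩ ⟨z, ⟨e, -⟩, hz⟩
  dsimp only at e hz
  exact e ▸ hz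

theorem mem_restr {α β : Type} {D : Set α} {h : SetRel α β} {x : α} {y : β} :
    (x, y) ∈ idOn D ○ h ↔ x ∈ D ∧ (x, y) ∈ h :=
  ⟨fun hxy => ⟨by obtain ⟨z, hz, -⟩ := hxy; exact hz.2, restr_sub hxy⟩,
    fun ⟨h1, h2⟩ => ⟨x, ⟨rfl, h1⟩, h2⟩⟩

theorem isX_iUnion {J : Type} [Preorder J] [IsDirected J (· ≤ ·)] [Nonempty J]
    {T : J → Set I} (hT : Monotone T) {x : J → SetRel (C.U (E.obj (I ⊕ₗ ℕ))) (C.U N)}
    (hx : ∀ j, IsX E b F a (T j) (x j)) (hm : Monotone x) :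
    IsX E b F a (⋃ j, T j) (⋃ j, x j) where
  pi := Ctx.pi_iUnion x (fun j => (hx j).pi) hm.directed_le
  sub := fun h => by
    obtain ⟨j, hj⟩ := mem_iUnion.1 h
    exact PP_mono E b (subset_iUnion T j) ((hx j).sub hj)
  ba := mem_iUnion.2 ⟨Classical.arbitrary J, (hx _).ba⟩
  ext := fun z hz => by
    rw [Set.image_iUnion] at hz
    have hd : Directed (· ⊆ ·) (fun j => lo I '' T j) :=
      Monotone.directed_le fun j k hjk => Set.image_mono (hT hjk)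
    obtain ⟨j, hj⟩ := E.mem_sp_iUnion hd hz
    exact mem_iUnion.2 ⟨j, (hx j).ext z hj⟩

end X

/-- the isomorphisms over `S` -/
def XX {N : C.Obj} (F : C.U (E.obj (I ⊕ₗ ℕ)) → C.U N) (a : C.U N) (S : Set I) : Type :=
  {h : SetRel (C.U (E.obj (I ⊕ₗ ℕ))) (C.U N) // IsX E b F a S h}

/-- the automorphisms over `S` -/
def GG (S : Set I) : Type :=
  {g : SetRel (C.U (E.obj (I ⊕ₗ ℕ))) (C.U (E.obj (I ⊕ₗ ℕ))) // IsX E b id b S g}

instance (S : Set I) : Mul (GG E b S) := ⟨fun g g' => ⟨g.1 ○ g'.1, g.2.comp g'.2⟩⟩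

instance (S : Set I) : One (GG E b S) := ⟨⟨idOn (PP E b S), isX_id S⟩⟩

instance (S : Set I) : Inv (GG E b S) := ⟨fun g => ⟨g.1.inv, g.2.inv⟩⟩

theorem mul_val {S : Set I} (g g' : GG E b S) : (g * g').1 = g.1 ○ g'.1 := rfl

theorem one_val {S : Set I} : (1 : GG E b S).1 = idOn (PP E b S) := rfl

theorem inv_val {S : Set I} (g : GG E b S) : (g⁻¹).1 = g.1.inv := rfl

theorem GG_eq {S : Set I} {g g' : GG E b S} (h : g.1 ⊆ g'.1) : g = g' :=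
  Subtype.ext (g.2.eq g'.2 h)

/-- the group structure -/
@[reducible] def grp (S : Set I) : Group (GG E b S) :=
  Group.ofLeftAxioms
    (fun g g' g'' => Subtype.ext (SetRel.comp_assoc g.1 g'.1 g''.1))
    (fun g => GG_eq E b restr_sub)
    (fun g => GG_eq E b (by
      rintro ⟨x, y⟩ ⟨z, h1, h2⟩
      exact ⟨C.pi_fun g.2.pi h1 h2, g.2.sub' h1⟩))

attribute [local instance] grp

theorem card_GG (S : Set I) : #(GG E b S) ≤ 2 ^ (#S + κ) := by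
  have hinf : ℵ₀ ≤ #S + κ := C.inf.trans (self_le_add_left κ _)
  have h1 : #(GG E b S) ≤ #(Set (PP E b S × PP E b S)) := by
    refine mk_le_of_injective
      (f := fun g : GG E b S => {p : PP E b S × PP E b S | (p.1.1, p.2.1) ∈ g.1}) ?_
    intro g g' e
    apply GG_eq
    rintro ⟨x, y⟩ hxy
    have h2 : ((⟨x, g.2.sub hxy⟩, ⟨y, g.2.sub' hxy⟩) : PP E b S × PP E b S) ∈
        {p : PP E b S × PP E b S | (p.1.1, p.2.1) ∈ g.1} := hxy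
    dsimp only at e
    rw [e] at h2
    exact h2
  refine h1.trans ?_
  rw [mk_set]
  refine power_le_power_left two_ne_zero ?_
  rw [mk_prod, lift_id]
  exact (mul_le_mul' (card_PP E b S) (card_PP E b S)).trans (mul_eq_self hinf).le

/-- the transport along `u` restricted to `PP S` -/
def TP (S : Set I) (u : I → I) : SetRel (C.U (E.obj (I ⊕ₗ ℕ))) (C.U (E.obj (I ⊕ₗ ℕ))) :=
  idOn (PP E b S) ○ E.Tr (lo I '' S ∪ range (hi I)) (up u)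

section T

variable {E b} {s0 S S' S'' : Set I} {u v : I → I}

theorem TP_pi (h : Mor s0 S S' u) : C.PI (TP E b S u) :=
  C.pi_comp (C.pi_id (cl_PP E b S)) (E.tr_pi (up_strictMonoOn h.mono))

theorem TP_b (hb : b ∈ E.sp (lo I '' s0 ∪ range (hi I))) (h : Mor s0 S S' u) :
    (b, b) ∈ TP E b S u := by
  refine mem_restr.2 ⟨b_mem E b S, E.tr_fix (union_subset_union_left _ (Set.image_mono h.base)) ?_ hb⟩
  rintro _ (⟨i, hi', rfl⟩ | ⟨n, rfl⟩)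
  · rw [up_lo, h.fix hi']; rfl
  · rfl

theorem TP_sp (h : Mor s0 S S' u) {x : C.U (E.obj (I ⊕ₗ ℕ))} (hx : x ∈ E.sp (lo I '' S)) :
    ∃ y ∈ E.sp (lo I '' S'), (x, y) ∈ TP E b S u := by
  obtain ⟨y, hy, hxy⟩ := E.tr_map (up_strictMonoOn h.mono) subset_union_left hx
  refine ⟨y, E.sp_mono ?_ hy, mem_restr.2 ⟨sp_sub E b S hx, hxy⟩⟩
  rintro _ ⟨_, ⟨i, hi', rfl⟩, rfl⟩
  exact ⟨u i, h.maps hi', rfl⟩

theorem TP_id {x y : C.U (E.obj (I ⊕ₗ ℕ))} (h : (x, y) ∈ TP E b S id) : x = y := by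
  have h1 := (mem_restr.1 h).2
  rw [up_id] at h1
  exact E.tr_id h1

theorem TP_comp (h : Mor s0 S S' u) (h' : Mor s0 S' S'' v) {x y z : C.U (E.obj (I ⊕ₗ ℕ))}
    (h1 : (x, y) ∈ TP E b S u) (h2 : (y, z) ∈ TP E b S' v) : (x, z) ∈ TP E b S (v ∘ u) := by
  refine mem_restr.2 ⟨(mem_restr.1 h1).1, ?_⟩
  rw [up_comp]
  refine E.tr_comp (up_strictMonoOn h.mono) (up_strictMonoOn h'.mono) ?_
    ⟨y, (mem_restr.1 h1).2, (mem_restr.1 h2).2⟩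
  rintro _ (⟨i, hi', rfl⟩ | ⟨n, rfl⟩)
  · exact Or.inl ⟨u i, h.maps hi', rfl⟩
  · exact Or.inr ⟨n, rfl⟩

theorem TP_congr (huv : EqOn u v S) : TP E b S u = TP E b S v := by
  unfold TP
  rw [E.tr_congr (u := up u) (v := up v)]
  rintro _ (⟨i, hi', rfl⟩ | ⟨n, rfl⟩)
  · rw [up_lo, up_lo, huv hi']
  · rfl

theorem isX_res (hb : b ∈ E.sp (lo I '' s0 ∪ range (hi I))) (h : Mor s0 S S' u)
    {g : SetRel (C.U (E.obj (I ⊕ₗ ℕ))) (C.U (E.obj (I ⊕ₗ ℕ)))} (hg : IsX E b id b S' g) :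
    IsX E b id b S (TP E b S u ○ (g ○ (TP E b S u).inv)) where
  pi := C.pi_comp (TP_pi h) (C.pi_comp hg.pi (C.pi_inv (TP_pi h)))
  sub := fun ⟨_, h1, _⟩ => (mem_restr.1 h1).1
  ba := ⟨b, TP_b hb h, b, hg.ba, TP_b hb h⟩
  ext := fun x hx => by
    obtain ⟨y, hy, hxy⟩ := TP_sp (b := b) h hx
    exact ⟨y, hxy, y, hg.ext y hy, hxy⟩

/-- restriction of automorphisms along `u` -/
def res (hb : b ∈ E.sp (lo I '' s0 ∪ range (hi I))) (h : Mor s0 S S' u) :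
    GG E b S' →* GG E b S :=
  MonoidHom.mk' (fun g => ⟨TP E b S u ○ (g.1 ○ (TP E b S u).inv), isX_res hb h g.2⟩) (by
    intro g g'
    symm
    apply GG_eq
    rintro ⟨x, z⟩ ⟨y, ⟨x', h1, y', h2, h3⟩, y'', h4, z', h5, h6⟩
    have e : y' = y'' := C.pi_fun (TP_pi h) h3 h4
    subst e
    exact ⟨x', h1, z', ⟨y', h2, h5⟩, h6⟩)

theorem res_val (hb : b ∈ E.sp (lo I '' s0 ∪ range (hi I))) (h : Mor s0 S S' u) (g : GG E b S') :
    (res hb h g).1 = TP E b S u ○ (g.1 ○ (TP E b S u).inv) := rfl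

theorem res_id_val (hb : b ∈ E.sp (lo I '' s0 ∪ range (hi I))) (h : Mor s0 S S' id)
    (g : GG E b S') : (res hb h g).1 = idOn (PP E b S) ○ g.1 := by
  refine (res hb h g).2.eq (g.2.restr h.maps) ?_
  rintro ⟨x, y⟩ ⟨x', h1, y', h2, h3⟩
  have e1 : x = x' := TP_id h1
  have e2 : y = y' := TP_id h3
  subst e1 e2
  exact mem_restr.2 ⟨(mem_restr.1 h1).1, h2⟩

end T

/-- the presheaf -/
def psh {N : C.Obj} (F : C.U (E.obj (I ⊕ₗ ℕ)) → C.U N) (a : C.U N) (s0 : Set I)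
    (hb : b ∈ E.sp (lo I '' s0 ∪ range (hi I))) : Psh I s0 κ where
  G := GG E b
  grp := grp E b
  res := fun _ h => res hb h
  res_id := fun h g => GG_eq E b (by rw [res_id_val]; exact restr_sub)
  res_comp := fun h h' g => GG_eq E b (by
    rintro ⟨x, y⟩ ⟨x', h1, y', ⟨x'', h2, y'', h3, h4⟩, h5⟩
    exact ⟨x'', TP_comp h h' h1 h2, y'', h3, TP_comp h h' h5 h4⟩)
  res_congr := fun h h' huv g => Subtype.ext (by rw [res_val, res_val, TP_congr huv])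
  glue := fun J _ _ _ S T hS h0 hT g hg => by
    subst hT
    have hm : Monotone fun j => (g j).1 := fun j k hjk => by
      have h1 := hg j k hjk (Mor.incl (h0 j) (hS hjk))
      dsimp only
      rw [← h1, res_id_val]
      exact restr_sub
    refine ⟨⟨⋃ j, (g j).1, isX_iUnion hS (fun j => (g j).2) hm⟩, fun j h => ?_⟩
    symm
    apply GG_eq
    rw [res_id_val]
    rintro ⟨x, y⟩ hxy
    exact mem_restr.2 ⟨(g j).2.sub hxy, mem_iUnion.2 ⟨j, hxy⟩⟩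
  sep := fun J _ _ _ S T hS h0 hT g g' hg => by
    subst hT
    apply GG_eq
    rintro ⟨x, y⟩ hxy
    obtain ⟨j, hj⟩ := mem_PP_iUnion E b hS (g.2.sub hxy)
    have h1 := congrArg Subtype.val (hg j (Mor.incl (h0 j) (subset_iUnion S j)))
    rw [res_id_val, res_id_val] at h1
    have h2 : (x, y) ∈ idOn (PP E b (S j)) ○ g.1 := mem_restr.2 ⟨hj, hxy⟩
    rw [h1] at h2
    exact restr_sub h2
  card := card_GG E b
  X := XX E b F a
  act := fun g x => ⟨g.1 ○ x.1, g.2.comp x.2⟩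
  act_tr := fun x y => ⟨⟨y.1 ○ x.1.inv, y.2.div x.2⟩,
    Subtype.ext (((y.2.div x.2).comp x.2).eq y.2 (by
      rintro ⟨p, r⟩ ⟨q, ⟨r', h1, h2⟩, h3⟩
      have e : r' = r := C.pi_fun x.2.pi h2 h3
      exact e ▸ h1))⟩
  act_free := fun g g' x e => GG_eq E b (by
    rintro ⟨p, q⟩ hpq
    obtain ⟨r, hr⟩ := x.2.ex (g.2.sub' hpq)
    have h1 : g.1 ○ x.1 = g'.1 ○ x.1 := congrArg Subtype.val e
    have h2 : (p, r) ∈ g.1 ○ x.1 := ⟨q, hpq, hr⟩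
    rw [h1] at h2
    obtain ⟨q', h3, h4⟩ := h2
    have e2 : q' = q := Ctx.pi_inj x.2.pi h4 hr
    exact e2 ▸ h3)
  rx := fun h x => ⟨idOn (PP E b _) ○ x.1, x.2.restr h⟩
  rx_comp := fun h h' x => Subtype.ext (((x.2.restr h').restr h).eq (x.2.restr (h.trans h')) (by
    rintro ⟨p, q⟩ hpq
    exact mem_restr.2 ⟨(mem_restr.1 hpq).1, restr_sub (mem_restr.1 hpq).2⟩))
  rx_id := fun x => Subtype.ext ((x.2.restr Subset.rfl).eq x.2 restr_sub)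
  rx_act := fun h g x => Subtype.ext (by
    symm
    refine ((res hb h g).2.comp (x.2.restr h.maps)).eq ((g.2.comp x.2).restr h.maps) ?_
    rw [res_id_val]
    rintro ⟨p, r⟩ ⟨q, h1, h2⟩
    exact mem_restr.2 ⟨(mem_restr.1 h1).1, q, restr_sub h1, restr_sub h2⟩)
  glueX := fun J _ _ _ S T hS hT x hx => by
    subst hT
    have hm : Monotone fun j => (x j).1 := fun j k hjk => by
      have h1 := hx j k hjk (hS hjk)
      dsimp only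
      rw [← h1]
      exact restr_sub
    exact ⟨⟨⋃ j, (x j).1, isX_iUnion hS (fun j => (x j).2) hm⟩⟩

end PshXP

theorem psh : S_Psh := by
  intro κ lam C E I _ N F _ a s0 b hb
  refine ⟨PshXP.psh E b F a s0 hb, fun S => ⟨?_, ?_⟩⟩
  · rintro ⟨x⟩
    exact ⟨x.1, x.2.pi, x.2.ba, x.2.ext⟩
  · rintro ⟨Γ, h1, h2, h3⟩
    exact ⟨⟨_, PshXP.isX_restr h1 h2 h3⟩⟩

end Pool.Agent.P.MP_860a31_lc
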