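import Pool.Agent.P.MP_860a31_lc.Basic

open Cardinal hiding univ
open Set SetRel

namespace Pool.Agent.P.MP_860a31_lc

theorem real (h0 : S_Part) (h1 : S_OneB) (h2 : S_Psh) (h3 : S_Tors) : S_Real := by
  intro κ lam C E μ hκ hμ Λ B _ _ _ _ Cc hB N Γ hΓ a
  have hinf : ℵ₀ ≤ μ := C.inf.trans hκ
  have hlo : StrictMonoOn (lo (Λ ×ₗ B)) univ := lo_strictMono.strictMonoOn _
  have hL := E.tr_pi hlo
  obtain ⟨P, F, G, hF, hG, hFG⟩ := C.ap (C.pi_comp (C.pi_inv hL) hΓ)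
  obtain ⟨s0, hs0, b, hb, hgood⟩ := h1 κ lam C E μ hκ hμ (Λ ×ₗ B) (h0 μ lam hinf hμ Λ B hB.cnt) P F hF (G a)
  obtain ⟨Q, hQ⟩ := h2 κ lam C E (Λ ×ₗ B) P F hF (G a) s0 b hb
  let _ : OrderBot Λ := WellFoundedLT.toOrderBot Λ
  have hX := h3 κ μ C.inf Λ B Cc hB s0 hs0 Q (fun V hV => (hQ _).2 (hgood _ (by
    refine (card_box V univ).trans (mul_le_of_le hinf ?_ ?_)
    · exact hV.lt_aleph0.le.trans hinf
    · rw [mk_univ]; exact hB.card)))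
  obtain ⟨Γ1, hΓ1, hba, hfix⟩ := (hQ univ).1 hX
  refine ⟨b, Γ1 ○ G.graph.inv, C.pi_comp hΓ1 (C.pi_inv hG), ⟨G a, hba, rfl⟩, ?_⟩
  intro x y z hxy hxz
  have hz : z ∈ E.sp (lo (Λ ×ₗ B) '' univ) := E.tr_cod hlo ▸ ⟨x, hxz⟩
  exact ⟨F z, hfix z hz, (hFG z y ⟨x, hxz, hxy⟩).symm⟩

theorem mainC (h0 : S_HanfSpec) (h1 : S_Blk) (h2 : S_EM) (h3 : S_Real) (h4 : S_Emb) :
    S_Main := by
  intro κ lam C hlam hbig M hM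
  have hκ : κ ≤ κ := le_rfl
  obtain ⟨B, _, Cc, hB⟩ := h1 κ C.inf
  obtain ⟨E⟩ := h2 κ lam C (hanf κ) (h0 κ C.inf) hbig
  obtain ⟨Λ, _, _, _, hΛ, g0, hg0⟩ := h4 κ lam C E κ hκ hlam B Cc hB M
  have hlo : StrictMonoOn (lo (Λ ×ₗ B)) univ := lo_strictMono.strictMonoOn _
  have hL := E.tr_pi hlo
  obtain ⟨e, -⟩ := hB.nat
  have : Nonempty B := ⟨e 0⟩
  obtain ⟨l, hl⟩ := Ctx.exists_fun hL (by rw [E.tr_dom' hlo, E.sp_univ])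
  have hinf : ℵ₀ ≤ #(C.U M) := C.inf.trans (hκ.trans (hlam.le.trans hM))
  have hmu : κ ≤ #(C.U M) := hlam.le.trans hM
  refine ⟨E.obj ((Λ ×ₗ B) ⊕ₗ ℕ), l ∘ g0, Ctx.pi_graph_comp hg0 (hl ▸ hL), ?_, ?_⟩
  · refine E.card_obj_le.trans (add_le_of_le hinf ?_ (hκ.trans hmu))
    have e1 : #((Λ ×ₗ B) ⊕ₗ ℕ) = #Λ * #B + ℵ₀ := by
      change #((Λ × B) ⊕ ℕ) = _
      simp
    rw [e1]
    refine add_le_of_le hinf (mul_le_of_le hinf (hΛ.trans ?_) (hB.card.trans hmu)) hinf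
    exact add_le_of_le hinf le_rfl (one_le_aleph0.trans hinf)
  · intro N f hf a
    obtain ⟨b, Γ', hΓ', hba, hext⟩ := h3 κ lam C E κ hκ hlam Λ B Cc hB N
      (g0.graph.inv ○ f.graph) (C.pi_comp (C.pi_inv hg0) hf) a
    refine ⟨b, Γ', hΓ', hba, fun x => hext (g0 x) (f x) _ ⟨x, rfl, rfl⟩ ?_⟩
    rw [← hl]; rfl

end Pool.Agent.P.MP_860a31_lc
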