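import Pool.Agent.P.MP_860a31_lc.Basic

/-!
The object of size `lam` is the union of a chain of closed sets over which it realises all types.
-/

open Cardinal hiding univ
open Set SetRel

namespace Pool.Agent.P.MP_860a31_lc

namespace SatP

variable {κ lam : Cardinal.{0}} {C : Ctx κ lam} {Ω : Type}

/-- the common part of two ambient objects -/
def rel (a b : Amb C Ω) : SetRel (C.U a.M) (C.U b.M) := {p | a.j p.1 = b.j p.2}

theorem le_refl' (a : Amb C Ω) : a.le a := by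
  refine ⟨?_, Subset.rfl⟩
  have : {p : C.U a.M × C.U a.M | a.j p.1 = a.j p.2} = idOn univ := by
    ext ⟨x, y⟩; simp [a.inj.eq_iff]
  rw [this]; exact Ctx.pi_idOn_univ

theorem le_trans' {a b c : Amb C Ω} (h : a.le b) (h' : b.le c) : a.le c := by
  refine ⟨?_, h.2.trans h'.2⟩
  have : {p : C.U a.M × C.U c.M | a.j p.1 = c.j p.2} = rel a b ○ rel b c := by
    ext ⟨x, z⟩
    constructor
    · intro e
      obtain ⟨y, hy⟩ := h.2 ⟨x, rfl⟩
      exact ⟨y, hy.symm, hy.trans e⟩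
    · rintro ⟨y, e1, e2⟩
      exact Eq.trans e1 e2
  rw [this]; exact C.pi_comp h.1 h'.1

/-- `b` realises all types over `a` -/
def Realises (a b : Amb C Ω) : Prop :=
  ∀ (Q : C.Obj) (Γ : SetRel (C.U a.M) (C.U Q)), C.PI Γ → ∀ q : C.U Q,
    ∃ (x : C.U b.M) (Γ' : SetRel (C.U b.M) (C.U Q)), C.PI Γ' ∧ (x, q) ∈ Γ' ∧
      ∀ u v z, (u, v) ∈ Γ → a.j u = b.j z → (z, v) ∈ Γ'

theorem Realises.mono {a b c : Amb C Ω} (h : a.le b) (h' : Realises b c) : Realises a c := by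
  intro Q Γ hΓ q
  obtain ⟨x, Γ', h1, h2, h3⟩ := h' Q ((rel a b).inv ○ Γ) (C.pi_comp (C.pi_inv h.1) hΓ) q
  refine ⟨x, Γ', h1, h2, fun u v z huv e => ?_⟩
  obtain ⟨u', hu'⟩ := h.2 ⟨u, rfl⟩
  exact h3 u' v z ⟨u, hu'.symm, huv⟩ (hu'.trans e)

/-- upper bound of a chain with a base point -/
theorem ub (h1 : S_Amb) {ι : Type} [LinearOrder ι] (a0 : Amb C Ω) (a : ι → Amb C Ω)
    (h0 : ∀ k, a0.le (a k)) (hc : ∀ k l, k < l → (a k).le (a l)) {θ : Cardinal.{0}}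
    (hθ : ℵ₀ ≤ θ) (hι : #ι ≤ θ) (hc0 : #(C.U a0.M) ≤ θ) (hca : ∀ k, #(C.U (a k).M) ≤ θ) :
    ∃ b : Amb C Ω, a0.le b ∧ (∀ k, (a k).le b) ∧ #(C.U b.M) ≤ θ ∧
      ∀ x, b.j x ∈ range a0.j ∨ ∃ k, b.j x ∈ range (a k).j := by
  have hle : ∀ k l, k ≤ l → (a k).le (a l) := fun k l h => by
    rcases h.eq_or_lt with rfl | h
    · exact le_refl' _
    · exact hc k l h
  obtain ⟨b, hb, hr⟩ := (h1 κ lam C Ω).1 (insert a0 (range a)) (insert_nonempty _ _) (by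
    rintro x (rfl | ⟨k, rfl⟩) y (rfl | ⟨l, rfl⟩)
    · exact ⟨_, mem_insert _ _, le_refl' _, le_refl' _⟩
    · exact ⟨a l, Or.inr ⟨l, rfl⟩, h0 l, le_refl' _⟩
    · exact ⟨a k, Or.inr ⟨k, rfl⟩, le_refl' _, h0 k⟩
    · exact ⟨a (max k l), Or.inr ⟨_, rfl⟩, hle _ _ (le_max_left _ _), hle _ _ (le_max_right _ _)⟩)
  have hr' : range b.j = range a0.j ∪ ⋃ k, range (a k).j := by
    rw [hr, biUnion_insert, biUnion_range]
  refine ⟨b, hb _ (mem_insert _ _), fun k => hb _ (Or.inr ⟨k, rfl⟩), ?_, fun x => ?_⟩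
  · rw [← mk_range_eq _ b.inj, hr']
    refine (mk_union_le _ _).trans (add_le_of_le hθ (mk_range_le.trans hc0) ?_)
    refine (mk_iUnion_le _).trans ?_
    refine (mul_le_mul' hι (ciSup_le' fun k => mk_range_le.trans (hca k))).trans ?_
    exact (mul_eq_self hθ).le
  · have : b.j x ∈ range a0.j ∪ ⋃ k, range (a k).j := hr' ▸ mem_range_self x
    simpa only [mem_union, mem_iUnion] using this

/-- one step: a proper extension of the same size realising all types -/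
theorem step (h1 : S_Amb) (h2 : S_Ext) (E : EM C) (hΩ : #Ω = lam) {θ : Cardinal.{0}}
    (hκ : κ ≤ θ) (hθ : θ < lam) (b : Amb C Ω) (hb : #(C.U b.M) ≤ θ) :
    ∃ (a : Amb C Ω) (w : Ω), b.le a ∧ #(C.U a.M) ≤ θ ∧ w ∈ range a.j ∧ w ∉ range b.j ∧
      Realises b a := by
  obtain ⟨N', f, hf, hN', hre⟩ := h2 κ lam C E θ hκ hθ b.M hb
  have hinf : ℵ₀ ≤ lam := (C.inf.trans hκ).trans hθ.le
  obtain ⟨j, hj, hjf, hle⟩ := (h1 κ lam C Ω).2 b N' f hf (hinf.trans hΩ.ge)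
    ((hN'.trans_lt hθ).trans_le hΩ.ge)
  obtain ⟨N, hN⟩ := C.cat_ex
  obtain ⟨P, F, G, hF, hG, -⟩ := C.ap (C.pi_empty (M := b.M) (N := N))
  have hq : ∃ q, q ∉ range F := by
    by_contra hcon
    push Not at hcon
    have h3 : #(C.U P) ≤ #(C.U b.M) := mk_le_of_surjective (f := F) hcon
    have h4 : lam ≤ #(C.U P) := hN.ge.trans (Ctx.card_le_of_emb hG)
    exact absurd (h4.trans (h3.trans hb)) hθ.not_ge
  obtain ⟨q, hq⟩ := hq
  obtain ⟨x, Γ', hΓ', hxq, hx⟩ := hre P F.graph hF q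
  refine ⟨⟨N', j, hj⟩, j x, hle, hN', ⟨x, rfl⟩, ?_, ?_⟩
  · rintro ⟨u, hu⟩
    have e : f u = x := hj ((hjf u).trans hu)
    have h5 : (f u, F u) ∈ Γ' := hx u (F u) rfl
    rw [e] at h5
    exact hq ⟨u, C.pi_fun hΓ' h5 hxq⟩
  · intro Q Γ hΓ q'
    obtain ⟨y, Δ, hΔ, hy, hΔ'⟩ := hre Q Γ hΓ q'
    refine ⟨y, Δ, hΔ, hy, fun u v z huv e => ?_⟩
    have e' : f u = z := hj ((hjf u).trans e)
    exact e' ▸ hΔ' u v huv

end SatP

open SatP in
theorem sat (h1 : S_Amb) (h2 : S_Ext) : S_Sat := by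
  intro κ lam C E hκ N hN
  have hinf : ℵ₀ ≤ lam := C.inf.trans hκ.le
  have hΩ : #(C.U N) = lam := hN
  have : NoMaxOrder lam.ord.ToType := Cardinal.noMaxOrder hinf
  have hIio : ∀ i : lam.ord.ToType, #(Iio i) < lam := fun i => by
    simpa using mk_Iio_lt i (by simp)
  have hne : Nonempty (C.U N) := by
    rw [← mk_ne_zero_iff, hN]; exact (aleph0_pos.trans_le hinf).ne'
  obtain ⟨x0⟩ := hne
  obtain ⟨M0, j0, hj0, hr0⟩ := C.sub (C.cl_cl ({x0} : Set (C.U N))) ⟨x0, C.sub_cl _ rfl⟩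
  let a0 : Amb C (C.U N) := ⟨M0, j0, Ctx.emb_inj hj0⟩
  have hc0 : #(C.U a0.M) ≤ κ := by
    rw [← mk_range_eq _ a0.inj]
    show #(range j0) ≤ κ
    rw [hr0]
    exact Ctx.card_cl_le le_rfl (by simpa using one_le_aleph0.trans C.inf)
  obtain ⟨a, ha, hR⟩ := chain_rec (Λ := lam.ord.ToType) (A := Amb C (C.U N) × C.U N)
    (fun i x => a0.le x.1 ∧ #(C.U x.1.M) ≤ #(Iio i) + κ ∧ x.2 ∈ range x.1.j)
    (fun x y => x.1.le y.1 ∧ y.2 ∉ range x.1.j ∧ Realises x.1 y.1) (by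
      intro i a hP hRa
      have hθ : ℵ₀ ≤ #(Iio i) + κ := C.inf.trans le_add_self
      have hθl : #(Iio i) + κ < lam := add_lt_of_lt hinf (hIio i) hκ
      obtain ⟨b, hb0, hba, hbc, -⟩ := ub h1 a0 (fun k => (a k).1) (fun k => (hP k).1)
        (fun k l h => (hRa k l h).1) hθ le_self_add (hc0.trans le_add_self) (fun k => by
          refine (hP k).2.1.trans ?_
          gcongr
          exact mk_le_mk_of_subset (Iio_subset_Iio k.2.le))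
      obtain ⟨a', w, hle, hca, hw, hw', hre⟩ := step h1 h2 E hΩ le_add_self hθl b hbc
      exact ⟨(a', w), ⟨le_trans' hb0 hle, hca, hw⟩, fun k =>
        ⟨le_trans' (hba k) hle, fun h => hw' ((hba k).2 h), hre.mono (hba k)⟩⟩)
  obtain ⟨b, hb0, hba, hbc, hbcov⟩ := ub h1 a0 (fun k => (a k).1) (fun k => (ha k).1)
    (fun k l h => (hR k l h).1) hinf (mk_ord_toType lam).le (hc0.trans hκ.le)
    (fun k => (ha k).2.1.trans (add_lt_of_lt hinf (hIio k) hκ).le)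
  have hbl : #(C.U b.M) = lam := by
    refine le_antisymm hbc ?_
    rw [← mk_range_eq _ b.inj]
    refine (mk_ord_toType lam).ge.trans (mk_le_of_injective
      (f := fun k => (⟨(a k).2, (hba k).2 (ha k).2.2⟩ : range b.j)) ?_)
    intro k l e
    have e' : (a k).2 = (a l).2 := congrArg Subtype.val e
    rcases lt_trichotomy k l with h | h | h
    · exact absurd (e' ▸ (ha k).2.2) (hR k l h).2.1
    · exact h
    · exact absurd (e' ▸ (ha l).2.2) (hR l k h).2.1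
  obtain ⟨Φ, hΦ, hdom, hcod⟩ := C.cat b.M N hbl hN
  have hρ : ∀ i, C.PI (rel (a i).1 b ○ Φ) := fun i => C.pi_comp (hba i).1 hΦ
  have hΛ : Nonempty lam.ord.ToType := by
    rw [← mk_ne_zero_iff, mk_ord_toType]; exact (aleph0_pos.trans_le hinf).ne'
  refine ⟨lam.ord.ToType, inferInstance, fun i => (rel (a i).1 b ○ Φ).cod, ?_,
    fun i => Ctx.pi_cod (hρ i), fun x => ?_, fun i Q Γ hΓ hD q => ?_⟩
  · intro i k hik
    rcases hik.eq_or_lt with rfl | hik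
    · exact Subset.rfl
    · rintro y ⟨u, z, huz, hzy⟩
      obtain ⟨u', hu'⟩ := (hR i k hik).1.2 ⟨u, rfl⟩
      exact ⟨u', z, hu'.trans huz, hzy⟩
  · obtain ⟨z, hz⟩ : x ∈ Φ.cod := hcod ▸ mem_univ x
    have : ∃ k, b.j z ∈ range (a k).1.j := by
      rcases hbcov z with h | h
      · exact ⟨hΛ.some, (ha _).1.2 h⟩
      · exact h
    obtain ⟨k, u, hu⟩ := this
    exact ⟨k, u, z, hu, hz⟩
  · obtain ⟨k, hik⟩ := exists_gt i
    obtain ⟨x, Γ1, hΓ1, hxq, hΓ1'⟩ := (hR i k hik).2.2 Q ((rel (a i).1 b ○ Φ) ○ Γ)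
      (C.pi_comp (hρ i) hΓ) q
    obtain ⟨z, hz⟩ := (hba k).2 ⟨x, rfl⟩
    obtain ⟨y, hy⟩ : z ∈ Φ.dom := hdom ▸ mem_univ z
    refine ⟨y, (rel (a k).1 b ○ Φ).inv ○ Γ1, C.pi_comp (C.pi_inv (hρ k)) hΓ1, ?_,
      x, ⟨z, hz.symm, hy⟩, hxq⟩
    rintro ⟨s, v⟩ hsv
    obtain ⟨u, z', huz, hzs⟩ := hD ⟨v, hsv⟩
    obtain ⟨u', hu'⟩ := (hR i k hik).1.2 ⟨u, rfl⟩
    exact ⟨u', ⟨z', hu'.trans huz, hzs⟩, hΓ1' u v u' ⟨s, ⟨z', huz, hzs⟩, hsv⟩ hu'.symm⟩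

end Pool.Agent.P.MP_860a31_lc
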