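import Pool.Agent.P.MP_860a31_lc.Basic

/-!
Extension of a group element from one block level to the whole block order.
-/

open Cardinal hiding univ
open Set SetRel

namespace Pool.Agent.P.MP_860a31_lc

namespace StabP

/-- the map induced on the product -/
def bl {Λ B : Type} (φ : B → B) (p : Λ ×ₗ B) : Λ ×ₗ B := toLex ((ofLex p).1, φ (ofLex p).2)

theorem bl_congr {Λ B : Type} {φ ψ : B → B} {S : Set B} (h : EqOn φ ψ S) (W : Set Λ) :
    EqOn (bl φ) (bl ψ) (box W S) :=
  fun p hp => by simp only [bl, h hp.2]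

theorem mor {Λ B : Type} [LinearOrder Λ] [LinearOrder B] {s0 : Set (Λ ×ₗ B)} {φ : B → B}
    {D D' : Set B} (h1 : StrictMono φ) (h2 : ∀ x, φ x ∈ D') (h3 : EqOn φ id D) {W : Set Λ}
    (h0 : s0 ⊆ box W D) : Mor s0 (box W univ) (box W D') (bl φ) where
  base := h0.trans (box_mono Subset.rfl (subset_univ _))
  mono p _ q _ hpq := by
    rw [Prod.Lex.lt_iff] at hpq ⊢
    exact hpq.imp_right fun a => ⟨a.1, h1 a.2⟩
  maps p hp := ⟨hp.1, h2 _⟩
  fix p hp := bl_congr h3 W (h0 hp)

end StabP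

open StabP

theorem stab : S_Stab := by
  intro κ μ _ Λ B _ _ C hB s0 P V _ k h0 g
  obtain ⟨φ, h1, h2, h3⟩ := hB.emb k
  refine ⟨P.res _ (mor h1 h2 h3 h0) g, fun a b => ?_, fun W hW h0' hT a => ?_⟩
  · rw [P.res_comp]
    exact P.res_congr _ _ (fun p hp => (bl_congr h3 V hp).symm) g
  · have h4 : Mor s0 (box W (C (k + 1))) (box V (C (k + 1))) id :=
      Mor.incl (h0'.trans (box_mono Subset.rfl (hB.mono k.le_succ))) (box_mono hW Subset.rfl)
    have e := P.res_comp (mor h1 h2 h3 h0') h4 g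
    rw [hT h4, map_one] at e
    rw [P.res_comp]
    exact e.symm

end Pool.Agent.P.MP_860a31_lc
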