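import Pool.Agent.P.MP_860a31_lc.Basic

/-!
Stability below the categoricity cardinal: among more than `θ` elements two have the same type
over a set of size `≤ θ`.
-/

open Cardinal hiding univ
open Set SetRel

namespace Pool.Agent.P.MP_860a31_lc

namespace StbP

variable {Λ : Type} [LinearOrder Λ] [WellFoundedLT Λ]

/-- the elements of `J` above `p`, together with the top -/
def ab (J : Set Λ) (p : Λ) : Set (WithTop Λ) := {x | x = ⊤ ∨ ∃ j ∈ J, p ≤ j ∧ x = (j : WithTop Λ)}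

/-- the least element of `J` above `p`, or the top -/
noncomputable def nxt (J : Set Λ) (p : Λ) : WithTop Λ :=
  (wellFounded_lt (α := WithTop Λ)).min (ab J p) ⟨⊤, Or.inl rfl⟩

theorem nxt_mem (J : Set Λ) (p : Λ) : nxt J p ∈ ab J p :=
  WellFounded.min_mem _ _ _

theorem nxt_le (J : Set Λ) (p : Λ) {x : WithTop Λ} (hx : x ∈ ab J p) : nxt J p ≤ x :=
  not_lt.1 (WellFounded.not_lt_min _ _ hx)

theorem nxt_mono (J : Set Λ) {p q : Λ} (h : p ≤ q) : nxt J p ≤ nxt J q := by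
  apply nxt_le
  rcases nxt_mem J q with h1 | ⟨j, hj, h1, h2⟩
  · exact Or.inl h1
  · exact Or.inr ⟨j, hj, h.trans h1, h2⟩

theorem le_nxt (J : Set Λ) (p : Λ) : (p : WithTop Λ) ≤ nxt J p := by
  rcases nxt_mem J p with h1 | ⟨j, -, h1, h2⟩
  · rw [h1]; exact le_top
  · rw [h2]; exact WithTop.coe_le_coe.2 h1

theorem nxt_le_self {J : Set Λ} {p : Λ} (h : p ∈ J) : nxt J p ≤ (p : WithTop Λ) :=
  nxt_le J p (Or.inr ⟨p, h, le_rfl, rfl⟩)

open Classical in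
/-- the compressing map -/
noncomputable def cmp (J : Set Λ) (t : Finset Λ) (p : Λ) : WithTop Λ ×ₗ WithTop ℕ :=
  toLex (nxt J p, if p ∈ J then ⊤ else (((t.filter (· < p)).card : ℕ) : WithTop ℕ))

theorem cmp_eqOn (J : Set Λ) (t t' : Finset Λ) : EqOn (cmp J t) (cmp J t') J := by
  intro p hp
  simp only [cmp, if_pos hp]

theorem cmp_mem (J : Set Λ) (t : Finset Λ) (p : Λ) :
    cmp J t p ∈ box (insert ⊤ (((↑) : Λ → WithTop Λ) '' J)) (univ : Set (WithTop ℕ)) := by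
  refine ⟨?_, trivial⟩
  rcases nxt_mem J p with h1 | ⟨j, hj, -, h2⟩
  · exact Or.inl h1
  · exact Or.inr ⟨j, hj, h2.symm⟩

theorem cmp_mono (J : Set Λ) (t : Finset Λ) : StrictMonoOn (cmp J t) (J ∪ (t : Set Λ)) := by
  classical
  intro p hp q _ hpq
  simp only [cmp]
  rw [Prod.Lex.toLex_lt_toLex]
  rcases (nxt_mono J hpq.le).lt_or_eq with h | h
  · exact Or.inl h
  · refine Or.inr ⟨h, ?_⟩
    have hpJ : p ∉ J := by
      intro hpJ
      have h1 : (q : WithTop Λ) ≤ (p : WithTop Λ) :=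
        (le_nxt J q).trans (h.ge.trans (nxt_le_self hpJ))
      exact absurd (WithTop.coe_le_coe.1 h1) hpq.not_ge
    have hpt : p ∈ t := hp.resolve_left hpJ
    simp only [if_neg hpJ]
    split_ifs with hq
    · exact WithTop.coe_lt_top _
    · refine WithTop.coe_lt_coe.2 (Finset.card_lt_card ⟨?_, ?_⟩)
      · intro x hx
        rw [Finset.mem_filter] at hx ⊢
        exact ⟨hx.1, hx.2.trans hpq⟩
      · intro hs
        have h1 := hs (Finset.mem_filter.2 ⟨hpt, hpq⟩)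
        exact lt_irrefl _ (Finset.mem_filter.1 h1).2

omit [LinearOrder Λ] [WellFoundedLT Λ] in
theorem card_tgt {θ : Cardinal.{0}} (hθ : ℵ₀ ≤ θ) {J : Set Λ} (hJ : #J ≤ θ) :
    #(box (insert ⊤ (((↑) : Λ → WithTop Λ) '' J)) (univ : Set (WithTop ℕ))) ≤ θ := by
  refine (card_box _ _).trans (mul_le_of_le hθ ?_ ?_)
  · exact mk_insert_le.trans
      (add_le_of_le hθ (mk_image_le.trans hJ) (one_le_aleph0.trans hθ))
  · exact mk_le_aleph0.trans hθ

/-- the statement for elements of the standard object over a well-order -/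
theorem std {κ lam : Cardinal.{0}} {C : Ctx κ lam} (E : EM C) [Nonempty Λ] {θ : Cardinal.{0}}
    (hκθ : κ ≤ θ) (A : Set (C.U (E.obj Λ))) (hA : #A ≤ θ) (W : Type) (a : W → C.U (E.obj Λ))
    (hW : θ < #W) :
    ∃ w w' : W, w ≠ w' ∧ ∃ Δ : SetRel (C.U (E.obj Λ)) (C.U (E.obj Λ)), C.PI Δ ∧
      (∀ x ∈ A, (x, x) ∈ Δ) ∧ (a w, a w') ∈ Δ := by
  classical
  have hinf : ℵ₀ ≤ θ := C.inf.trans hκθ
  have hfin : ∀ y : C.U (E.obj Λ), ∃ t : Finset Λ, y ∈ E.sp (t : Set Λ) := by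
    intro y
    have hy : y ∈ E.sp (univ : Set Λ) := by rw [E.sp_univ]; trivial
    obtain ⟨t, -, ht⟩ := E.sp_fin hy
    exact ⟨t, ht⟩
  choose tt htt using hfin
  let J : Set Λ := ⋃ x : A, (tt x.1 : Set Λ)
  have hJ : #J ≤ θ := by
    refine mk_iUnion_le_sum_mk.trans ?_
    refine (sum_le_sum _ (fun _ => θ) fun x => ?_).trans ?_
    · exact (Finset.finite_toSet _).lt_aleph0.le.trans hinf
    · rw [sum_const']
      exact mul_le_of_le hinf hA le_rfl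
  have hAJ : ∀ x ∈ A, x ∈ E.sp J := fun x hx =>
    E.sp_mono (subset_iUnion (fun x : A => (tt x.1 : Set Λ)) ⟨x, hx⟩) (htt x)
  let T : Set (WithTop Λ ×ₗ WithTop ℕ) :=
    box (insert ⊤ (((↑) : Λ → WithTop Λ) '' J)) (univ : Set (WithTop ℕ))
  have hT : #(E.sp T) ≤ θ := E.card_sp_le hκθ (card_tgt hinf hJ)
  have hy : ∀ w : W, ∃ y : E.sp T,
      (a w, y.1) ∈ E.Tr (J ∪ (tt (a w) : Set Λ)) (cmp J (tt (a w))) := by
    intro w
    obtain ⟨y, hy, h⟩ := E.tr_map (cmp_mono J (tt (a w))) subset_union_right (htt (a w))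
    refine ⟨⟨y, E.sp_mono ?_ hy⟩, h⟩
    rintro _ ⟨p, -, rfl⟩
    exact cmp_mem J _ p
  choose y hy using hy
  have hni : ¬ Function.Injective y := fun hi =>
    absurd ((mk_le_of_injective hi).trans hT) hW.not_ge
  unfold Function.Injective at hni
  push Not at hni
  obtain ⟨w, w', e, hne⟩ := hni
  refine ⟨w, w', hne, E.Tr (J ∪ (tt (a w) : Set Λ)) (cmp J (tt (a w))) ○
    (E.Tr (J ∪ (tt (a w') : Set Λ)) (cmp J (tt (a w')))).inv,
    C.pi_comp (E.tr_pi (cmp_mono _ _)) (C.pi_inv (E.tr_pi (cmp_mono _ _))), ?_, ?_⟩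
  · intro x hx
    obtain ⟨z, -, hz⟩ := E.tr_map (cmp_mono J (tt (a w))) subset_union_left (hAJ x hx)
    exact ⟨z, hz, E.tr_agree (cmp_mono J (tt (a w))) subset_union_left subset_union_left
      (cmp_eqOn J _ _) (hAJ x hx) hz⟩
  · refine ⟨(y w).1, hy w, ?_⟩
    rw [e]
    exact hy w'

end StbP

theorem stb : S_Stb := by
  classical
  intro κ lam C E θ hκθ hθ M A hA W a hW
  have hinf : ℵ₀ ≤ θ := C.inf.trans hκθ
  have hκ : κ ≤ lam := hκθ.trans hθ.le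
  have hinfl : ℵ₀ ≤ lam := hinf.trans hθ.le
  obtain ⟨W', hW'⟩ := le_mk_iff_exists_set.1 (Order.succ_le_of_lt hW)
  have hΛ : #(lam.ord.ToType) = lam := mk_ord_toType lam
  have hne : Nonempty lam.ord.ToType := by
    rw [← mk_ne_zero_iff, hΛ]; exact (aleph0_pos.trans_le hinfl).ne'
  have hN : #(C.U (E.obj lam.ord.ToType)) = lam := by
    rw [E.card_obj (hΛ.symm ▸ hκ), hΛ]
  have hD : #(A ∪ a '' W' : Set (C.U M)) ≤ lam :=
    (mk_union_le _ _).trans (add_le_of_le hinfl (hA.trans hθ.le)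
      (mk_image_le.trans (hW'.le.trans (Order.succ_le_of_lt hθ))))
  obtain ⟨Γ, hΓ, hdom⟩ := Ctx.universal hκ (A ∪ a '' W') hD hN
  have hg : ∀ x : (A ∪ a '' W' : Set (C.U M)), ∃ y, (x.1, y) ∈ Γ := fun x => hdom x.2
  choose g hg using hg
  have hA' : #(range fun x : A => g ⟨x.1, Or.inl x.2⟩) ≤ θ := mk_range_le.trans hA
  obtain ⟨w, w', hww, Δ, hΔ, hfix, hmv⟩ := StbP.std E hκθ _ hA' W'
    (fun w => g ⟨a w.1, Or.inr (mem_image_of_mem a w.2)⟩) (hW' ▸ Order.lt_succ θ)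
  refine ⟨w.1, w'.1, fun e => hww (Subtype.ext e), Γ ○ (Δ ○ Γ.inv),
    C.pi_comp hΓ (C.pi_comp hΔ (C.pi_inv hΓ)), ?_, ?_⟩
  · intro x hx
    exact ⟨_, hg ⟨x, Or.inl hx⟩, _, hfix _ ⟨⟨x, hx⟩, rfl⟩, hg ⟨x, Or.inl hx⟩⟩
  · exact ⟨_, hg ⟨a w.1, Or.inr (mem_image_of_mem a w.2)⟩, _, hmv,
      hg ⟨a w'.1, Or.inr (mem_image_of_mem a w'.2)⟩⟩

end Pool.Agent.P.MP_860a31_lc
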