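import Pool.Agent.P.MP_860a31_lc.Basic

/-!
Atoms outside a small set have the same type over it; moving supports to the top part.
-/

open Cardinal hiding univ
open Set SetRel

namespace Pool.Agent.P.MP_860a31_lc

namespace TopP

/-- a point of the triple lexicographic product -/
def mk {I Y : Type} (i : I) (y : Y) (w : WithTop I) : I ×ₗ (Y ×ₗ WithTop I) :=
  toLex (i, toLex (y, w))

theorem mk_lt {I Y : Type} [LinearOrder I] [LinearOrder Y] {i i' : I} {y y' : Y}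
    {w w' : WithTop I} :
    mk i y w < mk i' y' w' ↔ i < i' ∨ i = i' ∧ (y < y' ∨ y = y' ∧ w < w') := by
  simp only [mk, Prod.Lex.toLex_lt_toLex]

/-- the map that sends `p` and `q` to two points of the fibre over `p` -/
noncomputable def sw {I Y : Type} [LinearOrder I] (p q : I) (f f' η f0 : Y) (z : I) :
    I ×ₗ (Y ×ₗ WithTop I) :=
  if z = p then mk p f ⊤ else if z = q then mk p f' ⊤ else
    if p < z ∧ z < q then mk p η z else mk z f0 ⊤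

theorem sw_mono {I Y : Type} [LinearOrder I] [LinearOrder Y] {p q : I} {f f' η : Y} (f0 : Y)
    (hpq : p < q) (h1 : f < η) (h2 : η ≤ f') : StrictMono (sw p q f f' η f0) := by
  intro z z' h
  have h3 := h1.trans_le h2
  unfold sw
  split_ifs with a1 a2 a3 a4 a5 a6 a7 a8 a9 a10 a11 a12 a13 a14 a15 <;> rw [mk_lt]
  · exact absurd (a1.trans a2.symm) h.ne
  · exact Or.inr ⟨rfl, Or.inl h3⟩
  · exact Or.inr ⟨rfl, Or.inl h1⟩
  · exact Or.inl (a1 ▸ h)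
  · exact absurd (a5 ▸ a6 ▸ h) hpq.not_gt
  · exact absurd (a5.trans a7.symm) h.ne
  · exact absurd (a5 ▸ h) a8.2.not_gt
  · exact Or.inl (hpq.trans (a5 ▸ h))
  · exact absurd (a10 ▸ h) a9.1.not_gt
  · rcases h2.lt_or_eq with h4 | h4
    · exact Or.inr ⟨rfl, Or.inl h4⟩
    · exact Or.inr ⟨rfl, Or.inr ⟨h4, WithTop.coe_lt_top _⟩⟩
  · exact Or.inr ⟨rfl, Or.inr ⟨rfl, WithTop.coe_lt_coe.2 h⟩⟩
  · exact Or.inl (a9.1.trans h)
  · exact Or.inl (a13 ▸ h)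
  · exact Or.inl (lt_of_le_of_ne (not_lt.1 fun h4 => a9 ⟨h4, a14 ▸ h⟩) a1)
  · exact Or.inl (lt_of_le_of_ne (not_lt.1 fun h4 => a9 ⟨h4, h.trans a15.2⟩) a1)
  · exact Or.inl h

theorem swap_lt (h1 : S_Stb) (h2 : S_Ded) {κ lam : Cardinal.{0}} {C : Ctx κ lam} (E : EM C)
    {θ : Cardinal.{0}} (hκ : κ ≤ θ) (hθ : θ < lam) {I : Type} [LinearOrder I] {Z : Set I}
    (hZ : #Z ≤ θ) {p q : I} (hp : p ∉ Z) (hq : q ∉ Z) (hpq : p < q) :
    ∃ Δ : SetRel (C.U (E.obj I)) (C.U (E.obj I)), C.PI Δ ∧ (∀ x ∈ E.sp Z, (x, x) ∈ Δ) ∧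
      (E.atm I p, E.atm I q) ∈ Δ := by
  have hinf : ℵ₀ ≤ θ := C.inf.trans hκ
  obtain ⟨Y, _, Y0, hY0, hY, hd⟩ := h2 θ hinf
  obtain ⟨f0⟩ : Nonempty Y := by
    rw [← mk_ne_zero_iff]; exact ((aleph0_pos.trans_le hinf).trans hY).ne'
  let A0 : Set (I ×ₗ (Y ×ₗ WithTop I)) :=
    (fun z => mk z f0 ⊤) '' Z ∪ range fun a : Y0 × Z => mk p a.1.1 (a.2.1 : WithTop I)
  have hA0 : #A0 ≤ θ := by
    refine (mk_union_le _ _).trans (add_le_of_le hinf (mk_image_le.trans hZ)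
      (mk_range_le.trans ?_))
    have : #(Y0 × Z) = #Y0 * #Z := by simp
    rw [this]
    exact mul_le_of_le hinf hY0 hZ
  have key : ∃ f f' : Y, f < f' ∧ ∃ Δ : SetRel (C.U (E.obj (I ×ₗ (Y ×ₗ WithTop I))))
      (C.U (E.obj (I ×ₗ (Y ×ₗ WithTop I)))), C.PI Δ ∧ (∀ x ∈ E.sp A0, (x, x) ∈ Δ) ∧
      (E.atm _ (mk p f ⊤), E.atm _ (mk p f' ⊤)) ∈ Δ := by
    obtain ⟨f, f', hne, Δ, d1, d2, d3⟩ := h1 κ lam C E θ hκ hθ _ (E.sp A0) (E.card_sp_le hκ hA0)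
      Y (fun f => E.atm _ (mk p f ⊤)) hY
    rcases hne.lt_or_gt with h | h
    · exact ⟨f, f', h, Δ, d1, d2, d3⟩
    · exact ⟨f', f, h, Δ.inv, C.pi_inv d1, d2, d3⟩
  obtain ⟨f, f', hf, Δ, d1, d2, d3⟩ := key
  obtain ⟨η, hη, e1, e2⟩ := hd f f' hf
  have hu := (sw_mono f0 hpq e1 e2).strictMonoOn univ
  have hT := E.tr_pi hu
  have hZA : sw p q f f' η f0 '' Z ⊆ A0 := by
    rintro _ ⟨z, hz, rfl⟩
    have a1 : z ≠ p := fun e => hp (e ▸ hz)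
    have a2 : z ≠ q := fun e => hq (e ▸ hz)
    unfold sw
    rw [if_neg a1, if_neg a2]
    split_ifs
    · exact Or.inr ⟨(⟨η, hη⟩, ⟨z, hz⟩), rfl⟩
    · exact Or.inl ⟨z, hz, rfl⟩
  refine ⟨E.Tr univ (sw p q f f' η f0) ○ (Δ ○ (E.Tr univ (sw p q f f' η f0)).inv),
    C.pi_comp hT (C.pi_comp d1 (C.pi_inv hT)), fun x hx => ?_, ?_⟩
  · obtain ⟨y, hy, hxy⟩ := E.tr_map hu (subset_univ Z) hx
    exact ⟨y, hxy, y, d2 y (E.sp_mono hZA hy), hxy⟩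
  · have a1 := E.tr_atm hu p (mem_univ _)
    have a2 := E.tr_atm hu q (mem_univ _)
    have b1 : sw p q f f' η f0 p = mk p f ⊤ := if_pos rfl
    have b2 : sw p q f f' η f0 q = mk p f' ⊤ := by
      unfold sw
      rw [if_neg hpq.ne', if_pos rfl]
    rw [b1] at a1
    rw [b2] at a2
    exact ⟨_, a1, _, d3, a2⟩

theorem perm (h : S_Swap) {κ lam : Cardinal.{0}} {C : Ctx κ lam} (E : EM C)
    {θ : Cardinal.{0}} (hκ : κ ≤ θ) (hθ : θ < lam) {I : Type} [LinearOrder I] (v : I → I)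
    (t : Finset I) : ∀ Z : Set I, #Z ≤ θ → InjOn v t → (∀ p ∈ t, p ∉ Z) → (∀ p ∈ t, v p ∉ Z) →
      (∀ p ∈ t, v p ∉ t) → ∃ Δ : SetRel (C.U (E.obj I)) (C.U (E.obj I)), C.PI Δ ∧
        (∀ x ∈ E.sp Z, (x, x) ∈ Δ) ∧ ∀ p ∈ t, (E.atm I p, E.atm I (v p)) ∈ Δ := by
  have hinf : ℵ₀ ≤ θ := C.inf.trans hκ
  induction t using Finset.induction_on with
  | empty =>
    exact fun Z _ _ _ _ _ => ⟨idOn univ, Ctx.pi_idOn_univ, fun x _ => ⟨rfl, mem_univ _⟩, by simp⟩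
  | insert p t hp ih =>
    intro Z hZ hv h1 h2 h3
    have mp : p ∈ insert p t := Finset.mem_insert_self _ _
    have mt : ∀ q ∈ t, q ∈ insert p t := fun q hq => Finset.mem_insert_of_mem hq
    obtain ⟨Δ1, a1, a2, a3⟩ := h κ lam C E θ hκ hθ I (Z ∪ t)
      ((mk_union_le _ _).trans (add_le_of_le hinf hZ
        (t.finite_toSet.lt_aleph0.le.trans hinf))) p (v p)
      (fun e => e.elim (h1 p mp) hp) (fun e => e.elim (h2 p mp) fun e => h3 p mp (mt _ e))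
    obtain ⟨Δ2, b1, b2, b3⟩ := ih (insert (v p) Z)
      (mk_insert_le.trans (add_le_of_le hinf hZ (one_le_aleph0.trans hinf)))
      (hv.mono fun q hq => mt q hq)
      (fun q hq e => e.elim (fun e => h3 p mp (e ▸ mt q hq)) (h1 q (mt q hq)))
      (fun q hq e => e.elim (fun e => hp (hv (mt q hq) mp e ▸ hq)) (h2 q (mt q hq)))
      (fun q hq e => h3 q (mt q hq) (mt _ e))
    refine ⟨Δ1 ○ Δ2, C.pi_comp a1 b1, fun x hx => ⟨x, a2 x (E.sp_mono subset_union_left hx),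
      b2 x (E.sp_mono (subset_insert _ _) hx)⟩, fun q hq => ?_⟩
    rcases Finset.mem_insert.1 hq with rfl | hq
    · exact ⟨_, a3, b2 _ (E.atm_mem_sp (mem_insert _ _))⟩
    · exact ⟨_, a2 _ (E.atm_mem_sp (Or.inr hq)), b3 q hq⟩

end TopP

open TopP

theorem swap (h1 : S_Stb) (h2 : S_Ded) : S_Swap := by
  intro κ lam C E θ hκ hθ I _ Z hZ p q hp hq
  rcases lt_trichotomy p q with h | rfl | h
  · exact swap_lt h1 h2 E hκ hθ hZ hp hq h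
  · exact ⟨idOn univ, Ctx.pi_idOn_univ, fun x _ => ⟨rfl, mem_univ _⟩, rfl, mem_univ _⟩
  · obtain ⟨Δ, a1, a2, a3⟩ := swap_lt h1 h2 E hκ hθ hZ hq hp h
    exact ⟨Δ.inv, C.pi_inv a1, a2, a3⟩

theorem top (h : S_Swap) : S_Top := by
  classical
  intro κ lam C E θ hκ hθ I _ Z hZ x hx
  obtain ⟨t0, ht0, hxt⟩ := E.sp_fin hx
  obtain ⟨f, hf⟩ := Set.countable_iff_exists_injOn.1 t0.finite_toSet.countable
  have hs : ∀ p ∈ t0.filter (· ∉ lo I '' Z), p ∈ t0 := fun p hp => (Finset.mem_filter.1 hp).1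
  obtain ⟨Δ, a1, a2, a3⟩ := perm h E hκ hθ (fun p => hi I (f p)) (t0.filter (· ∉ lo I '' Z))
    (lo I '' Z) (mk_image_le.trans hZ) (fun p hp q hq e => hf (hs p hp) (hs q hq) (hi_inj e))
    (fun p hp => (Finset.mem_filter.1 hp).2)
    (fun p _ ⟨z, _, e⟩ => lo_ne_hi _ _ e)
    (fun p _ e => by
      obtain ⟨z, e'⟩ := ht0 (hs _ e)
      exact lo_ne_hi _ _ e')
  obtain ⟨y, hy, hxy⟩ := Ctx.exists_cl a1 (B := E.atm _ '' (lo I '' Z ∪ range (hi I))) (by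
    rintro _ ⟨z, hz, rfl⟩
    by_cases hzZ : z ∈ lo I '' Z
    · exact ⟨_, ⟨z, Or.inl hzZ, rfl⟩, a2 _ (E.atm_mem_sp hzZ)⟩
    · exact ⟨_, ⟨_, Or.inr ⟨f z, rfl⟩, rfl⟩, a3 z (Finset.mem_filter.2 ⟨hz, hzZ⟩)⟩) hxt
  exact ⟨y, hy, Δ, a1, a2, hxy⟩

end Pool.Agent.P.MP_860a31_lc
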