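import Pool.Agent.P.MP_860a31_lc.Basic

/-!
Types over small sets of atoms are realised over the set and the top.
-/

open Cardinal hiding univ
open Set SetRel

namespace Pool.Agent.P.MP_860a31_lc

namespace TopAbsP

theorem card_iUnion_le {α ι : Type} {θ : Cardinal.{0}} (hθ : ℵ₀ ≤ θ) (hι : #ι ≤ θ)
    {f : ι → Set α} (hf : ∀ i, #(f i) ≤ θ) : #(⋃ i, f i) ≤ θ :=
  (mk_iUnion_le f).trans ((mul_le_mul' hι (ciSup_le' hf)).trans_eq (mul_eq_self hθ))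

/-- a large subset of an order with a small dense subset contains every countable order -/
theorem dense_sub {θ : Cardinal.{0}} (hθ : ℵ₀ ≤ θ) {Y : Type} [LinearOrder Y] {Y0 : Set Y}
    (h0 : #Y0 ≤ θ) (hd : ∀ f f' : Y, f < f' → ∃ η ∈ Y0, f < η ∧ η ≤ f') {Z : Set Y}
    (hZ : θ < #Z) (B : Type) [LinearOrder B] [Countable B] :
    ∃ e : B → Y, StrictMono e ∧ ∀ b, e b ∈ Z := by
  let T : Y → Set Y := fun η => {x | x ∈ Z ∧ η < x ∧ #(Z ∩ Ico η x : Set Y) ≤ θ}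
  have hT : ∀ η, #(T η) ≤ θ := fun η => by
    have h1 : T η ⊆ {x | IsGreatest (T η) x} ∪
        ⋃ ζ : {ζ : Y0 // #(Z ∩ Ico η ζ : Set Y) ≤ θ}, Z ∩ Ico η ζ := fun x hx => by
      by_cases h : IsGreatest (T η) x
      · exact Or.inl h
      obtain ⟨y, hy, hxy⟩ : ∃ y ∈ T η, x < y := by
        by_contra h2
        exact h ⟨hx, fun y hy => not_lt.1 fun h3 => h2 ⟨y, hy, h3⟩⟩
      obtain ⟨ζ, h2, h3, h4⟩ := hd x y hxy
      exact Or.inr (mem_iUnion.2 ⟨⟨⟨ζ, h2⟩, (mk_le_mk_of_subset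
        (inter_subset_inter_right _ (Ico_subset_Ico_right h4))).trans hy.2.2⟩, hx.1, hx.2.1.le, h3⟩)
    refine (mk_le_mk_of_subset h1).trans ((mk_union_le _ _).trans (add_le_of_le hθ ?_
      (card_iUnion_le hθ ((mk_subtype_le _).trans h0) fun ζ => ζ.2)))
    exact (mk_le_one_iff_set_subsingleton.2 fun x hx y hy => hx.unique hy).trans
      (one_le_aleph0.trans hθ)
  let bad : Set Y := Y0 ∪ ⋃ η : Y0, T η
  have hb : #(bad) ≤ θ := (mk_union_le _ _).trans (add_le_of_le hθ h0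
    (card_iUnion_le hθ h0 fun η => hT η))
  have hW : ∀ W : Set Y, θ < #W → θ < #(W \ bad : Set Y) := fun W h => by
    by_contra h1
    exact h.not_ge ((le_mk_sdiff_add_mk W bad).trans (add_le_of_le hθ (not_lt.1 h1) hb))
  have : Nontrivial (Z \ bad : Set Y) :=
    one_lt_iff_nontrivial.1 ((one_le_aleph0.trans hθ).trans_lt (hW Z hZ))
  have : DenselyOrdered (Z \ bad : Set Y) := ⟨fun x y hxy => by
    obtain ⟨η, h1, h2, h3⟩ := hd x y hxy
    have h4 : η < y := h3.lt_of_ne fun e => y.2.2 (Or.inl (e ▸ h1))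
    have h5 : θ < #(Z ∩ Ico η y : Set Y) := not_le.1 fun h =>
      y.2.2 (Or.inr (mem_iUnion.2 ⟨⟨η, h1⟩, y.2.1, h4, h⟩))
    obtain ⟨z, hz⟩ := nonempty_coe_sort.1
      (mk_ne_zero_iff.1 (zero_le.trans_lt (hW _ h5)).ne')
    exact ⟨⟨z, hz.1.1, hz.2⟩, h2.trans_le hz.1.2.1, hz.1.2.2⟩⟩
  obtain ⟨e⟩ := Order.embedding_from_countable_to_dense B (Z \ bad : Set Y)
  exact ⟨fun b => e b, fun _ _ h => e.strictMono h, fun b => (e b).2.1⟩

theorem pigeon {θ : Cardinal.{0}} (hθ : ℵ₀ ≤ θ) {X T : Type} (hT : #T ≤ θ) (hX : θ < #X)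
    (c : X → T) : ∃ t, θ < #{x | c x = t} := by
  by_contra h
  have h1 := card_iUnion_le hθ hT (f := fun t => {x | c x = t}) fun t =>
    not_lt.1 fun h2 => h ⟨t, h2⟩
  rw [eq_univ_of_forall (s := ⋃ t, {x | c x = t}) fun x => mem_iUnion.2 ⟨_, rfl⟩, mk_univ] at h1
  exact hX.not_ge h1

theorem up_image_lo {I J : Type} (u : I → J) (S : Set I) :
    up u '' (lo I '' S) = lo J '' (u '' S) := by
  simp only [image_image, up_lo]

theorem up_img {I J : Type} (u : I → J) (S : Set I) :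
    up u '' (lo I '' S ∪ range (hi I)) = lo J '' (u '' S) ∪ range (hi J) := by
  rw [Set.image_union, up_image_lo, ← range_comp]
  rfl

end TopAbsP

open TopAbsP in
theorem part (h2 : S_Ded) (h3 : S_WO) : S_Part := by
  intro θ lam hθ hlam Λ B _ _ _ _
  obtain ⟨Y, _, Y0, h0, hY, hd⟩ := h2 θ hθ
  obtain ⟨R, hR⟩ := le_mk_iff_exists_set.1 (Order.succ_le_of_lt hY)
  have hA : θ < #(lam.ord.ToType) := by rwa [mk_ord_toType]
  have hR' : θ < #R := hR ▸ Order.lt_succ θ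
  refine ⟨lam.ord.ToType ×ₗ R, inferInstance, ?_, fun S hS J _ D hD hc => ?_⟩
  · change #(lam.ord.ToType × R) = lam
    rw [mk_prod, lift_id, lift_id, mk_ord_toType, hR]
    exact mul_eq_left (hθ.trans hlam.le) (Order.succ_le_of_lt hlam) (succ_ne_zero θ)
  have key : ∀ (T : Type), #T ≤ θ → ∀ c : lam.ord.ToType ×ₗ R → T,
      ∃ (t : T) (e : S → lam.ord.ToType ×ₗ R), StrictMono e ∧ ∀ s, c (e s) = t := by
    intro T hT c
    choose t ht using fun α => pigeon hθ hT hR' fun r => c (toLex (α, r))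
    obtain ⟨t0, ht0⟩ := pigeon hθ hT hA t
    obtain ⟨e1, he1⟩ := h3 ((fun p => (ofLex p).1) '' S) {α | t α = t0}
      ((mk_image_le.trans hS).trans_lt ht0)
    have h4 : ∀ α, ∃ e : B → R, StrictMono e ∧ ∀ b, c (toLex (α, e b)) = t α := fun α => by
      obtain ⟨e, he, hm⟩ := dense_sub hθ h0 hd (Z := Subtype.val '' {r : R | c (toLex (α, r)) = t α})
        (by rw [mk_image_eq Subtype.val_injective]; exact ht α) B
      choose r hr hre using hm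
      exact ⟨r, fun a b h => by rw [← Subtype.coe_lt_coe, hre, hre]; exact he h, hr⟩
    choose e2 he2 hc2 using h4
    let p : S → (fun p => (ofLex p).1) '' S := fun s => ⟨(ofLex s.1).1, mem_image_of_mem _ s.2⟩
    refine ⟨t0, fun s => toLex ((e1 (p s)).1, e2 (e1 (p s)).1 (ofLex s.1).2), fun s s' h => ?_,
      fun s => (hc2 _ _).trans (e1 (p s)).2⟩
    rcases Prod.Lex.lt_iff.1 (show s.1 < s'.1 from h) with h | ⟨h, h'⟩
    · exact Prod.Lex.lt_iff.2 (Or.inl (he1 (show p s < p s' from h)))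
    · have e : p s = p s' := Subtype.ext h
      exact Prod.Lex.lt_iff.2 (Or.inr ⟨by simp only [ofLex_toLex, e], by
        simp only [ofLex_toLex, e]; exact he2 _ h'⟩)
  obtain ⟨-, e, he, -⟩ := key Unit (mk_le_aleph0.trans hθ) fun _ => ()
  choose ix hix using hc
  by_contra hn
  have h1 : ∀ i, ∃ s, i ≤ ix (e s) := fun i => by
    by_contra h2
    exact hn ⟨i, e, he, fun s => hD (le_of_not_ge fun h4 => h2 ⟨s, h4⟩) (hix _)⟩
  choose c hc using fun y => h1 (ix y)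
  obtain ⟨t, e', he', ht⟩ := key S hS c
  exact hn ⟨ix (e t), e', he', fun s => hD (ht s ▸ hc (e' s)) (hix _)⟩

open TopAbsP in
theorem topAbs (h1 : S_Sat) (h2 : S_Top) : S_TopAbs := by
  classical
  intro κ lam C E θ hκ hθ I _ hP S hS N F hF a
  have hinf : ℵ₀ ≤ θ := C.inf.trans hκ
  obtain ⟨Λ, _, hΛ, hP⟩ := hP
  have hne : Nonempty Λ := by
    rw [← mk_ne_zero_iff, hΛ]; exact (zero_le.trans_lt hθ).ne'
  obtain ⟨J, _, D, hD, hcl, hcov, hsat⟩ := h1 κ lam C E (hκ.trans_lt hθ) (E.obj Λ)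
    ((E.card_obj (hΛ ▸ hκ.trans hθ.le)).trans hΛ)
  obtain ⟨i, e, he, hei⟩ := hP S hS J (fun i => {y | E.atm Λ y ∈ D i})
    (fun _ _ h _ hy => hD h hy) fun y => hcov _
  obtain ⟨u, hu, hui⟩ : ∃ u : I → Λ, StrictMonoOn u S ∧ ∀ s ∈ S, E.atm Λ (u s) ∈ D i := by
    refine ⟨fun s => if h : s ∈ S then e ⟨s, h⟩ else hne.some, fun s hs t ht h => ?_, fun s hs => ?_⟩
    · simp only [dif_pos hs, dif_pos ht]
      exact he h
    · simp only [dif_pos hs]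
      exact hei _
  have hL : StrictMonoOn (lo Λ) univ := lo_strictMono.strictMonoOn _
  have hT := up_strictMonoOn hu
  have hT0 : StrictMonoOn (up u) (lo I '' S) := hT.mono subset_union_left
  obtain ⟨b0, Γ1, hΓ1, hsub, hb0⟩ := hsat i N
    (E.Tr univ (lo Λ) ○ ((E.Tr (lo I '' S) (up u)).inv ○ F.graph))
    (C.pi_comp (E.tr_pi hL) (C.pi_comp (C.pi_inv (E.tr_pi hT0)) hF)) (by
      rintro x ⟨z, y, hxy, w, hw, -⟩
      have h4 : y ∈ E.sp (up u '' (lo I '' S)) := E.tr_cod hT0 ▸ ⟨w, hw⟩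
      rw [up_image_lo] at h4
      refine C.cl_subset ?_ (hcl i) (E.tr_back' hL (subset_univ _) h4 hxy)
      rintro _ ⟨_, ⟨s, hs, rfl⟩, rfl⟩
      exact hui s hs) a
  obtain ⟨b1, hb1, hb01⟩ := E.tr_map hL Subset.rfl (x := b0) (by rw [E.sp_univ]; trivial)
  rw [image_univ] at hb1
  obtain ⟨y, hy, Δ, hΔ, hfix, hb1y⟩ := h2 κ lam C E θ hκ hθ Λ (u '' S) (mk_image_le.trans hS) b1 hb1
  rw [← up_img] at hy
  obtain ⟨b, hb, hby⟩ := E.tr_back hT Subset.rfl hy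
  refine ⟨b, hb, E.Tr _ (up u) ○ (Δ.inv ○ ((E.Tr univ (lo Λ)).inv ○ Γ1)),
    C.pi_comp (E.tr_pi hT) (C.pi_comp (C.pi_inv hΔ) (C.pi_comp (C.pi_inv (E.tr_pi hL)) hΓ1)),
    ⟨y, hby, b1, hb1y, b0, hb01, hb0⟩, fun x hx => ?_⟩
  obtain ⟨z, hz, hxz⟩ := E.tr_map hT0 Subset.rfl hx
  rw [up_image_lo] at hz
  obtain ⟨w, -, hwz⟩ := E.tr_back hL (subset_univ _) hz
  exact ⟨z, E.tr_mono subset_union_left hxz, z, hfix z hz, w, hwz, hsub ⟨z, hwz, x, hxz, rfl⟩⟩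

open TopAbsP in
theorem oneB (h : S_TopAbs) : S_OneB := by
  intro κ lam C E θ hκ hθ I _ hP N F hF a
  have hinf : ℵ₀ ≤ θ := C.inf.trans hκ
  by_contra hn
  have hbad : ∀ b : C.U (E.obj (I ⊕ₗ ℕ)), ∃ S : Set I, #S ≤ θ ∧
      ¬ ∃ Γ : SetRel (C.U (E.obj (I ⊕ₗ ℕ))) (C.U N), C.PI Γ ∧ (b, a) ∈ Γ ∧
        ∀ x ∈ E.sp (lo I '' S), (x, F x) ∈ Γ := fun b => by
    have : Nonempty (I ⊕ₗ ℕ) := ⟨hi I 0⟩
    obtain ⟨t, -, ht⟩ := E.sp_fin (Z := univ) (x := b) (by rw [E.sp_univ]; trivial)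
    by_contra h1
    refine hn ⟨lo I ⁻¹' t, t.finite_toSet.preimage lo_inj.injOn, b, E.sp_mono (fun p hp => ?_) ht,
      fun S hS => by_contra fun h2 => h1 ⟨S, hS, h2⟩⟩
    rcases lo_or_hi p with ⟨i, rfl⟩ | ⟨n, rfl⟩
    exacts [Or.inl ⟨i, hp, rfl⟩, Or.inr ⟨n, rfl⟩]
  choose Sb hSb hno using hbad
  let S : ℕ → Set I := fun n => Nat.rec ∅
    (fun _ T => T ∪ ⋃ b : E.sp (lo I '' T ∪ range (hi I)), Sb b) n
  have hS : ∀ n, #↥(S n) ≤ θ := fun n => by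
    induction n with
    | zero => simp [S]
    | succ n ih =>
      exact (mk_union_le _ _).trans (add_le_of_le hinf ih
        (card_iUnion_le hinf (E.card_sp_le hκ (card_lo_hi hinf ih)) fun b => hSb _))
  have hmono : Monotone S := monotone_nat_of_le_succ fun n => subset_union_left
  obtain ⟨b, hb, Γ, hΓ, hba, hx⟩ := h κ lam C E θ hκ hθ I hP (⋃ n, S n)
    (card_iUnion_le hinf (by simpa using hinf) hS) N F hF a
  rw [Set.image_iUnion, iUnion_union] at hb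
  obtain ⟨n, hbn⟩ := E.mem_sp_iUnion (Monotone.directed_le fun _ _ hk =>
    union_subset_union_left _ (Set.image_mono (hmono hk))) hb
  refine hno b ⟨Γ, hΓ, hba, fun x h1 => hx x (E.sp_mono (Set.image_mono ?_) h1)⟩
  exact fun i hi' => mem_iUnion.2 ⟨n + 1, Or.inr (mem_iUnion.2 ⟨⟨b, hbn⟩, hi'⟩)⟩

end Pool.Agent.P.MP_860a31_lc
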