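import Pool.Agent.P.MP_860a31_lc.Basic

/-!
Filling of cubes and triviality of locally trivial torsors.
-/

open Cardinal hiding univ
open Set SetRel

namespace Pool.Agent.P.MP_860a31_lc

namespace TorsP

theorem rec_choice {ι : Type} (r : ι → ι → Prop) (wf : WellFounded r) (X : ι → Type)
    (hX : ∀ i, Nonempty (X i)) (R : ∀ j i, X j → X i → Prop)
    (step : ∀ i (x : ∀ j, X j), (∀ j, r j i → ∀ k, r k j → R k j (x k) (x j)) →
      ∃ y : X i, ∀ j, r j i → R j i (x j) y) :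
    ∃ x : ∀ i, X i, ∀ i j, r j i → R j i (x j) (x i) := by
  classical
  let F : ∀ i, (∀ j, r j i → X j) → X i := fun i a =>
    @Classical.epsilon _ (hX i) fun y => ∀ j (h : r j i), R j i (a j h) y
  let x : ∀ i, X i := wf.fix F
  have hx : ∀ i, x i = F i (fun j _ => x j) := fun i => wf.fix_eq F i
  refine ⟨x, fun i => ?_⟩
  induction i using wf.induction with
  | _ i ih =>
    have h := Classical.epsilon_spec (step i x ih)
    rw [hx i]
    exact h

variable {I : Type} [LinearOrder I] {s0 : Set I} {κ : Cardinal.{0}} (P : Psh I s0 κ)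

theorem rr {S S' S'' : Set I} (h : Mor s0 S S' id) (h' : Mor s0 S' S'' id)
    (h'' : Mor s0 S S'' id) (g : P.G S'') : P.res id h (P.res id h' g) = P.res id h'' g :=
  P.res_comp h h' g

theorem agree_mono {S S' T T' : Set I} {g : P.G S} {g' : P.G S'} (h : P.Agree g g' T)
    (hT : T' ⊆ T) (hS : T ⊆ S) (hS' : T ⊆ S') : P.Agree g g' T' := by
  intro k k'
  have h0 : s0 ⊆ T := k.base.trans hT
  rw [← rr P (Mor.incl k.base hT) (Mor.incl h0 hS) k,
    ← rr P (Mor.incl k.base hT) (Mor.incl h0 hS') k', h]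

theorem triv_mono {S T T' : Set I} {g : P.G S} (h : P.Triv g T) (hT : T' ⊆ T) (hS : T ⊆ S) :
    P.Triv g T' := by
  intro k
  have h0 : s0 ⊆ T := k.base.trans hT
  rw [← rr P (Mor.incl k.base hT) (Mor.incl h0 hS) k, h, map_one]

end TorsP

open TorsP in
theorem fill (h : S_Fill1) : S_Fill := by
  intro κ μ hκ Λ B _ _ _ C hC s0 hs0 P V0 V hV hV0 hb hs g hg
  induction hn : (V \ V0).ncard using Nat.strong_induction_on generalizing V0 with
  | _ n ih =>
  rcases (V \ V0).eq_empty_or_nonempty with he | hne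
  · refine ⟨1, fun W h1 h2 => ?_⟩
    exact absurd ((sdiff_eq_empty.1 he).trans h1) h2.not_superset
  obtain ⟨d, hd, hdmin⟩ := exists_min_image (V \ V0) id (hV.subset sdiff_subset) hne
  have hbd : (⊥ : Λ) < d := bot_lt_iff_ne_bot.2 fun e => hd.2 (e ▸ hb)
  have h0' : V0 ⊆ V \ {d} := fun v hv => ⟨hV0 hv, fun e => hd.2 (e ▸ hv)⟩
  obtain ⟨β, hβ, hβmax⟩ := exists_max_image {v ∈ V \ {d} | v < d} id
    (hV.subset fun v hv => hv.1.1) ⟨⊥, h0' hb, hbd⟩
  have hβ0 : β ∈ V0 := by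
    by_contra hc
    exact absurd (hdmin β ⟨hβ.1.1, hc⟩) (not_le.2 hβ.2)
  have hlt : (V \ insert d V0).ncard < n := by
    rw [← hn]
    refine ncard_lt_ncard ⟨sdiff_subset_sdiff_right (subset_insert _ _), fun hc => ?_⟩
      (hV.subset sdiff_subset)
    exact (hc hd).2 (mem_insert _ _)
  obtain ⟨g1, hg1⟩ := ih _ hlt (insert d V0) (insert_subset hd.1 hV0) (mem_insert_of_mem _ hb)
    (hs.trans (box_mono (subset_insert _ _) Subset.rfl))
    (fun W W' h1 => hg W W' ((subset_insert _ _).trans h1)) rfl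
  have hs' : s0 ⊆ box (V \ {d}) (univ : Set B) := hs.trans (box_mono h0' Subset.rfl)
  have hV' : V \ {d} ⊂ V := ⟨sdiff_subset, fun hc => (hc hd.1).2 rfl⟩
  have m1 : Mor s0 (box (V \ {d}) univ) (box V (univ : Set B)) id :=
    Mor.incl hs' (box_mono sdiff_subset Subset.rfl)
  obtain ⟨g3, hg3, hg3'⟩ := h κ μ hκ Λ B C hC s0 hs0 P (V \ {d}) (hV.subset sdiff_subset) hs' d β
    (fun hc => hc.2 rfl) hβ.1 hβ.2 (fun v hv hvd => hβmax v ⟨hv, hvd⟩)
    (g (V \ {d}) * (P.res id m1 g1)⁻¹)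
  have hins : V ⊆ insert d (V \ {d}) := by
    intro v hv
    by_cases e : v = d
    · exact Or.inl e
    · exact Or.inr ⟨hv, e⟩
  have m2 : Mor s0 (box V univ) (box (insert d (V \ {d})) (univ : Set B)) id :=
    Mor.incl m1.base' (box_mono hins Subset.rfl)
  refine ⟨P.res id m2 g3 * g1, fun W h1 h2 k k' => ?_⟩
  have k3 : Mor s0 (box W univ) (box (insert d (V \ {d})) (univ : Set B)) id := k.comp m2
  rw [map_mul, rr P k m2 k3]
  by_cases hdW : d ∈ W
  · have hW0 : W \ {d} ⊆ V \ {d} := sdiff_subset_sdiff_left h2.subset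
    have h0W : V0 ⊆ W \ {d} := fun v hv => ⟨h1 hv, (h0' hv).2⟩
    have hsW : s0 ⊆ box (W \ {d}) (univ : Set B) := hs.trans (box_mono h0W Subset.rfl)
    have hA := hg1 W (insert_subset hdW h1) h2
    have hT : P.Triv (g (V \ {d}) * (P.res id m1 g1)⁻¹) (box (W \ {d}) univ) := by
      intro j
      have j0 : Mor s0 (box (W \ {d}) univ) (box (W \ {d}) (univ : Set B)) id :=
        Mor.incl hsW Subset.rfl
      have j1 : Mor s0 (box (W \ {d}) univ) (box W (univ : Set B)) id :=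
        Mor.incl hsW (box_mono sdiff_subset Subset.rfl)
      have j2 : Mor s0 (box (W \ {d}) univ) (box V (univ : Set B)) id := j.comp m1
      rw [map_mul, map_inv, rr P j m1 j2, hg _ _ h0W hW0 hV' j j0,
        agree_mono P hA (box_mono sdiff_subset Subset.rfl) (box_mono h2.subset Subset.rfl)
          Subset.rfl j2 j1, hg _ _ h0W sdiff_subset h2 j1 j0, mul_inv_cancel]
    have hT3 := hg3' (W \ {d}) hW0 (h0W hβ0) hsW hT
    have hWi : W ⊆ insert d (W \ {d}) := by
      intro v hv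
      by_cases e : v = d
      · exact Or.inl e
      · exact Or.inr ⟨hv, e⟩
    rw [triv_mono P hT3 (box_mono hWi Subset.rfl)
      (box_mono (insert_subset_insert hW0) Subset.rfl) k3, one_mul]
    exact hA k k'
  · have hW : W ⊆ V \ {d} := fun v hv => ⟨h2.subset hv, fun e => hdW (e ▸ hv)⟩
    have j : Mor s0 (box W univ) (box (V \ {d}) (univ : Set B)) id :=
      Mor.incl k.base (box_mono hW Subset.rfl)
    rw [agree_mono P hg3 (box_mono hW Subset.rfl) (box_mono (subset_insert _ _) Subset.rfl)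
      Subset.rfl k3 j, map_mul, map_inv, rr P j m1 k, inv_mul_cancel_right]
    exact hg _ _ h1 hW hV' j k'

open TorsP in
theorem tors (h : S_Fill) : S_Tors := by
  intro κ μ hκ Λ B _ _ _ C hC s0 hs0 P hX
  classical
  let V0 : Set Λ := insert ⊥ ((fun p : Λ ×ₗ B => (ofLex p).1) '' s0)
  have hV0 : V0.Finite := (hs0.image _).insert _
  have hs : s0 ⊆ box V0 (univ : Set B) := fun p hp =>
    ⟨Or.inr (mem_image_of_mem _ hp), trivial⟩
  let J := {W : Set Λ // W.Finite ∧ V0 ⊆ W}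
  have wf : WellFounded fun j i : J => j.1 ⊂ i.1 :=
    Subrelation.wf (r := InvImage (· < ·) fun i : J => i.1.ncard)
      (fun {j i} hji => ncard_lt_ncard hji i.2.1) (InvImage.wf _ wellFounded_lt)
  have aux : ∀ (x : ∀ j : J, P.X (box j.1 univ)) (j k : J),
      (j.1 ⊂ k.1 → ∀ hh : box j.1 (univ : Set B) ⊆ box k.1 univ, P.rx hh (x k) = x j) →
      j.1 ⊆ k.1 → ∀ hh : box j.1 (univ : Set B) ⊆ box k.1 univ, P.rx hh (x k) = x j := by
    intro x j k hjk hle hh
    rcases hle.eq_or_ssubset with e | e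
    · obtain rfl : j = k := Subtype.ext e
      exact P.rx_id _
    · exact hjk e hh
  obtain ⟨x, hx⟩ := rec_choice _ wf (fun j : J => P.X (box j.1 univ)) (fun j => hX j.1 j.2.1)
    (fun j i a b => ∀ hh : box j.1 (univ : Set B) ⊆ box i.1 univ, P.rx hh b = a) (by
      intro i x hx
      obtain ⟨x0⟩ := hX i.1 i.2.1
      have hg : ∀ W : Set Λ, ∃ g : P.G (box W univ), ∀ (h1 : W ⊆ i.1) (h0 : V0 ⊆ W),
          P.act g (P.rx (box_mono h1 Subset.rfl) x0) = x ⟨W, i.2.1.subset h1, h0⟩ := by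
        intro W
        by_cases hW : W ⊆ i.1 ∧ V0 ⊆ W
        · obtain ⟨g, hg⟩ := P.act_tr (P.rx (box_mono hW.1 Subset.rfl) x0)
            (x ⟨W, i.2.1.subset hW.1, hW.2⟩)
          exact ⟨g, fun _ _ => hg⟩
        · exact ⟨1, fun h1 h0 => absurd ⟨h1, h0⟩ hW⟩
      choose g hg using hg
      obtain ⟨g', hg'⟩ := h κ μ hκ Λ B C hC s0 hs0 P V0 i.1 i.2.1 i.2.2 (mem_insert _ _) hs g (by
        intro W W' h0 h1 h2 k k'
        have hWi : W ⊆ i.1 := h1.trans h2.subset
        rw [P.res_id k']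
        refine P.act_free _ _ (P.rx (box_mono hWi Subset.rfl) x0) ?_
        rw [hg W hWi h0]
        have e1 := P.rx_act k (g W') (P.rx (box_mono h2.subset Subset.rfl) x0)
        rw [hg W' h2.subset (h0.trans h1), P.rx_comp] at e1
        refine e1.symm.trans ?_
        exact aux x ⟨W, i.2.1.subset hWi, h0⟩ ⟨W', i.2.1.subset h2.subset, h0.trans h1⟩
          (fun hlt => hx ⟨W', i.2.1.subset h2.subset, h0.trans h1⟩ h2 _ hlt) h1 _)
      refine ⟨P.act g' x0, fun j hj hh => ?_⟩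
      have hsj : s0 ⊆ box j.1 (univ : Set B) := hs.trans (box_mono j.2.2 Subset.rfl)
      have e1 := P.rx_act (Mor.incl hsj hh) g' x0
      rw [hg' j.1 j.2.2 hj _ (Mor.incl hsj Subset.rfl), P.res_id] at e1
      exact e1.trans (hg j.1 hj.subset j.2.2))
  have : IsDirected J (· ≤ ·) := ⟨fun a b =>
    ⟨⟨a.1 ∪ b.1, a.2.1.union b.2.1, a.2.2.trans subset_union_left⟩,
      subset_union_left, subset_union_right⟩⟩
  have : Nonempty J := ⟨⟨V0, hV0, Subset.rfl⟩⟩
  refine P.glueX J (fun j => box j.1 univ) univ (fun a b hab => box_mono hab Subset.rfl) ?_ x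
    (fun j k hjk => aux x j k (hx k j) hjk)
  refine (eq_univ_of_forall fun p => mem_iUnion.2 ?_).symm
  exact ⟨⟨insert (ofLex p).1 V0, hV0.insert _, subset_insert _ _⟩, mem_insert _ _, trivial⟩

end Pool.Agent.P.MP_860a31_lc
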